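import Pool.Agent.Helper65.LinSpace.Arith2

/-!
# A bound for powers of two
-/

namespace Pool.Agent.Helper65.LinSpace

theorem pow_log_le (y : ℕ) : 2 ^ Nat.log 2 y ≤ y + 1 := by
  rcases Nat.eq_zero_or_pos y with h | h
  · subst h
    simp
  · exact (Nat.pow_log_le_self 2 (by omega)).trans (Nat.le_succ _)

end Pool.Agent.Helper65.LinSpace
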