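import Pool.Agent.Helper65.LinSpace.Prog

/-!
# Linear-space functions on tuples of numbers
-/

namespace Pool.Agent.Helper65.LinSpace

/-- The first `k` entries of an environment, followed by zeros. -/
def cut (k : ℕ) (e : ℕ → ℕ) : ℕ → ℕ := fun i => if i < k then e i else 0

/-- Types of tuples of numbers, coded by environments with `ar` entries. -/
class Ctx (α : Type) where
  ar : ℕ
  enc : α → ℕ → ℕ
  dec : (ℕ → ℕ) → α
  enc_dec : ∀ e, enc (dec e) = cut ar e
  dec_enc : ∀ a, dec (enc a) = a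

theorem Ctx.enc_of_le {α : Type} [Ctx α] (a : α) {i : ℕ} (h : Ctx.ar α ≤ i) :
    Ctx.enc a i = 0 := by
  have h1 := Ctx.enc_dec (α := α) (Ctx.enc a)
  rw [Ctx.dec_enc] at h1
  rw [h1]
  simp only [cut]
  rw [if_neg (by omega)]

instance : Ctx ℕ where
  ar := 1
  enc a := cons a (fun _ => 0)
  dec e := e 0
  enc_dec e := by
    funext i
    rcases i with _ | i <;> simp [cut]
  dec_enc _ := rfl

instance {α β : Type} [Ctx α] [Ctx β] : Ctx (α × β) where
  ar := Ctx.ar α + Ctx.ar β
  enc p i := if i < Ctx.ar α then Ctx.enc p.1 i else Ctx.enc p.2 (i - Ctx.ar α)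
  dec e := (Ctx.dec e, Ctx.dec fun i => e (i + Ctx.ar α))
  enc_dec e := by
    funext i
    simp only [Ctx.enc_dec, cut]
    split_ifs with h1 h2 h3 h4 h5
    · rfl
    · omega
    · congr 1
      omega
    · omega
    · omega
    · rfl
  dec_enc p := by
    refine Prod.ext ?_ ?_
    · refine Eq.trans ?_ (Ctx.dec_enc p.1)
      have : Ctx.dec (α := α) (fun i => if i < Ctx.ar α then Ctx.enc p.1 i
          else Ctx.enc p.2 (i - Ctx.ar α)) =
          Ctx.dec (Ctx.enc (Ctx.dec (α := α) (fun i => if i < Ctx.ar α then Ctx.enc p.1 i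
          else Ctx.enc p.2 (i - Ctx.ar α)))) := (Ctx.dec_enc _).symm
      refine this.trans ?_
      rw [Ctx.enc_dec]
      congr 1
      funext i
      simp only [cut]
      split_ifs with h
      · rfl
      · rw [Ctx.enc_of_le _ (by omega)]
    · refine Eq.trans ?_ (Ctx.dec_enc p.2)
      simp only
      congr 1
      funext i
      rw [if_neg (by omega), Nat.add_sub_cancel]

variable {α β γ : Type} [Ctx α] [Ctx β] [Ctx γ]

theorem E2.ren0 {F : (ℕ → ℕ) → ℕ} (hF : E2 F) (σ : ℕ → ℕ) :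
    E2 (fun e => F (fun t => cons 0 e (σ t))) :=
  E2.bind E2.zero (E2.ren σ hF)

theorem E2.cut {F : (ℕ → ℕ) → ℕ} (hF : E2 F) (k : ℕ) : E2 (fun e => F (cut k e)) := by
  have := hF.ren0 fun t => if t < k then t + 1 else 0
  have h2 : (fun e : ℕ → ℕ => F (fun t => cons 0 e (if t < k then t + 1 else 0))) =
      fun e => F (LinSpace.cut k e) := by
    funext e
    congr 1
    funext t
    simp only [LinSpace.cut]
    split_ifs <;> simp
  rwa [h2] at this

theorem E2.const (n : ℕ) : E2 (fun _ => n) := by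
  induction n with
  | zero => exact E2.zero
  | succ n ih => exact E2.succ ih

/-- The environment `F 0 e, …, F (k - 1) e, e 0, e 1, …`. -/
def pre (F : ℕ → (ℕ → ℕ) → ℕ) (e : ℕ → ℕ) (k : ℕ) : ℕ → ℕ :=
  fun i => if i < k then F i e else e (i - k)

theorem E2.pre (F : ℕ → (ℕ → ℕ) → ℕ) (k : ℕ) : ∀ (_ : ∀ i < k, E2 (F i))
    {G : (ℕ → ℕ) → ℕ} (_ : E2 G), E2 (fun e => G (pre F e k)) := by
  induction k generalizing F with
  | zero =>
    intro _ G hG
    have h : ∀ e, LinSpace.pre F e 0 = e := fun e => by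
      funext i
      simp [LinSpace.pre]
    simpa only [h] using hG
  | succ k ih =>
    intro hF G hG
    have h0 : E2 (fun e' => F 0 (fun i => e' (i + k))) := E2.ren (fun i => i + k) (hF 0 (by omega))
    have h1 : E2 (fun e' => G (cons (F 0 (fun i => e' (i + k))) e')) := E2.bind h0 hG
    have h2 := ih (fun i => F (i + 1)) (fun i hi => hF (i + 1) (by omega)) h1
    have h3 : (fun e => G (cons (F 0 (fun i => LinSpace.pre (fun i => F (i + 1)) e k (i + k)))
        (LinSpace.pre (fun i => F (i + 1)) e k))) = fun e => G (LinSpace.pre F e (k + 1)) := by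
      funext e
      congr 1
      funext i
      rcases i with _ | i
      · simp [LinSpace.pre]
      · simp only [cons_succ, LinSpace.pre]
        by_cases hi : i < k
        · rw [if_pos hi, if_pos (by omega)]
        · rw [if_neg hi, if_neg (by omega)]
          congr 1
          omega
    rwa [h3] at h2

/-- Substitution of `k` functions, zeros afterwards. -/
theorem E2.subst {G : (ℕ → ℕ) → ℕ} (hG : E2 G) (k : ℕ) {F : ℕ → (ℕ → ℕ) → ℕ}
    (hF : ∀ i < k, E2 (F i)) : E2 (fun e => G (fun i => if i < k then F i e else 0)) := by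
  have h0 : E2 (fun e => G (LinSpace.cut k e)) := hG.cut k
  have h1 := E2.pre F k hF h0
  have h2 : (fun e => G (LinSpace.cut k (LinSpace.pre F e k))) =
      fun e => G (fun i => if i < k then F i e else 0) := by
    funext e
    congr 1
    funext i
    simp only [LinSpace.cut, LinSpace.pre]
    split_ifs <;> rfl
  rwa [h2] at h1

/-- Linear-space functions between tuples of numbers. -/
@[fun_prop]
def LS (f : α → β) : Prop := ∀ i < Ctx.ar β, ∃ F, E2 F ∧ ∀ a, F (Ctx.enc a) = Ctx.enc (f a) i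

@[fun_prop]
theorem LS.id : LS (fun a : α => a) := fun i _ => ⟨fun e => e i, E2.var i, fun _ => rfl⟩

@[fun_prop]
theorem LS.const (b : β) : LS (fun _ : α => b) := fun i _ =>
  ⟨fun _ => Ctx.enc b i, E2.const _, fun _ => rfl⟩

@[fun_prop]
theorem LS.comp {g : β → γ} {f : α → β} (hg : LS g) (hf : LS f) : LS (fun a => g (f a)) := by
  intro i hi
  obtain ⟨G, hG, hG'⟩ := hg i hi
  choose! F hF hF' using hf
  refine ⟨fun e => G (fun j => if j < Ctx.ar β then F j e else 0), hG.subst _ hF, fun a => ?_⟩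
  rw [← hG']
  show G _ = G _
  congr 1
  funext j
  split_ifs with h
  · exact hF' j h a
  · rw [Ctx.enc_of_le _ (by omega)]

@[fun_prop]
theorem LS.fst : LS (fun p : α × β => p.1) := by
  intro i hi
  refine ⟨fun e => e i, E2.var i, fun p => ?_⟩
  show (if i < Ctx.ar α then Ctx.enc p.1 i else Ctx.enc p.2 (i - Ctx.ar α)) = _
  rw [if_pos hi]

@[fun_prop]
theorem LS.snd : LS (fun p : α × β => p.2) := by
  intro i hi
  refine ⟨fun e => e (i + Ctx.ar α), E2.var _, fun p => ?_⟩
  show (if i + Ctx.ar α < Ctx.ar α then Ctx.enc p.1 (i + Ctx.ar α)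
    else Ctx.enc p.2 (i + Ctx.ar α - Ctx.ar α)) = _
  rw [if_neg (by omega), Nat.add_sub_cancel]

@[fun_prop]
theorem LS.prodMk {f : α → β} {g : α → γ} (hf : LS f) (hg : LS g) : LS (fun a => (f a, g a)) := by
  intro i hi
  by_cases h : i < Ctx.ar β
  · obtain ⟨F, hF, hF'⟩ := hf i h
    refine ⟨F, hF, fun a => ?_⟩
    show _ = (if i < Ctx.ar β then Ctx.enc (f a) i else Ctx.enc (g a) (i - Ctx.ar β))
    rw [if_pos h, hF']
  · obtain ⟨F, hF, hF'⟩ := hg (i - Ctx.ar β) (by
      change i < Ctx.ar β + Ctx.ar γ at hi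
      omega)
    refine ⟨F, hF, fun a => ?_⟩
    show _ = (if i < Ctx.ar β then Ctx.enc (f a) i else Ctx.enc (g a) (i - Ctx.ar β))
    rw [if_neg h, hF']

/-- Functions with numbers as values. -/
theorem LS.nat_iff {f : α → ℕ} : LS f ↔ ∃ F, E2 F ∧ ∀ a, F (Ctx.enc a) = f a := by
  constructor
  · intro h
    exact h 0 Nat.one_pos
  · rintro ⟨F, hF, hF'⟩ i hi
    have hi' : i = 0 := by
      change i < 1 at hi
      omega
    subst hi'
    exact ⟨F, hF, hF'⟩

@[fun_prop]
theorem LS.succ {f : α → ℕ} (hf : LS f) : LS (fun a => f a + 1) := by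
  rw [LS.nat_iff] at hf ⊢
  obtain ⟨F, hF, hF'⟩ := hf
  exact ⟨_, hF.succ, fun a => by rw [hF']⟩

@[fun_prop]
theorem LS.mul {f g : α → ℕ} (hf : LS f) (hg : LS g) : LS (fun a => f a * g a) := by
  rw [LS.nat_iff] at hf hg ⊢
  obtain ⟨F, hF, hF'⟩ := hf
  obtain ⟨G, hG, hG'⟩ := hg
  exact ⟨_, hF.mul hG, fun a => by rw [hF', hG']⟩

/-- Primitive recursion on numbers. -/
def nrec (g : ℕ) (k : ℕ → ℕ → ℕ) : ℕ → ℕ
  | 0 => g
  | i + 1 => k i (nrec g k i)

@[simp] theorem nrec_zero (g : ℕ) (k : ℕ → ℕ → ℕ) : nrec g k 0 = g := rfl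

theorem nrec_succ (g : ℕ) (k : ℕ → ℕ → ℕ) (i : ℕ) : nrec g k (i + 1) = k i (nrec g k i) := rfl

theorem LS.nrec {G N C : α → ℕ} {K : α → ℕ → ℕ → ℕ} (hG : LS G) (hN : LS N) (hC : LS C)
    (hK : LS (fun p : α × ℕ × ℕ => K p.1 p.2.1 p.2.2))
    (hb : ∀ a, ∀ i ≤ N a, nrec (G a) (K a) i ≤ C a) : LS (fun a => nrec (G a) (K a) (N a)) := by
  rw [LS.nat_iff] at hG hN hC hK ⊢
  obtain ⟨G', hG, hG'⟩ := hG
  obtain ⟨N', hN, hN'⟩ := hN
  obtain ⟨C', hC, hC'⟩ := hC
  obtain ⟨K', hK, hK'⟩ := hK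
  set k := Ctx.ar α with hk
  have ed : ∀ e : ℕ → ℕ, LinSpace.cut k e = Ctx.enc (Ctx.dec (α := α) e) := fun e =>
    (Ctx.enc_dec e).symm
  let σ : ℕ → ℕ := fun t => if t < k then t + 3 else if t = k then 1 else if t = k + 1 then 2 else 0
  let H : (ℕ → ℕ) → ℕ := fun e => K' (fun t => cons 0 e (σ t))
  have hH : E2 H := hK.ren0 σ
  have key : ∀ e i, recVal (fun e => G' (LinSpace.cut k e)) H e i =
      LinSpace.nrec (G (Ctx.dec e)) (K (Ctx.dec e)) i := by
    intro e i
    induction i with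
    | zero =>
      show G' (LinSpace.cut k e) = G (Ctx.dec e)
      rw [ed, hG']
    | succ i ih =>
      show K' _ = _
      rw [ih, nrec_succ, ← hK' (Ctx.dec e, i, LinSpace.nrec (G (Ctx.dec e)) (K (Ctx.dec e)) i)]
      congr 1
      funext t
      show _ = (if t < Ctx.ar α then Ctx.enc (Ctx.dec (α := α) e) t
        else (if t - Ctx.ar α < 1 then cons i (fun _ => 0) (t - Ctx.ar α)
          else cons _ (fun _ => 0) (t - Ctx.ar α - 1)))
      rw [← ed, ← hk]
      simp only [σ]
      by_cases h1 : t < k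
      · rw [if_pos h1, if_pos h1]
        show e t = LinSpace.cut k e t
        simp [LinSpace.cut, h1]
      · rw [if_neg h1, if_neg h1]
        by_cases h2 : t = k
        · subst h2
          simp [cons]
        · rw [if_neg h2]
          by_cases h3 : t = k + 1
          · subst h3
            rw [if_pos rfl, if_neg (by omega)]
            have : k + 1 - k - 1 = 0 := by omega
            rw [this]
            rfl
          · rw [if_neg h3, if_neg (by omega)]
            obtain ⟨u, hu⟩ : ∃ u, t - k - 1 = u + 1 := ⟨t - k - 2, by omega⟩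
            rw [hu]
            rfl
  refine ⟨fun e => recVal (fun e => G' (LinSpace.cut k e)) H e (N' (LinSpace.cut k e)), ?_, ?_⟩
  · refine E2.prec (hG.cut k) hH (hN.cut k) (hC.cut k) ?_
    intro e i hi
    rw [key]
    rw [ed, hN'] at hi
    rw [ed, hC']
    exact hb _ _ hi
  · intro a
    show recVal _ H (Ctx.enc a) _ = _
    rw [key, ed, Ctx.dec_enc, hN']

end Pool.Agent.Helper65.LinSpace
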