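import Pool.Agent.Helper65.LinSpace.Param

/-!
# The size of the parameters
-/

namespace Pool.Agent.Helper65.LinSpace

open Filter Topology

/-- `c ≤ (n + 1) ^ δ` for large `n`. -/
theorem ev_le_rpow (c : ℝ) {δ : ℝ} (hδ : 0 < δ) : ∀ᶠ n : ℕ in atTop, c ≤ ((n : ℝ) + 1) ^ δ := by
  have h : Tendsto (fun n : ℕ => ((n : ℝ) + 1) ^ δ) atTop atTop :=
    (tendsto_rpow_atTop hδ).comp (tendsto_atTop_add_const_right _ _ tendsto_natCast_atTop_atTop)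
  exact h.eventually_ge_atTop c

theorem ev_ll_le {δ : ℝ} (hδ : 0 < δ) : ∀ᶠ n : ℕ in atTop, (ll n : ℝ) ≤ ((n : ℝ) + 1) ^ δ := by
  have h1 : (fun x : ℝ => Real.log x) =o[atTop] fun x => x ^ (δ / 2) :=
    isLittleO_log_rpow_atTop (by positivity)
  have h2 := (h1.comp_tendsto (tendsto_atTop_add_const_right atTop (1 : ℝ)
    tendsto_natCast_atTop_atTop)).bound (show (0 : ℝ) < 1 by norm_num)
  filter_upwards [h2, ev_le_rpow (1 / Real.log 2 + 1) (show 0 < δ / 2 by positivity)] with n h2 h3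
  simp only [Function.comp_apply, Real.norm_eq_abs, one_mul] at h2
  have hn1 : (1 : ℝ) ≤ (n : ℝ) + 1 := by
    have : (0 : ℝ) ≤ n := Nat.cast_nonneg n
    linarith
  have hn0 : (0 : ℝ) < (n : ℝ) + 1 := by linarith
  have hlog2 : 0 < Real.log 2 := Real.log_pos (by norm_num)
  have h4 : Real.log ((n : ℝ) + 1) ≤ ((n : ℝ) + 1) ^ (δ / 2) := by
    refine (le_abs_self _).trans (h2.trans ?_)
    rw [abs_of_nonneg (by positivity)]
  have h5 : (Nat.log 2 n : ℝ) * Real.log 2 ≤ Real.log ((n : ℝ) + 1) := by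
    rw [← Real.log_pow]
    refine Real.log_le_log (by positivity) ?_
    rcases Nat.eq_zero_or_pos n with h | h
    · subst h
      simp
    · have := Nat.pow_log_le_self 2 (show n ≠ 0 by omega)
      have h6 : ((2 ^ Nat.log 2 n : ℕ) : ℝ) ≤ n := by exact_mod_cast this
      push_cast at h6
      linarith
  have h6 : (1 : ℝ) ≤ ((n : ℝ) + 1) ^ (δ / 2) := Real.one_le_rpow hn1 (by positivity)
  have h7 : ((n : ℝ) + 1) ^ δ = ((n : ℝ) + 1) ^ (δ / 2) * ((n : ℝ) + 1) ^ (δ / 2) := by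
    rw [← Real.rpow_add hn0]
    congr 1
    ring
  have h8 : (Nat.log 2 n : ℝ) ≤ 1 / Real.log 2 * ((n : ℝ) + 1) ^ (δ / 2) := by
    rw [one_div, inv_mul_eq_div, le_div_iff₀ hlog2]
    linarith
  rw [h7]
  unfold ll
  push_cast
  nlinarith

/-- `qq n` is at least `(n + 1) ^ (1 - 3 δ)`. -/
theorem ev_le_qq {δ : ℝ} (hδ : 0 < δ) (hδ1 : δ < 1 / 3) :
    ∀ᶠ n : ℕ in atTop, ((n : ℝ) + 1) ^ (1 - 3 * δ) ≤ qq n := by
  filter_upwards [ev_ll_le hδ, ev_le_rpow 4 hδ, eventually_ge_atTop 1] with n h1 h2 h3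
  have hn0 : (0 : ℝ) < (n : ℝ) + 1 := by positivity
  have hn1 : (1 : ℝ) ≤ (n : ℝ) := by exact_mod_cast h3
  have h4 : (n : ℝ) < (qq n + 1) * (ll n * ll n) := by
    have : n < (qq n + 1) * (ll n * ll n) := by
      unfold qq
      have hpos : 0 < ll n * ll n := Nat.mul_pos (ll_pos n) (ll_pos n)
      have := Nat.lt_div_mul_add (a := n) hpos
      rw [add_mul, one_mul]
      exact this
    exact_mod_cast this
  have hll0 : (0 : ℝ) ≤ ll n := Nat.cast_nonneg _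
  have h5 : ((ll n : ℝ) * ll n) ≤ ((n : ℝ) + 1) ^ (2 * δ) := by
    have : ((n : ℝ) + 1) ^ (2 * δ) = ((n : ℝ) + 1) ^ δ * ((n : ℝ) + 1) ^ δ := by
      rw [← Real.rpow_add hn0]
      congr 1
      ring
    rw [this]
    exact mul_le_mul h1 h1 hll0 (by positivity)
  have hq0 : (0 : ℝ) ≤ qq n := Nat.cast_nonneg _
  have h6 : ((n : ℝ) + 1) / 2 ≤ (qq n + 1) * ((n : ℝ) + 1) ^ (2 * δ) := by
    have : ((qq n : ℝ) + 1) * (ll n * ll n) ≤ (qq n + 1) * ((n : ℝ) + 1) ^ (2 * δ) :=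
      mul_le_mul_of_nonneg_left h5 (by positivity)
    linarith
  have h7 : ((n : ℝ) + 1) = ((n : ℝ) + 1) ^ (1 - 3 * δ) * ((n : ℝ) + 1) ^ δ *
      ((n : ℝ) + 1) ^ (2 * δ) := by
    rw [← Real.rpow_add hn0, ← Real.rpow_add hn0]
    conv_lhs => rw [← Real.rpow_one ((n : ℝ) + 1)]
    congr 1
    ring
  have h8 : (0 : ℝ) < ((n : ℝ) + 1) ^ (2 * δ) := by positivity
  have h9 : ((n : ℝ) + 1) ^ (1 - 3 * δ) * ((n : ℝ) + 1) ^ δ / 2 ≤ qq n + 1 := by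
    have : (((n : ℝ) + 1) ^ (1 - 3 * δ) * ((n : ℝ) + 1) ^ δ / 2) * ((n : ℝ) + 1) ^ (2 * δ) ≤
        (qq n + 1) * ((n : ℝ) + 1) ^ (2 * δ) := by
      refine le_trans (le_of_eq ?_) h6
      conv_rhs => rw [h7]
      ring
    exact le_of_mul_le_mul_right this h8
  have h10 : (1 : ℝ) ≤ ((n : ℝ) + 1) ^ (1 - 3 * δ) :=
    Real.one_le_rpow (by linarith) (by linarith)
  nlinarith

/-- `qq n * bb d n` is at least `C (n + 1) ^ (1 + 1 / d - ε)`. -/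
theorem asym {d : ℕ} (hd : d ≠ 0) {ε : ℝ} (hε : 0 < ε) (C : ℝ) :
    ∀ᶠ n : ℕ in atTop, C * ((n : ℝ) + 1) ^ (1 - ε) ≤ qq n ∧
      C * ((n : ℝ) + 1) ^ (1 + 1 / (d : ℝ) - ε) ≤ ((qq n * bb d n : ℕ) : ℝ) := by
  obtain ⟨δ, hδ, hδ1, hδ2⟩ : ∃ δ : ℝ, 0 < δ ∧ δ < 1 / 3 ∧ 8 * δ ≤ ε :=
    ⟨min (ε / 8) (1 / 4), by positivity, lt_of_le_of_lt (min_le_right _ _) (by norm_num), by
      have := min_le_left (ε / 8) (1 / 4)
      linarith⟩
  filter_upwards [ev_le_qq hδ hδ1, ev_le_rpow (2 * |C|) hδ] with n h1 h2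
  have hn0 : (0 : ℝ) < (n : ℝ) + 1 := by positivity
  have hn1 : (1 : ℝ) ≤ (n : ℝ) + 1 := by
    have : (0 : ℝ) ≤ n := Nat.cast_nonneg n
    linarith
  have hC : C ≤ |C| := le_abs_self C
  have hC0 := abs_nonneg C
  constructor
  · calc C * ((n : ℝ) + 1) ^ (1 - ε) ≤ ((n : ℝ) + 1) ^ δ * ((n : ℝ) + 1) ^ (1 - ε) :=
          mul_le_mul_of_nonneg_right (by linarith) (by positivity)
      _ = ((n : ℝ) + 1) ^ (δ + (1 - ε)) := (Real.rpow_add hn0 _ _).symm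
      _ ≤ ((n : ℝ) + 1) ^ (1 - 3 * δ) := Real.rpow_le_rpow_of_exponent_le hn1 (by linarith)
      _ ≤ qq n := h1
  · have hd0 : (0 : ℝ) < d := by
      have : 0 < d := Nat.pos_of_ne_zero hd
      exact_mod_cast this
    have hd1 : 1 / (d : ℝ) ≤ 1 := by
      rw [div_le_one hd0]
      have : 1 ≤ d := Nat.pos_of_ne_zero hd
      exact_mod_cast this
    have hd2 : 0 < 1 / (d : ℝ) := by positivity
    have hq0 : (0 : ℝ) ≤ qq n := Nat.cast_nonneg _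
    have hb : (qq n : ℝ) ^ (1 / (d : ℝ)) ≤ 2 * bb d n := by
      have h3 : qq n < (rt d (qq n) + 1) ^ d := lt_rt_succ_pow hd _
      have h4 : rt d (qq n) + 1 ≤ 2 * bb d n := by
        unfold bb
        omega
      have h5 : (qq n : ℝ) ≤ (2 * bb d n : ℝ) ^ d := by
        have : qq n ≤ (2 * bb d n) ^ d := h3.le.trans (Nat.pow_le_pow_left h4 d)
        exact_mod_cast this
      calc (qq n : ℝ) ^ (1 / (d : ℝ)) ≤ ((2 * bb d n : ℝ) ^ d) ^ (1 / (d : ℝ)) :=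
            Real.rpow_le_rpow hq0 h5 hd2.le
        _ = 2 * bb d n := by
          rw [← Real.rpow_natCast, ← Real.rpow_mul (by positivity)]
          rw [mul_one_div_cancel hd0.ne', Real.rpow_one]
    have h3 : (0 : ℝ) < ((n : ℝ) + 1) ^ (1 - 3 * δ) := by positivity
    have h4 : (((n : ℝ) + 1) ^ (1 - 3 * δ)) ^ (1 / (d : ℝ)) ≤ 2 * bb d n :=
      (Real.rpow_le_rpow h3.le h1 hd2.le).trans hb
    rw [← Real.rpow_mul hn0.le] at h4
    have h5 : ((n : ℝ) + 1) ^ (1 - 3 * δ) * ((n : ℝ) + 1) ^ ((1 - 3 * δ) * (1 / (d : ℝ))) ≤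
        qq n * (2 * bb d n) := mul_le_mul h1 h4 (by positivity) hq0
    rw [← Real.rpow_add hn0] at h5
    have h6 : 2 * |C| * ((n : ℝ) + 1) ^ (1 + 1 / (d : ℝ) - ε) ≤
        ((n : ℝ) + 1) ^ (1 - 3 * δ + (1 - 3 * δ) * (1 / (d : ℝ))) := by
      calc 2 * |C| * ((n : ℝ) + 1) ^ (1 + 1 / (d : ℝ) - ε) ≤
            ((n : ℝ) + 1) ^ δ * ((n : ℝ) + 1) ^ (1 + 1 / (d : ℝ) - ε) :=
              mul_le_mul_of_nonneg_right h2 (by positivity)
        _ = ((n : ℝ) + 1) ^ (δ + (1 + 1 / (d : ℝ) - ε)) := (Real.rpow_add hn0 _ _).symm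
        _ ≤ _ := by
          refine Real.rpow_le_rpow_of_exponent_le hn1 ?_
          nlinarith
    have h7 : C * ((n : ℝ) + 1) ^ (1 + 1 / (d : ℝ) - ε) ≤
        |C| * ((n : ℝ) + 1) ^ (1 + 1 / (d : ℝ) - ε) :=
      mul_le_mul_of_nonneg_right hC (by positivity)
    push_cast
    linarith

end Pool.Agent.Helper65.LinSpace
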