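import Pool.Agent.Helper65.LinSpace.Param

/-!
# Coding of cellular automata by numbers
-/

namespace Pool.Agent.Helper65.LinSpace

open Finset

/-! ### Words and numbers -/

theorem num_pos (w : List Bool) : 0 < num w := by
  induction w with
  | nil => exact Nat.one_pos
  | cons b w ih =>
    show 0 < b.toNat + 2 * num w
    omega

theorem toNat_le_one (b : Bool) : b.toNat ≤ 1 := by cases b <;> simp

theorem log_num (w : List Bool) : Nat.log 2 (num w) = w.length := by
  induction w with
  | nil => simp [num]
  | cons b w ih =>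
    have h1 := num_pos w
    have h2 := toNat_le_one b
    have h3 : num (b :: w) = b.toNat + 2 * num w := rfl
    rw [Nat.log_of_one_lt_of_le (by norm_num) (by rw [h3]; omega), h3]
    have h4 : (b.toNat + 2 * num w) / 2 = num w := by omega
    rw [h4, ih]
    rfl

theorem dig_num (w : List Bool) (i : ℕ) (hi : i < w.length) : dig 2 (num w) i = w[i].toNat := by
  induction w generalizing i with
  | nil => simp at hi
  | cons b w ih =>
    have h2 := toNat_le_one b
    have h3 : num (b :: w) = b.toNat + 2 * num w := rfl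
    rcases i with _ | i
    · rw [dig_zero, h3]
      show _ = b.toNat
      omega
    · rw [dig_succ, h3]
      have h4 : (b.toNat + 2 * num w) / 2 = num w := by omega
      rw [h4]
      simpa using ih i (by simpa using hi)

theorem exists_num {y : ℕ} (hy : 0 < y) : ∃ v : List Bool, num v = y := by
  induction y using Nat.strong_induction_on with
  | _ y ih =>
    rcases Nat.lt_or_ge y 2 with h | h
    · exact ⟨[], by simp only [num]; omega⟩
    · obtain ⟨v, hv⟩ := ih (y / 2) (by omega) (by omega)
      rcases Nat.mod_two_eq_zero_or_one y with h1 | h1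
      · exact ⟨false :: v, by simp only [num, hv, Bool.toNat_false]; omega⟩
      · exact ⟨true :: v, by simp only [num, hv, Bool.toNat_true]; omega⟩

/-- The code of an optional letter. -/
def codeO : Option Bool → ℕ
  | none => 0
  | some b => 1 + b.toNat

theorem sy_num {d : ℕ} [NeZero d] (w : List Bool) (z : Fin d → ℤ) :
    sy (num w) z = codeO (cellBit w z) := by
  unfold sy cellBit
  rw [log_num]
  by_cases h1 : (∀ j : Fin d, j ≠ 0 → z j = 0) ∧ 0 ≤ z 0
  · rw [if_pos h1]
    by_cases h2 : (z 0).toNat < w.length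
    · rw [if_pos ⟨h1.1, h1.2, h2⟩, List.getElem?_eq_getElem h2, dig_num w _ h2]
      rfl
    · rw [if_neg (fun h => h2 h.2.2), List.getElem?_eq_none (by omega)]
      rfl
  · rw [if_neg h1, if_neg (fun h => h1 ⟨h.1, h.2.1⟩)]
    rfl

/-! ### Latched automata -/

/-- The automaton which remembers whether the cell has been in an accepting state. -/
noncomputable def CA.latch {d : ℕ} (A : CA d) : CA d := open Classical in
  haveI := A.finState
  { State := A.State × Bool
    rule := fun f =>
      (A.rule fun δ => (f δ).1, (f fun _ => 1).2 || decide ((A.rule fun δ => (f δ).1) ∈ A.accept))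
    init := fun a b => (A.init a b, decide (A.init a b ∈ A.accept))
    accept := {q | q.2 = true} }

theorem latch_config {d : ℕ} [NeZero d] (A : CA d) (w y : List Bool) (t : ℕ) (z : Fin d → ℤ) :
    (A.latch.config w y t z).1 = A.config w y t z ∧
      ((A.latch.config w y t z).2 = true ↔ ∃ t' ≤ t, A.config w y t' z ∈ A.accept) := by
  classical
  induction t generalizing z with
  | zero =>
    refine ⟨rfl, ?_⟩
    constructor
    · intro h
      exact ⟨0, le_rfl, of_decide_eq_true h⟩
    · rintro ⟨t', ht', h⟩
      obtain rfl : t' = 0 := by omega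
      exact decide_eq_true h
  | succ t ih =>
    have h1 : (A.latch.config w y (t + 1) z).1 = A.config w y (t + 1) z := by
      show A.rule (fun δ => (A.latch.config w y t (fun i => z i + ((δ i : ℕ) : ℤ) - 1)).1) =
        A.rule fun δ => A.config w y t fun i => z i + ((δ i : ℕ) : ℤ) - 1
      congr 1
      funext δ
      exact (ih _).1
    refine ⟨h1, ?_⟩
    have h2 : (A.latch.config w y (t + 1) z).2 =
        ((A.latch.config w y t z).2 || decide (A.config w y (t + 1) z ∈ A.accept)) := by
      show ((A.latch.config w y t (fun i => z i + (((fun _ => 1 : Fin d → Fin 3) i : ℕ) : ℤ) -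
        1)).2 || decide ((A.latch.config w y (t + 1) z).1 ∈ A.accept)) = _
      rw [h1]
      congr 2
      congr 1
      funext i
      simp
    rw [h2, Bool.or_eq_true, decide_eq_true_iff, (ih z).2]
    constructor
    · rintro (⟨t', ht', h⟩ | h)
      · exact ⟨t', by omega, h⟩
      · exact ⟨t + 1, le_rfl, h⟩
    · rintro ⟨t', ht', h⟩
      rcases Nat.lt_or_ge t t' with h3 | h3
      · obtain rfl : t' = t + 1 := by omega
        exact Or.inr h
      · exact Or.inl ⟨t', h3, h⟩

/-! ### Tables -/

/-- The code of a shift. -/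
def codeD {d : ℕ} (δ : Fin d → Fin 3) : ℕ := tab 3 d fun e => if h : e < d then δ ⟨e, h⟩ else 0

theorem codeD_lt {d : ℕ} (δ : Fin d → Fin 3) : codeD δ < 3 ^ d := tab_lt fun e he => by
  rw [dif_pos he]
  exact (δ _).2

theorem dig_codeD {d : ℕ} (δ : Fin d → Fin 3) (e : Fin d) : dig 3 (codeD δ) e = δ e := by
  rw [codeD, dig_tab _ e.2, dif_pos e.2]
  intro i hi
  rw [dif_pos hi]
  exact (δ _).2

theorem exists_code {d : ℕ} [NeZero d] (A : CA d) : ∃ s T ini acc : ℕ, 1 ≤ s ∧
    ∀ w v : List Bool, ∀ t : ℕ, dig 2 acc (ccfg (d := d) s T ini (num w) (num v) t 0) = 1 ↔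
      ∃ t' ≤ t, A.config w v t' 0 ∈ A.accept := by
  classical
  have := A.latch.finState
  obtain ⟨N, ⟨eq⟩⟩ := Finite.exists_equiv_fin A.latch.State
  have hN : 0 < N := by
    have h := (eq (A.latch.init none none)).2
    omega
  let s := N
  have hNs : N < 2 ^ s := Nat.lt_two_pow_self
  let enc : A.latch.State → ℕ := fun q => (eq q : ℕ)
  have henc : ∀ q, enc q < 2 ^ s := fun q => lt_trans (eq q).2 hNs
  let dec : ℕ → A.latch.State := fun m => if h : m < N then eq.symm ⟨m, h⟩ else
    A.latch.init none none
  have hdec : ∀ q, dec (enc q) = q := fun q => by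
    have h : enc q < N := (eq q).2
    show (if h : enc q < N then eq.symm ⟨enc q, h⟩ else _) = q
    rw [dif_pos h]
    exact eq.symm_apply_apply q
  let T := tab (2 ^ s) ((2 ^ s) ^ 3 ^ d) fun idx =>
    enc (A.latch.rule fun δ => dec (dig (2 ^ s) idx (codeD δ)))
  let opt : ℕ → Option Bool := fun i => if i = 0 then none else if i = 1 then some false
    else some true
  have hopt : ∀ o, opt (codeO o) = o := by
    intro o
    rcases o with _ | _ | _ <;> rfl
  have hcode : ∀ o, codeO o < 3 := by
    intro o
    rcases o with _ | _ | _ <;> simp [codeO]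
  let ini := tab (2 ^ s) 9 fun i => enc (A.latch.init (opt (i / 3)) (opt (i % 3)))
  let acc := tab 2 (2 ^ s) fun m => if (dec m).2 = true then 1 else 0
  have hacc : ∀ q : A.latch.State, dig 2 acc (enc q) = if q.2 = true then 1 else 0 := by
    intro q
    rw [dig_tab _ (henc q), hdec]
    intro i _
    split_ifs <;> norm_num
  have key : ∀ (w v : List Bool) (t : ℕ) (z : Fin d → ℤ),
      ccfg (d := d) s T ini (num w) (num v) t z = enc (A.latch.config w v t z) := by
    intro w v t
    induction t with
    | zero =>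
      intro z
      have h1 := hcode (cellBit w z)
      have h2 := hcode (cellBit v z)
      rw [ccfg, sy_num, sy_num, dig_tab (fun _ _ => henc _) (by omega)]
      have h3 : (3 * codeO (cellBit w z) + codeO (cellBit v z)) / 3 = codeO (cellBit w z) := by
        omega
      have h4 : (3 * codeO (cellBit w z) + codeO (cellBit v z)) % 3 = codeO (cellBit v z) := by
        omega
      rw [h3, h4, hopt, hopt]
      rfl
    | succ t ih =>
      intro z
      rw [ccfg, dig_tab (fun _ _ => henc _) (tab_lt fun _ _ => ccfg_lt _ _ _ _ _ _ _)]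
      congr 1
      show A.latch.rule _ = A.latch.rule _
      congr 1
      funext δ
      rw [dig_tab (fun _ _ => ccfg_lt _ _ _ _ _ _ _) (codeD_lt δ), ih, hdec]
      congr 1
      funext i
      show z i + ((dig 3 (codeD δ) i : ℤ) - 1) = _
      rw [dig_codeD]
      ring
  refine ⟨s, T, ini, acc, hN, fun w v t => ?_⟩
  rw [key, hacc]
  rw [← (latch_config A w v t 0).2]
  split_ifs with h
  · simp [h]
  · simp [h]

/-! ### The universal function -/

/-- The number of guesses accepted by the automaton with code `e`. -/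
noncomputable def UU (d e x : ℕ) : ℕ :=
  ∑ y ∈ range (2 ^ (qq (Nat.log 2 x) + 1)), lt01 0 y *
    dig 2 (Nat.unpair (Nat.unpair (Nat.unpair e).2).2).2
      (simN d (Nat.unpair e).1 (Nat.unpair (Nat.unpair e).2).1
        (Nat.unpair (Nat.unpair (Nat.unpair e).2).2).1 x y)

theorem LS.UU {α : Type} [Ctx α] {d : ℕ} (hd : d ≠ 0) {e x : α → ℕ} (he : LS e) (hx : LS x) :
    LS (fun a => UU d (e a) (x a)) := by
  unfold LinSpace.UU
  refine LS.sum_le (N := fun a => 2 ^ (LinSpace.qq (Nat.log 2 (x a)) + 1)) (B := fun _ => 1)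
    (f := fun a y => LinSpace.lt01 0 y *
    LinSpace.dig 2 (Nat.unpair (Nat.unpair (Nat.unpair (e a)).2).2).2
      (LinSpace.simN d (Nat.unpair (e a)).1 (Nat.unpair (Nat.unpair (e a)).2).1
        (Nat.unpair (Nat.unpair (Nat.unpair (e a)).2).2).1 (x a) y)) ?_
    (LS.pow_of_le (f := fun _ => 2) (C := fun a => LinSpace.CC d (x a)) (LS.const 2)
      (by fun_prop) (LS.CC hx) (fun a => two_pow_qq_le d (x a))) (LS.const 1) ?_
  · have h1 := LS.simN (α := α × ℕ) hd (s := fun z => (Nat.unpair (e z.1)).1)
      (T := fun z => (Nat.unpair (Nat.unpair (e z.1)).2).1)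
      (ini := fun z => (Nat.unpair (Nat.unpair (Nat.unpair (e z.1)).2).2).1)
      (x := fun z => x z.1) (y := fun z => z.2) (by fun_prop) (by fun_prop) (by fun_prop)
      (by fun_prop) (by fun_prop)
    have h2 : LS (fun z : α × ℕ => (Nat.unpair (Nat.unpair (Nat.unpair (e z.1)).2).2).2) := by
      fun_prop
    exact LS.mul (LS.lt01 (LS.const 0) LS.snd) (LS.dig (LS.const 2) h2 h1)
  · intro a y _
    have h1 : LinSpace.lt01 0 y ≤ 1 := by
      unfold LinSpace.lt01
      split_ifs <;> omega
    have h2 := dig_lt (q := 2) (by norm_num) (Nat.unpair (Nat.unpair (Nat.unpair (e a)).2).2).2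
      (LinSpace.simN d (Nat.unpair (e a)).1 (Nat.unpair (Nat.unpair (e a)).2).1
        (Nat.unpair (Nat.unpair (Nat.unpair (e a)).2).2).1 (x a) y)
    calc _ ≤ 1 * 1 := Nat.mul_le_mul h1 (by omega)
      _ = 1 := rfl

/-- Every cellular automaton has a code. -/
theorem exists_UU {d : ℕ} [NeZero d] (A : CA d) : ∃ e n₀ : ℕ, ∀ w : List Bool, n₀ ≤ w.length →
    (UU d e (num w) ≠ 0 ↔ ∃ v : List Bool, v.length ≤ qq w.length ∧
      ∃ t ≤ qq w.length * bb d w.length, A.config w v t 0 ∈ A.accept) := by
  obtain ⟨s, T, ini, acc, hs, hcode⟩ := exists_code A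
  refine ⟨Nat.pair s (Nat.pair T (Nat.pair ini acc)), 2 ^ s, fun w hw => ?_⟩
  have hll : s ≤ ll (Nat.log 2 (num w)) := by
    rw [log_num]
    unfold ll
    have := Nat.log_mono_right (b := 2) hw
    rw [Nat.log_pow (by norm_num)] at this
    omega
  unfold UU
  simp only [Nat.unpair_pair]
  rw [Ne, sum_eq_zero_iff]
  push Not
  rw [log_num]
  constructor
  · rintro ⟨y, hy, hne⟩
    rw [mem_range] at hy
    have hy0 : 0 < y := by
      by_contra h
      apply hne
      rw [lt01, if_neg h, zero_mul]
    obtain ⟨v, rfl⟩ := exists_num hy0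
    have h1 : dig 2 acc (simN d s T ini (num w) (num v)) = 1 := by
      rcases dig_two acc (simN d s T ini (num w) (num v)) with h | h
      · exact absurd (by rw [h, mul_zero]) hne
      · exact h
    rw [simN_eq hs hll, hcode, log_num] at h1
    refine ⟨v, ?_, h1⟩
    have h2 := Nat.pow_log_le_self 2 (show num v ≠ 0 by omega)
    rw [log_num] at h2
    have h3 := (Nat.pow_lt_pow_iff_right (a := 2) (by norm_num)).1 (lt_of_le_of_lt h2 hy)
    omega
  · rintro ⟨v, hv, h1⟩
    refine ⟨num v, ?_, ?_⟩
    · rw [mem_range]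
      have h2 := Nat.lt_pow_succ_log_self (b := 2) (by norm_num) (num v)
      rw [log_num] at h2
      exact lt_of_lt_of_le h2 (Nat.pow_le_pow_right (by norm_num) (by omega))
    · have h2 : dig 2 acc (simN d s T ini (num w) (num v)) = 1 := by
        rw [simN_eq hs hll, hcode, log_num]
        exact h1
      rw [h2, lt01, if_pos (num_pos v)]
      norm_num

end Pool.Agent.Helper65.LinSpace
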