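import Pool.Agent.Helper65.LinSpace.Bridge
import Pool.Agent.Helper65.LinSpace.Asym
import Pool.Agent.Helper65.LinSpace.Code

/-!
# Fast cellular automata are weaker than linear space
-/

namespace Pool.Agent.Helper65.LinSpace

open Finset Filter Topology

theorem num_injective : Function.Injective num := by
  intro w
  induction w with
  | nil =>
    intro w' h
    cases w' with
    | nil => rfl
    | cons b w' =>
      exfalso
      have h1 := num_pos w'
      have h3 : num (b :: w') = b.toNat + 2 * num w' := rfl
      rw [h3] at h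
      have h4 : num [] = 1 := rfl
      omega
  | cons a w ih =>
    intro w' h
    cases w' with
    | nil =>
      exfalso
      have h1 := num_pos w
      have h3 : num (a :: w) = a.toNat + 2 * num w := rfl
      rw [h3] at h
      have h4 : num [] = 1 := rfl
      omega
    | cons b w' =>
      have h3 : num (b :: w') = b.toNat + 2 * num w' := rfl
      have h4 : num (a :: w) = a.toNat + 2 * num w := rfl
      rw [h3, h4] at h
      have ha := toNat_le_one a
      have hb := toNat_le_one b
      have h5 : num w = num w' := by omega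
      have h6 : a.toNat = b.toNat := by omega
      rw [ih h5]
      congr 1
      cases a <;> cases b <;> simp_all

/-- The number of leading ones of a word, from its number. -/
def lead (x : ℕ) : ℕ := ∑ i ∈ range (Nat.log 2 x), ifz ((x + 1) % 2 ^ (i + 1)) 1 0

theorem LS.lead {α : Type} [Ctx α] {x : α → ℕ} (hx : LS x) : LS (fun a => lead (x a)) := by
  unfold LinSpace.lead
  refine LS.sum_le (N := fun a => Nat.log 2 (x a)) (B := fun _ => 1)
    (f := fun a i => LinSpace.ifz ((x a + 1) % 2 ^ (i + 1)) 1 0) ?_ (by fun_prop) (by fun_prop) ?_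
  · have h : LS (fun z : α × ℕ => (x z.1 + 1) % 2 ^ (z.2 + 1)) :=
      LS.modPow (q := fun _ => 2) (by fun_prop) (by fun_prop) (by fun_prop)
    exact LS.ifz h (by fun_prop) (by fun_prop)
  · intro a i _
    simp only [LinSpace.ifz]
    split_ifs <;> omega

/-- The words used in the diagonal argument. -/
def dw (e m : ℕ) : List Bool := List.replicate e true ++ false :: List.replicate m true

theorem length_dw (e m : ℕ) : (dw e m).length = e + 1 + m := by
  simp only [dw, List.length_append, List.length_replicate, List.length_cons]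
  omega

theorem num_dw (e m : ℕ) : num (dw e m) + 1 = 2 ^ e * (2 * num (List.replicate m true) + 1) := by
  induction e with
  | zero => simp [dw, num]
  | succ e ih =>
    have h1 : dw (e + 1) m = true :: dw e m := by simp [dw, List.replicate_succ]
    have h2 : num (true :: dw e m) = 1 + 2 * num (dw e m) := rfl
    rw [h1, h2, pow_succ]
    have : 1 + 2 * num (dw e m) + 1 = 2 * (num (dw e m) + 1) := by ring
    rw [this, ih]
    ring

theorem lead_dw (e m : ℕ) : lead (num (dw e m)) = e := by
  unfold lead
  refine sum_lt_ind ?_ ?_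
  · rw [log_num, length_dw]
    omega
  · intro i _
    rw [num_dw]
    generalize num (List.replicate m true) = k
    by_cases h : i < e
    · rw [if_pos h]
      have : 2 ^ (i + 1) ∣ 2 ^ e * (2 * k + 1) := Dvd.dvd.mul_right (pow_dvd_pow 2 h) _
      rw [Nat.mod_eq_zero_of_dvd this]
      rfl
    · rw [if_neg h]
      refine ifz_ne (fun h0 => ?_) _ _
      have h1 : 2 ^ (e + 1) ∣ 2 ^ e * (2 * k + 1) :=
        (pow_dvd_pow 2 (show e + 1 ≤ i + 1 by omega)).trans (Nat.dvd_of_mod_eq_zero h0)
      rw [pow_succ] at h1
      have h2 := Nat.dvd_of_mul_dvd_mul_left (by positivity) h1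
      omega

/-- The main theorem. -/
theorem main (d : ℕ) [NeZero d] :
    (∀ (A : CA d) (L : Set (List Bool)) (C ε : ℝ), 0 < ε →
      A.Accepts L (fun n => C * ((n : ℝ) + 1) ^ (1 - ε))
        (fun n => C * ((n : ℝ) + 1) ^ (1 + 1 / (d : ℝ) - ε)) → DLINSPACE L) ∧
    ∃ L : Set (List Bool), DLINSPACE L ∧ ∀ (A : CA d) (C ε : ℝ), 0 < ε →
      ¬ A.Accepts L (fun n => C * ((n : ℝ) + 1) ^ (1 - ε))
        (fun n => C * ((n : ℝ) + 1) ^ (1 + 1 / (d : ℝ) - ε)) := by
  have hd : d ≠ 0 := NeZero.ne d
  constructor
  · classical
    intro A L C ε hε hA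
    obtain ⟨e, n₀, he⟩ := exists_UU A
    obtain ⟨n₁, hn₁⟩ := eventually_atTop.1 (asym hd hε C)
    obtain ⟨N, hN0, hN1⟩ : ∃ N, n₀ ≤ N ∧ n₁ ≤ N := ⟨max n₀ n₁, le_max_left _ _, le_max_right _ _⟩
    let B : ℕ := tab 2 (2 ^ (N + 1)) fun x => if ∃ w ∈ L, num w = x then 1 else 0
    refine LS.dlinspace (F := fun x => ifz (le01 N (Nat.log 2 x)) (dig 2 B x) (UU d e x)) ?_ L ?_
    · exact LS.ifz (by fun_prop) (by fun_prop) (LS.UU hd (LS.const e) LS.id)
    · intro w
      by_cases h : N ≤ w.length
      · have h1 : le01 N (Nat.log 2 (num w)) = 1 := by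
          rw [log_num, le01, if_pos h]
        simp only [h1]
        rw [ifz_ne one_ne_zero, he w (by omega)]
        constructor
        · intro hw
          obtain ⟨y, t, hy, ht, hacc⟩ := hA.2 w hw
          obtain ⟨h2, h3⟩ := hn₁ w.length (by omega)
          refine ⟨y, ?_, t, ?_, hacc⟩
          · exact_mod_cast hy.trans h2
          · exact_mod_cast ht.trans h3
        · rintro ⟨v, _, t, _, hacc⟩
          exact hA.1 w v t hacc
      · have h1 : le01 N (Nat.log 2 (num w)) = 0 := by
          rw [log_num, le01, if_neg h]
        simp only [h1]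
        rw [ifz_zero]
        have h2 : num w < 2 ^ (N + 1) := by
          have h3 := Nat.lt_pow_succ_log_self (b := 2) (by norm_num) (num w)
          rw [log_num] at h3
          exact lt_of_lt_of_le h3 (Nat.pow_le_pow_right (by norm_num) (by omega))
        have h3 : dig 2 B (num w) = if ∃ w' ∈ L, num w' = num w then 1 else 0 := by
          refine dig_tab ?_ h2
          intro i _
          split_ifs <;> norm_num
        rw [h3]
        constructor
        · intro hw
          rw [if_pos ⟨w, hw, rfl⟩]
          exact one_ne_zero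
        · intro h4
          by_contra hw
          apply h4
          rw [if_neg]
          rintro ⟨w', hw', h5⟩
          rw [num_injective h5] at hw'
          exact hw hw'
  · refine ⟨{w | UU d (lead (num w)) (num w) = 0}, ?_, ?_⟩
    · refine LS.dlinspace (F := fun x => ifz (UU d (lead x) x) 1 0) ?_ _ ?_
      · exact LS.ifz (LS.UU hd (LS.lead LS.id) LS.id) (LS.const 1) (LS.const 0)
      · intro w
        simp only [Set.mem_ofPred_eq]
        constructor
        · intro h
          rw [h]
          exact one_ne_zero
        · intro h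
          by_contra h2
          exact h (ifz_ne h2 _ _)
    · intro A C ε hε hA
      obtain ⟨e, n₀, he⟩ := exists_UU A
      obtain ⟨n₁, hn₁⟩ := eventually_atTop.1 (asym hd hε C)
      set w := dw e (n₀ + n₁) with hw
      have hlen : w.length = e + 1 + (n₀ + n₁) := length_dw _ _
      have hlead : lead (num w) = e := lead_dw _ _
      have h1 := he w (by omega)
      by_cases h : UU d e (num w) = 0
      · have hmem : w ∈ {w : List Bool | UU d (lead (num w)) (num w) = 0} := by
          show UU d (lead (num w)) (num w) = 0
          rw [hlead]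
          exact h
        obtain ⟨y, t, hy, ht, hacc⟩ := hA.2 w hmem
        obtain ⟨h2, h3⟩ := hn₁ w.length (by omega)
        refine (h1.2 ⟨y, ?_, t, ?_, hacc⟩) h
        · exact_mod_cast hy.trans h2
        · exact_mod_cast ht.trans h3
      · obtain ⟨v, _, t, _, hacc⟩ := h1.1 h
        have h4 := hA.1 w v t hacc
        apply h
        have h5 : UU d (lead (num w)) (num w) = 0 := h4
        rwa [hlead] at h5

end Pool.Agent.Helper65.LinSpace
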