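import Pool.Agent.Helper65.LinSpace.TreeLS

/-!
# Blocks of cells
-/

namespace Pool.Agent.Helper65.LinSpace

open Finset

/-! ### More on digits -/

theorem dig_pow_base {q : ℕ} (hq : 0 < q) (m R i : ℕ) :
    dig (q ^ m) R i = tab q m (fun c => dig q R (i * m + c)) := by
  have h : dig (q ^ m) R i = (R / (q ^ m) ^ i) % q ^ m := rfl
  rw [h, ← tab_dig_mod hq]
  refine tab_congr fun c _ => ?_
  unfold dig
  rw [Nat.div_div_eq_div_mul, ← pow_mul, ← pow_add, mul_comm m i]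

theorem dig_tab_block {q m D : ℕ} {v : ℕ → ℕ} (hq : 0 < q) (hv : ∀ i < D, v i < q ^ m) {i c : ℕ}
    (hi : i < D) (hc : c < m) : dig q (tab (q ^ m) D v) (i * m + c) = dig q (v i) c := by
  have h1 := dig_pow_base hq m (tab (q ^ m) D v) i
  rw [dig_tab hv hi] at h1
  rw [h1, dig_tab (fun c _ => dig_lt hq _ _) hc]

theorem tab_div {q m : ℕ} {d : ℕ → ℕ} {c : ℕ} (hc : c < q ^ m) (x : ℕ) :
    (x * q ^ m + c) / q ^ m = x ∧ (x * q ^ m + c) % q ^ m = c :=
  ⟨div_eq_block hc, mod_eq_block hc⟩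

section

variable (d b s T : ℕ)

/-- The shift of coordinates coded by `δ`. -/
def off (δ : ℕ) : Fin d → ℤ := fun e => (dig 3 δ e : ℤ) - 1

/-- The coordinates of a cell of the cube of side `3 b`. -/
def yc (idx e : ℕ) : ℕ := dig 3 (idx / b ^ d) e * b + dig b (idx % b ^ d) e

/-- The index of a neighbour. -/
def nbN (idx δ : ℕ) : ℕ :=
  tab 3 d (fun e => (yc d b idx e + dig 3 δ e - 1) / b % 3) * b ^ d +
    tab b d (fun e => (yc d b idx e + dig 3 δ e - 1) % b)

/-- One step of the automaton on the cube of side `3 b`. -/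
def stepF (a : ℕ) : ℕ :=
  tab (2 ^ s) (3 ^ d * b ^ d) fun idx =>
    dig (2 ^ s) T (tab (2 ^ s) (3 ^ d) fun δ => dig (2 ^ s) a (nbN d b idx δ))

/-- The content of the central block after `b` steps. -/
def FN (a : ℕ) : ℕ :=
  dig (2 ^ (b ^ d * s)) (nrec a (fun _ r => stepF d b s T r) b) (tab 3 d fun _ => 1)

variable {d b s T}

theorem yc_nbN (hb : 0 < b) {idx δ : ℕ} {e : ℕ} (he : e < d)
    (h2 : yc d b idx e + dig 3 δ e - 1 < 3 * b) :
    yc d b (nbN d b idx δ) e = yc d b idx e + dig 3 δ e - 1 := by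
  have h3 : tab b d (fun e => (yc d b idx e + dig 3 δ e - 1) % b) < b ^ d :=
    tab_lt fun e _ => Nat.mod_lt _ hb
  have h4 : yc d b (nbN d b idx δ) e =
    dig 3 (nbN d b idx δ / b ^ d) e * b + dig b (nbN d b idx δ % b ^ d) e := rfl
  rw [h4, nbN, div_eq_block h3, mod_eq_block h3, dig_tab (fun e _ => Nat.mod_lt _ (by norm_num)) he,
    dig_tab (fun e _ => Nat.mod_lt _ hb) he]
  have h5 : (yc d b idx e + dig 3 δ e - 1) / b < 3 := (Nat.div_lt_iff_lt_mul hb).2 h2
  rw [Nat.mod_eq_of_lt h5, mul_comm, Nat.div_add_mod]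

theorem nbN_lt (hb : 0 < b) (idx δ : ℕ) : nbN d b idx δ < 3 ^ d * b ^ d := by
  have h3 : tab b d (fun e => (yc d b idx e + dig 3 δ e - 1) % b) < b ^ d :=
    tab_lt fun e _ => Nat.mod_lt _ hb
  have h4 : tab 3 d (fun e => (yc d b idx e + dig 3 δ e - 1) / b % 3) < 3 ^ d :=
    tab_lt fun e _ => Nat.mod_lt _ (by norm_num)
  have h5 := Nat.mul_le_mul_right (b ^ d) (Nat.succ_le_of_lt h4)
  rw [Nat.succ_mul] at h5
  unfold nbN
  omega

/-- The position of a cell of the cube around the block `k`. -/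
def posN (d b : ℕ) (k : Fin d → ℤ) (idx : ℕ) : Fin d → ℤ := fun e =>
  (k e - 1) * b + (yc d b idx e : ℤ)

variable {cfg : ℕ → (Fin d → ℤ) → ℕ}

/-- The content of the block `k` at time `t`. -/
def bv (d b s : ℕ) (cfg : ℕ → (Fin d → ℤ) → ℕ) (t : ℕ) (k : Fin d → ℤ) : ℕ :=
  tab (2 ^ s) (b ^ d) fun c => cfg t fun e => k e * b + (dig b c e : ℤ)

theorem bv_lt (hlt : ∀ t z, cfg t z < 2 ^ s) (t : ℕ) (k : Fin d → ℤ) :
    bv d b s cfg t k < (2 ^ s) ^ (b ^ d) := tab_lt fun _ _ => hlt _ _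

theorem cube_step (hb : 0 < b)
    (hcfg : ∀ t z, cfg (t + 1) z = dig (2 ^ s) T (tab (2 ^ s) (3 ^ d) fun δ => cfg t (z + off d δ)))
    (t : ℕ) (k : Fin d → ℤ) (a : ℕ)
    (ha : ∀ idx < 3 ^ d * b ^ d, dig (2 ^ s) a idx = cfg t (posN d b k idx)) :
    ∀ τ ≤ b, ∀ idx < 3 ^ d * b ^ d, (∀ e < d, τ ≤ yc d b idx e ∧ yc d b idx e + τ < 3 * b) →
      dig (2 ^ s) (nrec a (fun _ r => stepF d b s T r) τ) idx = cfg (t + τ) (posN d b k idx)
  | 0, _, idx, hi, _ => ha idx hi
  | τ + 1, hτ, idx, hi, hy => by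
    have hq : 0 < 2 ^ s := by positivity
    rw [nrec_succ, stepF, dig_tab (fun _ _ => dig_lt hq _ _) hi, ← add_assoc, hcfg]
    congr 1
    refine tab_congr fun δ _ => ?_
    have hd : ∀ e, dig 3 δ e ≤ 2 := fun e => by
      have := dig_lt (q := 3) (by norm_num) δ e
      omega
    have hyc : ∀ e < d, yc d b (nbN d b idx δ) e = yc d b idx e + dig 3 δ e - 1 := by
      intro e he
      have h1 := hy e he
      have h2 := hd e
      exact yc_nbN hb he (by omega)
    rw [cube_step hb hcfg t k a ha τ (by omega) _ (nbN_lt hb _ _) ?_]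
    · congr 1
      funext e
      have h1 := hy e e.2
      have h2 := hd e
      show (k e - 1) * b + ((yc d b (nbN d b idx δ) e : ℕ) : ℤ) = (k e - 1) * b +
        (yc d b idx e : ℤ) + ((dig 3 δ e : ℤ) - 1)
      rw [hyc e e.2]
      have h3 : ((yc d b idx e + dig 3 δ e - 1 : ℕ) : ℤ) = (yc d b idx e : ℤ) + dig 3 δ e - 1 := by
        omega
      rw [h3]
      ring
    · intro e he
      have h1 := hy e he
      have h2 := hd e
      rw [hyc e he]
      omega

/-- **A block of space-time is a function of three (or `3^d`) blocks.** -/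
theorem FN_eq (hb : 0 < b)
    (hcfg : ∀ t z, cfg (t + 1) z = dig (2 ^ s) T (tab (2 ^ s) (3 ^ d) fun δ => cfg t (z + off d δ)))
    (hlt : ∀ t z, cfg t z < 2 ^ s) (t : ℕ) (k : Fin d → ℤ) :
    FN d b s T (tab (2 ^ (b ^ d * s)) (3 ^ d) fun i => bv d b s cfg t (k + off d i)) =
      bv d b s cfg (t + b) k := by
  have hq : 0 < 2 ^ s := by positivity
  have hL : 2 ^ (b ^ d * s) = (2 ^ s) ^ (b ^ d) := by rw [← pow_mul, mul_comm]
  have hbd : 0 < b ^ d := by positivity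
  rw [hL, FN, hL]
  have ha : ∀ idx < 3 ^ d * b ^ d, dig (2 ^ s) (tab ((2 ^ s) ^ (b ^ d)) (3 ^ d) fun i =>
      bv d b s cfg t (k + off d i)) idx = cfg t (posN d b k idx) := by
    intro idx hidx
    have h1 : idx / b ^ d < 3 ^ d := (Nat.div_lt_iff_lt_mul hbd).2 hidx
    have h2 : idx % b ^ d < b ^ d := Nat.mod_lt _ hbd
    have h3 := dig_tab_block (q := 2 ^ s) (m := b ^ d) (D := 3 ^ d)
      (v := fun i => bv d b s cfg t (k + off d i)) hq (fun i _ => bv_lt hlt _ _) h1 h2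
    rw [Nat.div_add_mod'] at h3
    rw [h3, bv, dig_tab (fun _ _ => hlt _ _) h2]
    congr 1
    funext e
    show (k e + ((dig 3 (idx / b ^ d) e : ℤ) - 1)) * b + (dig b (idx % b ^ d) e : ℤ) =
      (k e - 1) * b + ((dig 3 (idx / b ^ d) e * b + dig b (idx % b ^ d) e : ℕ) : ℤ)
    push_cast
    ring
  have h1 := cube_step hb hcfg t k _ ha b le_rfl
  rw [dig_pow_base hq, bv]
  refine tab_congr fun c hc => ?_
  have hctr : tab 3 d (fun _ => 1) < 3 ^ d := tab_lt fun _ _ => by norm_num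
  have hidx : tab 3 d (fun _ => 1) * b ^ d + c < 3 ^ d * b ^ d := by
    have := Nat.mul_le_mul_right (b ^ d) (Nat.succ_le_of_lt hctr)
    rw [Nat.succ_mul] at this
    omega
  have hyc : ∀ e < d, yc d b (tab 3 d (fun _ => 1) * b ^ d + c) e = b + dig b c e := by
    intro e he
    rw [yc, div_eq_block hc, mod_eq_block hc, dig_tab (fun _ _ => by norm_num) he, one_mul]
  rw [h1 _ hidx]
  · congr 1
    funext e
    show (k e - 1) * b + ((yc d b (tab 3 d (fun _ => 1) * b ^ d + c) e : ℕ) : ℤ) = _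
    rw [hyc e e.2]
    push_cast
    ring
  · intro e he
    rw [hyc e he]
    have := dig_lt hb c e
    omega

end

end Pool.Agent.Helper65.LinSpace
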