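import Pool.Agent.Helper65.LinSpace.Typed
import Pool.Agent.Helper6.LinSpace.Compile
import Pool.Agent.Helper9.LinSpace.Compile

/-!
# Linear-space functions give languages in linear space
-/

namespace Pool.Agent.Helper65.LinSpace

theorem LS.dlinspace {F : ℕ → ℕ} (hF : LS F) (L : Set (List Bool))
    (hL : ∀ w, w ∈ L ↔ F (num w) ≠ 0) : DLINSPACE L := by
  obtain ⟨F', hF', h⟩ := LS.nat_iff.1 hF
  obtain ⟨c, hc⟩ := Pool.Agent.Helper9.LinSpace.E2.prog hF'
  obtain ⟨P, hP⟩ := hc (fun i => min i 1) 2 (fun i => by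
    show min i 1 < 2
    omega)
  refine dlinspace_of_prog P 2 c L fun w => ⟨_, hP (cons (num w) fun _ => 0) _ (num w) ?_ ?_ le_rfl,
    ?_⟩
  · intro i hi
    obtain ⟨j, rfl⟩ : ∃ j, i = j + 1 := ⟨i - 1, by omega⟩
    rfl
  · intro i
    rcases i with _ | i
    · exact le_rfl
    · have : min (i + 1) 1 = 1 := by omega
      simp [cons]
  · rw [Function.update_self]
    have : (fun i => cons (num w) (fun _ => 0) (min i 1)) = Ctx.enc (num w) := by
      funext i
      rcases i with _ | i
      · rfl
      · have : min (i + 1) 1 = 1 := by omega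
        simp only [this]
        rfl
    rw [this, h]
    exact hL w

end Pool.Agent.Helper65.LinSpace
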