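import Pool.Agent.Helper65.LinSpace.CM2

/-!
# Tree evaluation on numbers
-/

namespace Pool.Agent.Helper65.LinSpace

open Finset

/-- The kind of the operation at level `m` (counted from the root) of the moment `τ`. -/
def subD (M D h τ m : ℕ) : ℕ := τ / M ^ (h - 1 - m) % M % (2 * D + 3)

/-- `1` if the operation is a recursive call. -/
def isC (D s : ℕ) : ℕ := ifz (le01 1 s * le01 s D + le01 (D + 2) s * le01 s (2 * D + 1)) 0 1

/-- The index of the child of a recursive call. -/
def kidx (D s : ℕ) : ℕ := ifz (le01 s D) (s - (D + 2)) (s - 1)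

/-- The node reached at level `m`. -/
def nodeN (M D h root : ℕ) (ch : ℕ → ℕ → ℕ) (τ m : ℕ) : ℕ :=
  nrec root (fun i u => ch u (kidx D (subD M D h τ i))) m

/-- The target block at level `m`. -/
def blkN (M D h τ m : ℕ) : ℕ :=
  nrec 0 (fun i t => (t + (kidx D (subD M D h τ i) + 1)) % (D + 1)) m

/-- The sign at level `m`, `1` for plus and `0` for minus. -/
def sgnN (M D h τ m : ℕ) : ℕ := ifz m 1 (le01 (subD M D h τ (m - 1)) D)

/-- The number of levels of recursive calls. -/
def stopN (M D h τ : ℕ) : ℕ :=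
  nrec 0 (fun i r => ifz (eq01 r i * isC D (subD M D h τ i)) r (i + 1)) h

/-- The extension of `F` on numbers. -/
def fhN (p D L : ℕ) (F : ℕ → ℕ) (R t q : ℕ) : ℕ :=
  (∑ a ∈ range (2 ^ (D * L)), dig 2 (F a) q * ((∏ m ∈ range (D * L),
    ifz (dig 2 a m) (p + 1 - dig p R (((t + 1 + m / L) % (D + 1)) * L + m % L))
      (dig p R (((t + 1 + m / L) % (D + 1)) * L + m % L))) % p)) % p

/-- The inverse modulo `p`. -/
def invN (p c : ℕ) : ℕ := (∏ _i ∈ range (p - 2), c) % p

/-- The new value of the `i`-th digit at the moment `τ`. -/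
def ndN (p D L h root : ℕ) (F leaf : ℕ → ℕ) (ch : ℕ → ℕ → ℕ) (τ R i : ℕ) : ℕ :=
  ifz (h - stopN (MM p D) D h τ)
    (ifz (eq01 (i / L) (blkN (MM p D) D h τ h)) (dig p R i)
      ((dig p R i + ifz (sgnN (MM p D) D h τ h) (p - 1) 1 *
        dig 2 (leaf (nodeN (MM p D) D h root ch τ h)) (i % L)) % p))
    (ifz (τ % MM p D ^ (h - 1 - stopN (MM p D) D h τ))
      (ifz (subD (MM p D) D h τ (stopN (MM p D) D h τ))
        (ifz (eq01 (i / L) (blkN (MM p D) D h τ (stopN (MM p D) D h τ)))
          (((τ / MM p D ^ (h - 1 - stopN (MM p D) D h τ) % MM p D / (2 * D + 3) + 1) *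
            dig p R i) % p)
          (dig p R i))
        (ifz (eq01 (subD (MM p D) D h τ (stopN (MM p D) D h τ)) (D + 1))
          (ifz (eq01 (i / L) (blkN (MM p D) D h τ (stopN (MM p D) D h τ)))
            ((invN p (τ / MM p D ^ (h - 1 - stopN (MM p D) D h τ) % MM p D / (2 * D + 3) + 1) *
              dig p R i) % p)
            (dig p R i))
          (ifz (eq01 (i / L) (blkN (MM p D) D h τ (stopN (MM p D) D h τ)))
            (dig p R i)
            ((dig p R i + ifz (sgnN (MM p D) D h τ (stopN (MM p D) D h τ)) 1 (p - 1) *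
              fhN p D L F R (blkN (MM p D) D h τ (stopN (MM p D) D h τ)) (i % L)) % p))))
      (dig p R i))

/-- One step of the evaluation. -/
def stepN (p D L h root : ℕ) (F leaf : ℕ → ℕ) (ch : ℕ → ℕ → ℕ) (τ R : ℕ) : ℕ :=
  tab p ((D + 1) * L) (ndN p D L h root F leaf ch τ R)

/-- The value of the root. -/
def evalN (p D L h root : ℕ) (F leaf : ℕ → ℕ) (ch : ℕ → ℕ → ℕ) : ℕ :=
  tab 2 L (fun q => dig p (nrec 0 (stepN p D L h root F leaf ch) (MM p D ^ h)) q % 2)

/-! ### Correctness -/

theorem isC_iff (D s : ℕ) : isC D s = 1 ↔ (1 ≤ s ∧ s ≤ D) ∨ (D + 2 ≤ s ∧ s ≤ 2 * D + 1) := by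
  simp only [isC, ifz, le01]
  split_ifs <;> first | omega | simp_all

theorem isC_zero (D s : ℕ) : isC D s = 0 ∨ isC D s = 1 := by
  simp only [isC, ifz]
  split_ifs <;> simp

theorem stopN_aux (M D h τ n : ℕ) :
    nrec 0 (fun i r => ifz (eq01 r i * isC D (subD M D h τ i)) r (i + 1)) n ≤ n ∧
    (∀ m < nrec 0 (fun i r => ifz (eq01 r i * isC D (subD M D h τ i)) r (i + 1)) n,
      isC D (subD M D h τ m) = 1) ∧
    (nrec 0 (fun i r => ifz (eq01 r i * isC D (subD M D h τ i)) r (i + 1)) n < n →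
      isC D (subD M D h τ (nrec 0 (fun i r => ifz (eq01 r i * isC D (subD M D h τ i)) r (i + 1))
        n)) = 0) := by
  induction n with
  | zero => exact ⟨le_rfl, fun m hm => absurd hm (Nat.not_lt_zero m), fun h => absurd h (by simp)⟩
  | succ n ih =>
    rw [nrec_succ]
    generalize nrec 0 (fun i r => ifz (eq01 r i * isC D (subD M D h τ i)) r (i + 1)) n = r at *
    obtain ⟨h1, h2, h3⟩ := ih
    by_cases hr : r = n
    · subst hr
      rcases isC_zero D (subD M D h τ r) with h4 | h4
      · simp only [h4, mul_zero, ifz, if_true]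
        exact ⟨by omega, h2, fun _ => trivial⟩
      · have h5 : ifz (eq01 r r * isC D (subD M D h τ r)) r (r + 1) = r + 1 := by
          simp [ifz, eq01, h4]
        rw [h5]
        refine ⟨le_rfl, fun m hm => ?_, fun h => absurd h (by omega)⟩
        rcases Nat.lt_succ_iff_lt_or_eq.1 hm with h | h
        · exact h2 m h
        · rwa [h]
    · have h5 : ifz (eq01 r n * isC D (subD M D h τ n)) r (n + 1) = r := by
        simp [ifz, eq01, hr]
      rw [h5]
      exact ⟨by omega, h2, fun _ => h3 (by omega)⟩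

theorem stopN_le (M D h τ : ℕ) : stopN M D h τ ≤ h := (stopN_aux M D h τ h).1

theorem stopN_lt {M D h τ m : ℕ} (hm : m < stopN M D h τ) : isC D (subD M D h τ m) = 1 :=
  (stopN_aux M D h τ h).2.1 m hm

theorem stopN_stop {M D h τ : ℕ} (hs : stopN M D h τ < h) :
    isC D (subD M D h τ (stopN M D h τ)) = 0 := (stopN_aux M D h τ h).2.2 hs

theorem blkN_le (M D h τ m : ℕ) : blkN M D h τ m ≤ D := by
  cases m with
  | zero => exact Nat.zero_le _
  | succ m => exact Nat.lt_succ_iff.1 (Nat.mod_lt _ (Nat.succ_pos D))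

section

variable {p D L : ℕ} {F leaf : ℕ → ℕ} {ch : ℕ → ℕ → ℕ}

/-- The sign as an element of the field. -/
def sgZ (p s : ℕ) : ZMod p := if s = 0 then -1 else 1

theorem exec_path (h root τ : ℕ) (r : ℕ → ZMod p) (hτ : τ < MM p D ^ h) :
    ∀ m ≤ stopN (MM p D) D h τ, exec p D L F leaf ch h root 0 1 τ r =
      exec p D L F leaf ch (h - m) (nodeN (MM p D) D h root ch τ m) (blkN (MM p D) D h τ m)
        (sgZ p (sgnN (MM p D) D h τ m)) (τ % MM p D ^ (h - m)) r
  | 0, _ => by
    rw [Nat.sub_zero, Nat.mod_eq_of_lt hτ]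
    rfl
  | m + 1, hm => by
    rw [exec_path h root τ r hτ m (by omega)]
    have hle := stopN_le (MM p D) D h τ
    obtain ⟨j, hj⟩ : ∃ j, h - m = j + 1 := ⟨h - m - 1, by omega⟩
    have hj' : h - (m + 1) = j := by omega
    have hj'' : h - 1 - m = j := by omega
    rw [hj, hj']
    have hC := stopN_lt (show m < stopN (MM p D) D h τ by omega)
    rw [isC_iff] at hC
    have hd : τ % MM p D ^ (j + 1) / MM p D ^ j % (2 * D + 3) = subD (MM p D) D h τ m := by
      rw [subD, hj'', pow_succ, Nat.mod_mul_right_div_self]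
    have hmod : τ % MM p D ^ (j + 1) % MM p D ^ j = τ % MM p D ^ j := by
      rw [pow_succ, Nat.mod_mul_right_mod]
    have hnode : nodeN (MM p D) D h root ch τ (m + 1) =
      ch (nodeN (MM p D) D h root ch τ m) (kidx D (subD (MM p D) D h τ m)) := rfl
    have hblk : blkN (MM p D) D h τ (m + 1) =
      (blkN (MM p D) D h τ m + (kidx D (subD (MM p D) D h τ m) + 1)) % (D + 1) := rfl
    have hsgn : sgnN (MM p D) D h τ (m + 1) = le01 (subD (MM p D) D h τ m) D := rfl
    rw [exec, hd, hmod, hnode, hblk, hsgn]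
    generalize subD (MM p D) D h τ m = s at *
    by_cases h1 : 1 ≤ s ∧ s ≤ D
    · have h2 : kidx D s = s - 1 := by simp [kidx, ifz, le01, h1.2]
      have h3 : sgZ p (le01 s D) = 1 := by simp [sgZ, le01, h1.2]
      rw [if_pos h1, h2, h3]
      have h4 : s - 1 + 1 = s := by omega
      rw [h4]
    · have h5 : D + 2 ≤ s ∧ s ≤ 2 * D + 1 := by omega
      have h6 : ¬ s ≤ D := by omega
      have h2 : kidx D s = s - (D + 2) := by simp [kidx, ifz, le01, h6]
      have h3 : sgZ p (le01 s D) = -1 := by simp [sgZ, le01, h6]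
      rw [if_neg h1, if_pos h5, h2, h3]
      have h4 : s - (D + 2) + 1 = s - (D + 1) := by omega
      rw [h4]

theorem ifz_zero (x y : ℕ) : ifz 0 x y = x := rfl

theorem ifz_ne {c : ℕ} (h : c ≠ 0) (x y : ℕ) : ifz c x y = y := if_neg h

theorem eq01_of {x y : ℕ} (h : x = y) : eq01 x y = 1 := if_pos h

theorem eq01_ne {x y : ℕ} (h : x ≠ y) : eq01 x y = 0 := if_neg h

theorem ifz_eq01 (x y a b : ℕ) : ifz (eq01 x y) a b = if x = y then b else a := by
  by_cases h : x = y
  · rw [eq01_of h, if_pos h]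
    rfl
  · rw [eq01_ne h, if_neg h]
    rfl

theorem ndN_lt (hp : 0 < p) (h root τ R i : ℕ) : ndN p D L h root F leaf ch τ R i < p := by
  have h1 : ∀ x, x % p < p := fun x => Nat.mod_lt _ hp
  have h2 : ∀ j, dig p R j < p := fun j => dig_lt hp R j
  unfold ndN
  simp only [ifz_eq01]
  simp only [ifz]
  split_ifs <;> exact h1 _

variable [hpr : Fact p.Prime]

theorem invN_cast (h2 : 2 < p) (c : ℕ) : (invN p c : ZMod p) = (c : ZMod p)⁻¹ := by
  rw [invN, ZMod.natCast_mod, prod_const, card_range, Nat.cast_pow]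
  by_cases hc : (c : ZMod p) = 0
  · rw [hc, inv_zero, zero_pow (by omega)]
  · refine eq_inv_of_mul_eq_one_left ?_
    rw [← pow_succ]
    have : p - 2 + 1 = p - 1 := by omega
    rw [this]
    exact ZMod.pow_card_sub_one_eq_one hc

theorem args_lt {t m : ℕ} (hm : m < D * L) :
    ((t + 1 + m / L) % (D + 1)) * L + m % L < (D + 1) * L := by
  have hL : 0 < L := by
    rcases Nat.eq_zero_or_pos L with h | h
    · subst h
      simp at hm
    · exact h
  have h1 := Nat.mod_lt (t + 1 + m / L) (Nat.succ_pos D)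
  have h2 := Nat.mod_lt m hL
  have h3 : ((t + 1 + m / L) % (D + 1) + 1) * L ≤ (D + 1) * L := Nat.mul_le_mul_right L h1
  rw [add_mul, one_mul] at h3
  omega

theorem fhN_cast {R : ℕ} {r : ℕ → ZMod p}
    (hR : ∀ i < (D + 1) * L, ((dig p R i : ℕ) : ZMod p) = r i) (t q : ℕ) :
    (fhN p D L F R t q : ZMod p) = fhat p (D * L) F q (args p D L t r) := by
  rw [fhN, ZMod.natCast_mod, Nat.cast_sum]
  refine sum_congr rfl fun a _ => ?_
  rw [Nat.cast_mul, ZMod.natCast_mod, Nat.cast_prod]
  congr 1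
  refine prod_congr rfl fun m hm => ?_
  have h1 := hR _ (args_lt (t := t) (mem_range.1 hm))
  have h2 : dig p R (((t + 1 + m / L) % (D + 1)) * L + m % L) < p := dig_lt hpr.out.pos _ _
  unfold args
  rw [← h1]
  rcases dig_two a m with h | h
  · rw [h, ifz_zero, if_neg (by omega), Nat.cast_sub (by omega)]
    simp
  · rw [h, ifz_ne (by omega), if_pos rfl]

theorem step_cast (h2p : 2 < p) {h root τ R : ℕ} {r : ℕ → ZMod p} (hτ : τ < MM p D ^ h)
    (hR : ∀ i < (D + 1) * L, ((dig p R i : ℕ) : ZMod p) = r i) :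
    ∀ i < (D + 1) * L, ((dig p (stepN p D L h root F leaf ch τ R) i : ℕ) : ZMod p) =
      exec p D L F leaf ch h root 0 1 τ r i := by
  intro i hi
  have hpos := hpr.out.pos
  rw [stepN, dig_tab (fun i _ => ndN_lt hpos _ _ _ _ _) hi,
    exec_path h root τ r hτ _ le_rfl]
  have hp1 : ((p - 1 : ℕ) : ZMod p) = -1 := by
    rw [Nat.cast_sub hpos]
    simp
  have hle := stopN_le (MM p D) D h τ
  by_cases hs : stopN (MM p D) D h τ = h
  · rw [hs, Nat.sub_self, ndN, hs, Nat.sub_self, ifz_zero, exec, addB]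
    rw [ifz_eq01]
    split_ifs with h1
    · rw [ZMod.natCast_mod]
      push_cast
      rw [hR i hi]
      congr 1
      rw [bitZ]
      congr 1
      unfold sgZ
      by_cases h3 : sgnN (MM p D) D h τ h = 0
      · rw [h3, ifz_zero, if_pos rfl, hp1]
      · rw [ifz_ne h3, if_neg h3]
        simp
    · exact hR i hi
  · have hC := stopN_stop (show stopN (MM p D) D h τ < h by omega)
    rw [ndN]
    generalize stopN (MM p D) D h τ = m at *
    obtain ⟨j, hj⟩ : ∃ j, h - m = j + 1 := ⟨h - m - 1, by omega⟩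
    have hj'' : h - 1 - m = j := by omega
    have hd : τ % MM p D ^ (j + 1) / MM p D ^ j = τ / MM p D ^ j % MM p D := by
      rw [pow_succ, Nat.mod_mul_right_div_self]
    have hmod : τ % MM p D ^ (j + 1) % MM p D ^ j = τ % MM p D ^ j := by
      rw [pow_succ, Nat.mod_mul_right_mod]
    have hsub : τ / MM p D ^ j % MM p D % (2 * D + 3) = subD (MM p D) D h τ m := by
      rw [subD, hj'']
    rw [hj, exec, hd, hmod, hsub, hj'', ifz_ne (Nat.succ_ne_zero j)]
    have hslt : subD (MM p D) D h τ m < 2 * D + 3 := Nat.mod_lt _ (by omega)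
    generalize subD (MM p D) D h τ m = s at *
    have h1 : ¬ (1 ≤ s ∧ s ≤ D) := fun h => by
      have := (isC_iff D s).2 (Or.inl h)
      omega
    have h2 : ¬ (D + 2 ≤ s ∧ s ≤ 2 * D + 1) := fun h => by
      have := (isC_iff D s).2 (Or.inr h)
      omega
    rw [if_neg h1, if_neg h2]
    by_cases h3 : τ % MM p D ^ j = 0
    · rw [if_pos h3, h3, ifz_zero]
      by_cases h4 : s = 0
      · rw [if_pos h4, h4, ifz_zero, ifz_eq01, opScale]
        split_ifs with h5
        · exact hR i hi
        · rw [ZMod.natCast_mod, Nat.cast_mul, hR i hi]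
      · rw [if_neg h4, ifz_ne h4, ifz_eq01]
        by_cases h5 : s = D + 1
        · rw [if_pos h5, if_pos h5, ifz_eq01, opF]
          split_ifs with h6
          · rw [ZMod.natCast_mod, Nat.cast_add, Nat.cast_mul, hR i hi, fhN_cast hR, sub_eq_add_neg,
              ← neg_mul]
            congr 2
            unfold sgZ
            by_cases h7 : sgnN (MM p D) D h τ m = 0
            · rw [h7, ifz_zero, if_pos rfl]
              simp
            · rw [ifz_ne h7, if_neg h7, hp1]
          · exact hR i hi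
        · rw [if_neg h5, if_neg h5, ifz_eq01, opScale]
          split_ifs with h6
          · exact hR i hi
          · rw [ZMod.natCast_mod, Nat.cast_mul, hR i hi, invN_cast h2p]
    · rw [if_neg h3, ifz_ne h3]
      exact hR i hi

theorem iter_cast (h2p : 2 < p) (h root : ℕ) : ∀ n ≤ MM p D ^ h, ∀ i < (D + 1) * L,
    ((dig p (nrec 0 (stepN p D L h root F leaf ch) n) i : ℕ) : ZMod p) =
      iter (fun τ r => exec p D L F leaf ch h root 0 1 τ r) n (fun _ => 0) i
  | 0, _ => fun i _ => by
    rw [nrec_zero]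
    simp [dig, iter]
  | n + 1, hn => fun i hi => by
    rw [nrec_succ]
    exact step_cast h2p (by omega) (iter_cast h2p h root n (by omega)) i hi

/-- **The numeric evaluation computes the value of the root.** -/
theorem evalN_eq (h2p : 2 < p) (hp : D * L < p - 1) (hF : ∀ a, F a < 2 ^ L)
    (hleaf : ∀ u, leaf u < 2 ^ L) (h root : ℕ) :
    evalN p D L h root F leaf ch = tval D L F leaf ch h root := by
  rw [evalN, ← tab_dig (tval D L F leaf ch h root) L (tval_lt hF hleaf _ _)]
  refine tab_congr fun q hq => ?_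
  have h1 := iter_cast (F := F) (leaf := leaf) (ch := ch) h2p h root _ le_rfl q
    (show q < (D + 1) * L by
      rw [add_mul, one_mul]
      omega)
  rw [iter_exec hp hF hleaf h root 0 (Nat.zero_le _) 1, addB, if_pos (Nat.div_eq_of_lt hq),
    Nat.mod_eq_of_lt hq, zero_add, one_mul, bitZ] at h1
  have h2 : dig p (nrec 0 (stepN p D L h root F leaf ch) (MM p D ^ h)) q < p :=
    dig_lt hpr.out.pos _ _
  have h3 : dig 2 (tval D L F leaf ch h root) q < p := by
    have := dig_lt (q := 2) (by norm_num) (tval D L F leaf ch h root) q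
    omega
  have h4 := congrArg ZMod.val h1
  rw [ZMod.val_natCast_of_lt h2, ZMod.val_natCast_of_lt h3] at h4
  rw [h4, Nat.mod_eq_of_lt (dig_lt (by norm_num) _ _)]

end

end Pool.Agent.Helper65.LinSpace
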