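import Pool.Agent.Helper65.LinSpace.Typed

/-!
# Arithmetic in linear space
-/

namespace Pool.Agent.Helper65.LinSpace

open Finset

variable {α β γ : Type} [Ctx α] [Ctx β] [Ctx γ]

theorem LS.congr {f g : α → β} (hf : LS f) (h : ∀ a, g a = f a) : LS g := by
  have : g = f := funext h
  rwa [this]

@[fun_prop]
theorem LS.add {f g : α → ℕ} (hf : LS f) (hg : LS g) : LS (fun a => f a + g a) := by
  have h : ∀ m n : ℕ, LinSpace.nrec m (fun _ r => r + 1) n = m + n := by
    intro m n
    induction n with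
    | zero => rfl
    | succ n ih => rw [nrec_succ, ih]; rfl
  refine LS.congr (LS.nrec (G := f) (N := g) (C := fun a => (f a + 1) * (g a + 1))
    (K := fun _ _ r => r + 1) hf hg (by fun_prop) (by fun_prop) ?_) (fun a => (h _ _).symm)
  intro a i hi
  rw [h]
  nlinarith [Nat.zero_le (f a), Nat.zero_le (g a)]

@[fun_prop]
theorem LS.pred {f : α → ℕ} (hf : LS f) : LS (fun a => f a - 1) := by
  have h : ∀ n : ℕ, LinSpace.nrec 0 (fun i _ => i) n = n - 1 := by
    intro n
    cases n with
    | zero => rfl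
    | succ n => rfl
  refine LS.congr (LS.nrec (G := fun _ => 0) (N := f) (C := f)
    (K := fun _ i _ => i) (by fun_prop) hf hf (by fun_prop) ?_) (fun a => (h _).symm)
  intro a i hi
  rw [h]
  omega

@[fun_prop]
theorem LS.sub {f g : α → ℕ} (hf : LS f) (hg : LS g) : LS (fun a => f a - g a) := by
  have h : ∀ m n : ℕ, LinSpace.nrec m (fun _ r => r - 1) n = m - n := by
    intro m n
    induction n with
    | zero => rfl
    | succ n ih => rw [nrec_succ, ih]; rfl
  refine LS.congr (LS.nrec (G := f) (N := g) (C := f)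
    (K := fun _ _ r => r - 1) hf hg hf (by fun_prop) ?_) (fun a => (h _ _).symm)
  intro a i hi
  rw [h]
  omega

/-- `x` if `c = 0` and `y` otherwise. -/
def ifz (c x y : ℕ) : ℕ := if c = 0 then x else y

@[fun_prop]
theorem LS.ifz {c f g : α → ℕ} (hc : LS c) (hf : LS f) (hg : LS g) :
    LS (fun a => ifz (c a) (f a) (g a)) := by
  have h : ∀ c x y : ℕ, LinSpace.nrec x (fun _ _ => y) c = LinSpace.ifz c x y := by
    intro c x y
    cases c with
    | zero => simp [LinSpace.ifz]
    | succ n => simp [LinSpace.ifz, nrec_succ]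
  refine LS.congr (LS.nrec (G := f) (N := c) (C := fun a => f a + g a)
    (K := fun a _ _ => g a) hf hc (by fun_prop) (by fun_prop) ?_) (fun a => (h _ _ _).symm)
  intro a i hi
  rw [h, LinSpace.ifz]
  split_ifs <;> omega

/-- `1` if `x < y` and `0` otherwise. -/
def lt01 (x y : ℕ) : ℕ := if x < y then 1 else 0

@[fun_prop]
theorem LS.lt01 {f g : α → ℕ} (hf : LS f) (hg : LS g) : LS (fun a => lt01 (f a) (g a)) :=
  LS.congr (f := fun a => LinSpace.ifz (g a - f a) 0 1) (by fun_prop) fun a => by
    simp only [LinSpace.lt01, LinSpace.ifz]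
    split_ifs <;> omega

/-- `1` if `x ≤ y` and `0` otherwise. -/
def le01 (x y : ℕ) : ℕ := if x ≤ y then 1 else 0

@[fun_prop]
theorem LS.le01 {f g : α → ℕ} (hf : LS f) (hg : LS g) : LS (fun a => le01 (f a) (g a)) :=
  LS.congr (f := fun a => LinSpace.ifz (f a - g a) 1 0) (by fun_prop) fun a => by
    simp only [LinSpace.le01, LinSpace.ifz]
    split_ifs <;> omega

/-- `1` if `x = y` and `0` otherwise. -/
def eq01 (x y : ℕ) : ℕ := if x = y then 1 else 0

@[fun_prop]
theorem LS.eq01 {f g : α → ℕ} (hf : LS f) (hg : LS g) : LS (fun a => eq01 (f a) (g a)) :=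
  LS.congr (f := fun a => LinSpace.ifz ((f a - g a) + (g a - f a)) 1 0) (by fun_prop) fun a => by
    simp only [LinSpace.eq01, LinSpace.ifz]
    split_ifs <;> omega

@[fun_prop]
theorem LS.min {f g : α → ℕ} (hf : LS f) (hg : LS g) : LS (fun a => min (f a) (g a)) :=
  LS.congr (f := fun a => f a - (f a - g a)) (by fun_prop) fun a => by omega

@[fun_prop]
theorem LS.max {f g : α → ℕ} (hf : LS f) (hg : LS g) : LS (fun a => max (f a) (g a)) :=
  LS.congr (f := fun a => f a + (g a - f a)) (by fun_prop) fun a => by omega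

theorem nrec_sum (f : ℕ → ℕ) (n : ℕ) :
    nrec 0 (fun i r => r + f i) n = ∑ i ∈ range n, f i := by
  induction n with
  | zero => rfl
  | succ n ih => rw [nrec_succ, ih, sum_range_succ]

theorem LS.sum {f : α → ℕ → ℕ} {N C : α → ℕ} (hf : LS (fun p : α × ℕ => f p.1 p.2)) (hN : LS N)
    (hC : LS C) (hb : ∀ a, ∑ i ∈ range (N a), f a i ≤ C a) :
    LS (fun a => ∑ i ∈ range (N a), f a i) := by
  refine LS.congr (LS.nrec (G := fun _ => 0) (N := N) (C := C)
    (K := fun a i r => r + f a i) (by fun_prop) hN hC ?_ ?_) (fun a => (nrec_sum _ _).symm)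
  · have : LS (fun p : α × ℕ × ℕ => f p.1 p.2.1) :=
      LS.comp (g := fun p : α × ℕ => f p.1 p.2) (f := fun p : α × ℕ × ℕ => (p.1, p.2.1)) hf
        (by fun_prop)
    fun_prop
  · intro a i hi
    rw [nrec_sum]
    exact (sum_le_sum_of_subset (range_subset_range.2 hi)).trans (hb a)

theorem LS.sum_le {f : α → ℕ → ℕ} {N B : α → ℕ} (hf : LS (fun p : α × ℕ => f p.1 p.2))
    (hN : LS N) (hB : LS B) (hb : ∀ a, ∀ i < N a, f a i ≤ B a) :
    LS (fun a => ∑ i ∈ range (N a), f a i) := by
  refine LS.sum hf hN (C := fun a => N a * B a) (by fun_prop) fun a => ?_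
  refine (sum_le_sum (g := fun _ => B a) fun i hi => hb a i (mem_range.1 hi)).trans ?_
  simp

theorem sum_lt_ind {N m : ℕ} {t : ℕ → ℕ} (h1 : m ≤ N) (h2 : ∀ i < N, t i = if i < m then 1 else 0) :
    ∑ i ∈ range N, t i = m := by
  rw [sum_congr rfl fun i hi => h2 i (mem_range.1 hi)]
  obtain ⟨k, rfl⟩ := Nat.exists_eq_add_of_le h1
  rw [sum_range_add]
  have h3 : ∀ i ∈ range m, (if i < m then 1 else 0) = 1 := fun i hi => by
    rw [if_pos (mem_range.1 hi)]
  have h4 : ∀ i ∈ range k, (if m + i < m then 1 else 0) = 0 := fun i hi => by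
    rw [if_neg (by omega)]
  rw [sum_congr rfl h3, sum_congr rfl h4]
  simp

/-- A function is in the class if it is bounded and its strict upper bounds can be tested. -/
theorem LS.of_lt {m N : α → ℕ} {t : α → ℕ → ℕ} (hN : LS N)
    (ht : LS (fun p : α × ℕ => t p.1 p.2)) (h1 : ∀ a, m a ≤ N a)
    (h2 : ∀ a, ∀ i < N a, t a i = if i < m a then 1 else 0) : LS m := by
  refine LS.congr (LS.sum_le (f := t) (N := N) (B := fun _ => 1) ht hN (by fun_prop) ?_)
    fun a => (sum_lt_ind (h1 a) (h2 a)).symm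
  intro a i hi
  rw [h2 a i hi]
  split_ifs <;> omega

@[fun_prop]
theorem LS.div {f g : α → ℕ} (hf : LS f) (hg : LS g) : LS (fun a => f a / g a) := by
  refine LS.of_lt (N := f) (t := fun a i => LinSpace.ifz (g a) 0 (LinSpace.le01 ((i + 1) * g a)
    (f a))) hf (by fun_prop) (fun a => Nat.div_le_self _ _) ?_
  intro a i _
  simp only [LinSpace.ifz, LinSpace.le01]
  by_cases h : g a = 0
  · rw [if_pos h, h]
    simp
  · rw [if_neg h]
    have : (i + 1) * g a ≤ f a ↔ i < f a / g a := by
      rw [← Nat.le_div_iff_mul_le (Nat.pos_of_ne_zero h)]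
      omega
    simp only [this]

@[fun_prop]
theorem LS.mod {f g : α → ℕ} (hf : LS f) (hg : LS g) : LS (fun a => f a % g a) :=
  LS.congr (f := fun a => f a - g a * (f a / g a)) (by fun_prop) fun a => by
    have := Nat.div_add_mod (f a) (g a)
    omega

@[fun_prop]
theorem LS.pow_const {f : α → ℕ} (hf : LS f) (n : ℕ) : LS (fun a => f a ^ n) := by
  induction n with
  | zero => simpa using LS.const (α := α) (1 : ℕ)
  | succ n ih => simpa only [pow_succ] using ih.mul hf

theorem nrec_pow (a n : ℕ) : nrec 1 (fun _ r => r * a) n = a ^ n := by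
  induction n with
  | zero => rfl
  | succ n ih => rw [nrec_succ, ih, pow_succ]

theorem LS.pow_of_le {f g C : α → ℕ} (hf : LS f) (hg : LS g) (hC : LS C)
    (hb : ∀ a, f a ^ g a ≤ C a) : LS (fun a => f a ^ g a) := by
  refine LS.congr (LS.nrec (G := fun _ => 1) (N := g) (C := fun a => C a + 1)
    (K := fun a _ r => r * f a) (by fun_prop) hg (by fun_prop) (by fun_prop) ?_)
    (fun a => (nrec_pow _ _).symm)
  intro a i hi
  rw [nrec_pow]
  rcases Nat.eq_zero_or_pos (f a) with h | h
  · rw [h]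
    rcases i with _ | i
    · simp
    · simp
  · have := Nat.pow_le_pow_right h hi
    have := hb a
    omega

/-- The `i`-th digit in base `q`. -/
def dig (q R i : ℕ) : ℕ := R / q ^ i % q

theorem nrec_divPow (q R i : ℕ) : nrec R (fun _ r => r / q) i = R / q ^ i := by
  induction i with
  | zero => simp
  | succ i ih => rw [nrec_succ, ih, Nat.div_div_eq_div_mul, pow_succ]

@[fun_prop]
theorem LS.divPow {q R i : α → ℕ} (hq : LS q) (hR : LS R) (hi : LS i) :
    LS (fun a => R a / q a ^ i a) := by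
  refine LS.congr (LS.nrec (G := R) (N := i) (C := R)
    (K := fun a _ r => r / q a) hR hi hR (by fun_prop) ?_) (fun a => (nrec_divPow _ _ _).symm)
  intro a i hi
  rw [nrec_divPow]
  exact Nat.div_le_self _ _

@[fun_prop]
theorem LS.dig {q R i : α → ℕ} (hq : LS q) (hR : LS R) (hi : LS i) :
    LS (fun a => dig (q a) (R a) (i a)) := by
  unfold LinSpace.dig
  exact LS.mod (LS.divPow hq hR hi) hq

theorem nrec_capPow {q B : ℕ} (hB : 1 ≤ B) (i : ℕ) :
    nrec 1 (fun _ r => min (r * q) B) i = min (q ^ i) B := by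
  induction i with
  | zero => simpa using hB
  | succ i ih =>
    rw [nrec_succ, ih, pow_succ]
    rcases le_total (q ^ i) B with h | h
    · rw [min_eq_left h]
    · rw [min_eq_right h]
      rcases Nat.eq_zero_or_pos q with h0 | h0
      · subst h0
        simp
      · have h3 : B ≤ B * q := Nat.le_mul_of_pos_right _ h0
        have h4 : B * q ≤ q ^ i * q := Nat.mul_le_mul_right q h
        rw [min_eq_right h3, min_eq_right (h3.trans h4)]

/-- The power `q ^ i`, cut off at `B + 1`. -/
def capPow (q i B : ℕ) : ℕ := min (q ^ i) (B + 1)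

@[fun_prop]
theorem LS.capPow {q i B : α → ℕ} (hq : LS q) (hi : LS i) (hB : LS B) :
    LS (fun a => capPow (q a) (i a) (B a)) := by
  refine LS.congr (LS.nrec (G := fun _ => 1) (N := i) (C := fun a => B a + 1)
      (K := fun a _ r => Min.min (r * q a) (B a + 1)) (by fun_prop) hi (by fun_prop) (by fun_prop)
      ?_) fun a => (nrec_capPow (by omega) _).symm
  intro a i _
  rw [nrec_capPow (by omega)]
  exact min_le_right _ _

theorem mod_pow_eq (q R i : ℕ) : R % q ^ i = R - (R / q ^ i) * capPow q i R := by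
  rcases le_total (q ^ i) (R + 1) with h | h
  · rw [capPow, min_eq_left h]
    have h2 := Nat.div_add_mod R (q ^ i)
    rw [mul_comm] at h2
    generalize R / q ^ i * q ^ i = x at *
    generalize R % q ^ i = y at *
    omega
  · rw [Nat.div_eq_of_lt (by omega), Nat.mod_eq_of_lt (by omega)]
    simp

@[fun_prop]
theorem LS.modPow {q R i : α → ℕ} (hq : LS q) (hR : LS R) (hi : LS i) :
    LS (fun a => R a % q a ^ i a) := by
  have h := LS.divPow hq hR hi
  exact LS.congr (f := fun a => R a - (R a / q a ^ i a) * LinSpace.capPow (q a) (i a) (R a))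
    (LS.sub hR (LS.mul h (LS.capPow hq hi hR))) fun a => mod_pow_eq _ _ _

end Pool.Agent.Helper65.LinSpace
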