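import Pool.Agent.Helper65.LinSpace.Arith

/-!
# More arithmetic in linear space: digits, logarithms, pairing, primes
-/

namespace Pool.Agent.Helper65.LinSpace

open Finset

variable {α β γ : Type} [Ctx α] [Ctx β] [Ctx γ]

/-! ### Sums and products modulo `p` -/

theorem nrec_sumMod (p : ℕ) (f : ℕ → ℕ) (n : ℕ) :
    nrec 0 (fun i r => (r + f i) % p) n = (∑ i ∈ range n, f i) % p := by
  induction n with
  | zero => simp
  | succ n ih => rw [nrec_succ, ih, sum_range_succ, Nat.mod_add_mod]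

theorem LS.sumMod {f : α → ℕ → ℕ} {N p : α → ℕ} (hf : LS (fun q : α × ℕ => f q.1 q.2)) (hN : LS N)
    (hp : LS p) (hp0 : ∀ a, 0 < p a) : LS (fun a => (∑ i ∈ range (N a), f a i) % p a) := by
  refine LS.congr (LS.nrec (G := fun _ => 0) (N := N) (C := p)
    (K := fun a i r => (r + f a i) % p a) (by fun_prop) hN hp ?_ ?_)
    (fun a => (nrec_sumMod _ _ _).symm)
  · have : LS (fun q : α × ℕ × ℕ => f q.1 q.2.1) :=
      LS.comp (g := fun q : α × ℕ => f q.1 q.2) (f := fun q : α × ℕ × ℕ => (q.1, q.2.1)) hf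
        (by fun_prop)
    fun_prop
  · intro a i hi
    rw [nrec_sumMod]
    exact (Nat.mod_lt _ (hp0 a)).le

theorem nrec_prodMod (p : ℕ) (f : ℕ → ℕ) (n : ℕ) :
    nrec (1 % p) (fun i r => (r * f i) % p) n = (∏ i ∈ range n, f i) % p := by
  induction n with
  | zero => simp
  | succ n ih => rw [nrec_succ, ih, prod_range_succ, Nat.mod_mul_mod]

theorem LS.prodMod {f : α → ℕ → ℕ} {N p : α → ℕ} (hf : LS (fun q : α × ℕ => f q.1 q.2)) (hN : LS N)
    (hp : LS p) (hp0 : ∀ a, 0 < p a) : LS (fun a => (∏ i ∈ range (N a), f a i) % p a) := by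
  refine LS.congr (LS.nrec (G := fun a => 1 % p a) (N := N) (C := p)
    (K := fun a i r => (r * f a i) % p a) (by fun_prop) hN hp ?_ ?_)
    (fun a => (nrec_prodMod _ _ _).symm)
  · have : LS (fun q : α × ℕ × ℕ => f q.1 q.2.1) :=
      LS.comp (g := fun q : α × ℕ => f q.1 q.2) (f := fun q : α × ℕ × ℕ => (q.1, q.2.1)) hf
        (by fun_prop)
    fun_prop
  · intro a i hi
    rw [nrec_prodMod]
    exact (Nat.mod_lt _ (hp0 a)).le

/-! ### Digits -/

/-- The number with digits `d 0, …, d (m - 1)` in base `q`. -/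
def tab (q m : ℕ) (d : ℕ → ℕ) : ℕ := ∑ i ∈ range m, d i * q ^ i

theorem tab_zero (q : ℕ) (d : ℕ → ℕ) : tab q 0 d = 0 := rfl

theorem tab_succ (q m : ℕ) (d : ℕ → ℕ) : tab q (m + 1) d = tab q m d + d m * q ^ m := by
  simp [tab, sum_range_succ]

theorem tab_succ' (q m : ℕ) (d : ℕ → ℕ) :
    tab q (m + 1) d = d 0 + q * tab q m (fun i => d (i + 1)) := by
  unfold tab
  rw [sum_range_succ', mul_sum]
  simp only [pow_zero, mul_one, pow_succ]
  rw [add_comm]
  congr 1
  refine sum_congr rfl fun i _ => ?_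
  ring

theorem tab_lt {q m : ℕ} {d : ℕ → ℕ} (h : ∀ i < m, d i < q) : tab q m d < q ^ m := by
  induction m with
  | zero => simp [tab_zero]
  | succ m ih =>
    rw [tab_succ, pow_succ]
    have h1 := ih fun i hi => h i (by omega)
    have h2 := h m (by omega)
    have h3 : (d m + 1) * q ^ m ≤ q * q ^ m := Nat.mul_le_mul_right _ h2
    nlinarith

theorem tab_congr {q m : ℕ} {d d' : ℕ → ℕ} (h : ∀ i < m, d i = d' i) : tab q m d = tab q m d' :=
  sum_congr rfl fun i hi => by rw [h i (mem_range.1 hi)]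

theorem dig_zero (q R : ℕ) : dig q R 0 = R % q := by simp [dig]

theorem dig_succ (q R i : ℕ) : dig q R (i + 1) = dig q (R / q) i := by
  unfold dig
  rw [Nat.div_div_eq_div_mul, pow_succ, mul_comm (q ^ i)]

theorem dig_lt {q : ℕ} (hq : 0 < q) (R i : ℕ) : dig q R i < q := Nat.mod_lt _ hq

theorem dig_tab {q m : ℕ} {d : ℕ → ℕ} (h : ∀ i < m, d i < q) {i : ℕ} (hi : i < m) :
    dig q (tab q m d) i = d i := by
  induction m generalizing d i with
  | zero => omega
  | succ m ih =>
    have h0 := h 0 (by omega)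
    rw [tab_succ']
    rcases i with _ | i
    · rw [dig_zero, Nat.add_mul_mod_self_left, Nat.mod_eq_of_lt h0]
    · rw [dig_succ, Nat.add_mul_div_left _ _ (by omega), Nat.div_eq_of_lt h0, zero_add]
      exact ih (fun j hj => h (j + 1) (by omega)) (by omega)

theorem tab_dig {q : ℕ} (R m : ℕ) (h : R < q ^ m) : tab q m (dig q R) = R := by
  induction m generalizing R with
  | zero =>
    simp at h
    simp [tab_zero, h]
  | succ m ih =>
    rw [tab_succ']
    have h1 : (fun i => dig q R (i + 1)) = dig q (R / q) := funext fun i => dig_succ _ _ _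
    have hq : 0 < q := by
      rcases Nat.eq_zero_or_pos q with h0 | h0
      · subst h0
        simp at h
      · exact h0
    rw [h1, ih, dig_zero, Nat.mod_add_div]
    rw [Nat.div_lt_iff_lt_mul hq]
    rwa [pow_succ] at h

theorem dig_mod_pow {q : ℕ} (R m : ℕ) {i : ℕ} (hi : i < m) : dig q (R % q ^ m) i = dig q R i := by
  unfold dig
  obtain ⟨k, rfl⟩ := Nat.exists_eq_add_of_lt hi
  have h1 : q ^ (i + k + 1) = q ^ i * (q * q ^ k) := by ring
  rw [h1, Nat.mod_mul_right_div_self, Nat.mod_mul_right_mod]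

theorem tab_dig_mod {q : ℕ} (hq : 0 < q) (R m : ℕ) : tab q m (dig q R) = R % q ^ m := by
  rw [← tab_dig (R % q ^ m) m (Nat.mod_lt _ (by positivity))]
  exact tab_congr fun i hi => (dig_mod_pow R m hi).symm

theorem LS.tab {d : α → ℕ → ℕ} {q m C : α → ℕ} (hd : LS (fun p : α × ℕ => d p.1 p.2))
    (hq : LS q) (hm : LS m) (hC : LS C) (hd' : ∀ a, ∀ i < m a, d a i < q a)
    (hb : ∀ a, q a ^ m a ≤ C a) : LS (fun a => tab (q a) (m a) (d a)) := by
  have h1 : LS (fun a => ∑ i ∈ range (m a), d a i * LinSpace.capPow (q a) i (C a)) := by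
    refine LS.sum (f := fun a i => d a i * LinSpace.capPow (q a) i (C a)) ?_ hm hC ?_
    · fun_prop
    · intro a
      have : ∑ i ∈ range (m a), d a i * LinSpace.capPow (q a) i (C a) ≤
          LinSpace.tab (q a) (m a) (d a) := by
        refine sum_le_sum fun i _ => Nat.mul_le_mul_left _ ?_
        exact min_le_left _ _
      exact this.trans ((tab_lt (hd' a)).le.trans (hb a))
  refine LS.congr h1 fun a => ?_
  refine sum_congr rfl fun i hi => ?_
  have hi' := mem_range.1 hi
  have h2 := hd' a i hi'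
  have h3 : q a ^ i ≤ C a := (Nat.pow_le_pow_right (by omega) hi'.le).trans (hb a)
  rw [LinSpace.capPow, min_eq_left (by omega)]

/-! ### Logarithms, roots, pairing -/

@[fun_prop]
theorem LS.log2 {f : α → ℕ} (hf : LS f) : LS (fun a => Nat.log 2 (f a)) := by
  refine LS.of_lt (N := f) (t := fun a i => LinSpace.lt01 0 (f a / 2 ^ (i + 1))) hf (by fun_prop)
    (fun a => Nat.log_le_self 2 _) ?_
  intro a i hi
  have : 0 < f a / 2 ^ (i + 1) ↔ i < Nat.log 2 (f a) := by
    rw [Nat.div_pos_iff, ← Nat.succ_le_iff (m := i), Nat.le_log_iff_pow_le (by norm_num) (by omega)]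
    simp
  simp only [LinSpace.lt01, this]

@[fun_prop]
theorem LS.sqrt {f : α → ℕ} (hf : LS f) : LS (fun a => Nat.sqrt (f a)) := by
  refine LS.of_lt (N := f) (t := fun a i => LinSpace.le01 ((i + 1) * (i + 1)) (f a)) hf
    (by fun_prop) (fun a => Nat.sqrt_le_self _) ?_
  intro a i hi
  have : (i + 1) * (i + 1) ≤ f a ↔ i < Nat.sqrt (f a) := by
    rw [← Nat.succ_le_iff (m := i), Nat.le_sqrt]
  simp only [LinSpace.le01, this]

@[fun_prop]
theorem LS.unpair1 {f : α → ℕ} (hf : LS f) : LS (fun a => (Nat.unpair (f a)).1) := by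
  refine LS.congr (f := fun a => LinSpace.ifz (LinSpace.lt01 (f a - Nat.sqrt (f a) *
    Nat.sqrt (f a)) (Nat.sqrt (f a))) (Nat.sqrt (f a)) (f a - Nat.sqrt (f a) * Nat.sqrt (f a)))
    (by fun_prop) fun a => ?_
  by_cases h : f a - Nat.sqrt (f a) * Nat.sqrt (f a) < Nat.sqrt (f a) <;>
    simp [Nat.unpair, LinSpace.ifz, LinSpace.lt01, h]

@[fun_prop]
theorem LS.unpair2 {f : α → ℕ} (hf : LS f) : LS (fun a => (Nat.unpair (f a)).2) := by
  refine LS.congr (f := fun a => LinSpace.ifz (LinSpace.lt01 (f a - Nat.sqrt (f a) *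
    Nat.sqrt (f a)) (Nat.sqrt (f a))) (f a - Nat.sqrt (f a) * Nat.sqrt (f a) - Nat.sqrt (f a))
    (Nat.sqrt (f a))) (by fun_prop) fun a => ?_
  by_cases h : f a - Nat.sqrt (f a) * Nat.sqrt (f a) < Nat.sqrt (f a) <;>
    simp [Nat.unpair, LinSpace.ifz, LinSpace.lt01, h]

/-- The integer part of the `d`-th root of `x`. -/
def rt (d x : ℕ) : ℕ := Nat.findGreatest (fun b => b ^ d ≤ x) x

theorem rt_pow_le {d : ℕ} (hd : d ≠ 0) (x : ℕ) : rt d x ^ d ≤ x := by
  have := Nat.findGreatest_spec (P := fun b => b ^ d ≤ x) (m := 0) (Nat.zero_le x)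
    (by simp [hd])
  exact this

theorem lt_rt_succ_pow {d : ℕ} (hd : d ≠ 0) (x : ℕ) : x < (rt d x + 1) ^ d := by
  by_contra h
  push Not at h
  have h1 : rt d x + 1 ≤ x := (Nat.le_self_pow hd _).trans h
  have := Nat.le_findGreatest (P := fun b => b ^ d ≤ x) h1 h
  unfold rt at this
  omega

theorem lt_rt_iff {d : ℕ} (hd : d ≠ 0) (x i : ℕ) : i < rt d x ↔ (i + 1) ^ d ≤ x := by
  constructor
  · intro h
    exact (Nat.pow_le_pow_left h d).trans (rt_pow_le hd x)
  · intro h
    have h2 := lt_rt_succ_pow hd x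
    by_contra h3
    push Not at h3
    have : (rt d x + 1) ^ d ≤ (i + 1) ^ d := Nat.pow_le_pow_left (by omega) d
    omega

theorem LS.rt {f : α → ℕ} (hf : LS f) {d : ℕ} (hd : d ≠ 0) : LS (fun a => rt d (f a)) := by
  refine LS.of_lt (N := f) (t := fun a i => LinSpace.le01 ((i + 1) ^ d) (f a)) hf
    (by fun_prop) (fun a => Nat.findGreatest_le _) ?_
  intro a i hi
  simp only [LinSpace.le01, lt_rt_iff hd]

/-! ### Primes -/

/-- `1` for primes, `0` for other numbers. -/
def prime01 (n : ℕ) : ℕ := open Classical in if n.Prime then 1 else 0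

@[fun_prop]
theorem LS.prime01 {f : α → ℕ} (hf : LS f) : LS (fun a => prime01 (f a)) := by
  have h1 : LS (fun a => ∑ i ∈ range (f a),
      LinSpace.lt01 1 i * LinSpace.ifz (f a % i) 1 0) := by
    refine LS.sum_le (f := fun a i => LinSpace.lt01 1 i * LinSpace.ifz (f a % i) 1 0)
      (B := fun _ => 1) (by fun_prop) hf (by fun_prop) ?_
    intro a i _
    simp only [LinSpace.lt01, LinSpace.ifz]
    split_ifs <;> simp
  refine LS.congr (f := fun a => LinSpace.lt01 1 (f a) * LinSpace.ifz (∑ i ∈ range (f a),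
      LinSpace.lt01 1 i * LinSpace.ifz (f a % i) 1 0) 1 0) (by fun_prop) fun a => ?_
  have h2 : (f a).Prime ↔ 1 < f a ∧ ∑ i ∈ range (f a),
      LinSpace.lt01 1 i * LinSpace.ifz (f a % i) 1 0 = 0 := by
    rw [sum_eq_zero_iff, Nat.prime_def_lt]
    constructor
    · rintro ⟨h1, h2⟩
      refine ⟨h1, fun i hi => ?_⟩
      rw [mem_range] at hi
      simp only [LinSpace.lt01, LinSpace.ifz]
      split_ifs with h3 h4
      · have := h2 i hi (Nat.dvd_of_mod_eq_zero h4)
        omega
      · rfl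
      · rfl
      · rfl
    · rintro ⟨h1, h2⟩
      refine ⟨h1, fun i h4 hi => ?_⟩
      by_contra h3
      have h5 : 1 < i := by
        rcases i with _ | _ | i
        · have := Nat.eq_zero_of_zero_dvd hi
          omega
        · omega
        · omega
      have h6 := h2 i (mem_range.2 h4)
      simp only [LinSpace.lt01, LinSpace.ifz] at h6
      rw [if_pos h5, if_pos (Nat.mod_eq_zero_of_dvd hi)] at h6
      simp at h6
  simp only [LinSpace.prime01]
  by_cases h3 : (f a).Prime
  · rw [if_pos h3]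
    obtain ⟨h4, h5⟩ := h2.1 h3
    simp only [h5]
    simp [LinSpace.lt01, LinSpace.ifz, h4]
  · rw [if_neg h3]
    simp only [LinSpace.lt01, LinSpace.ifz]
    split_ifs with h4 h5
    · exact absurd (h2.2 ⟨h4, h5⟩) h3
    · rfl
    · rfl
    · rfl

/-- A prime between `m` and `2 m`. -/
noncomputable def nextPrime (m : ℕ) : ℕ :=
  nrec 0 (fun i r => ifz r ((m + 1 + i) * prime01 (m + 1 + i)) r) m

theorem nextPrime_aux (m k : ℕ) :
    (nrec 0 (fun i r => ifz r ((m + 1 + i) * prime01 (m + 1 + i)) r) k = 0 ∧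
      ∀ i < k, ¬ (m + 1 + i).Prime) ∨
    ((nrec 0 (fun i r => ifz r ((m + 1 + i) * prime01 (m + 1 + i)) r) k).Prime ∧
      m < nrec 0 (fun i r => ifz r ((m + 1 + i) * prime01 (m + 1 + i)) r) k ∧
      nrec 0 (fun i r => ifz r ((m + 1 + i) * prime01 (m + 1 + i)) r) k ≤ m + k) := by
  induction k with
  | zero => exact Or.inl ⟨rfl, fun i hi => by omega⟩
  | succ k ih =>
    rw [nrec_succ]
    generalize hr : nrec 0 (fun i r => ifz r ((m + 1 + i) * prime01 (m + 1 + i)) r) k = r at *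
    rcases ih with ⟨h1, h2⟩ | ⟨h1, h2, h3⟩
    · subst h1
      by_cases h4 : (m + 1 + k).Prime
      · right
        simp only [ifz, prime01, if_pos h4, if_true, mul_one]
        exact ⟨h4, by omega, by omega⟩
      · left
        refine ⟨by simp [ifz, prime01, h4], fun i hi => ?_⟩
        rcases Nat.lt_succ_iff_lt_or_eq.1 hi with h | h
        · exact h2 i h
        · rwa [h]
    · right
      have h4 : ifz r ((m + 1 + k) * prime01 (m + 1 + k)) r = r := by
        rw [ifz, if_neg (by omega)]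
      rw [h4]
      exact ⟨h1, h2, by omega⟩

theorem nextPrime_spec {m : ℕ} (hm : m ≠ 0) :
    (nextPrime m).Prime ∧ m < nextPrime m ∧ nextPrime m ≤ 2 * m := by
  rcases nextPrime_aux m m with ⟨h1, h2⟩ | ⟨h1, h2, h3⟩
  · exfalso
    obtain ⟨p, hp, h3, h4⟩ := Nat.exists_prime_lt_and_le_two_mul m hm
    refine h2 (p - (m + 1)) (by omega) ?_
    rwa [show m + 1 + (p - (m + 1)) = p by omega]
  · exact ⟨h1, h2, by unfold nextPrime; omega⟩

@[fun_prop]
theorem LS.nextPrime {f : α → ℕ} (hf : LS f) : LS (fun a => nextPrime (f a)) := by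
  unfold LinSpace.nextPrime
  refine LS.nrec (G := fun _ => 0) (N := f) (C := fun a => f a + f a)
    (K := fun a i r => LinSpace.ifz r ((f a + 1 + i) * LinSpace.prime01 (f a + 1 + i)) r)
    (by fun_prop) hf (by fun_prop) (by fun_prop) ?_
  intro a i hi
  rcases nextPrime_aux (f a) i with ⟨h1, h2⟩ | ⟨h1, h2, h3⟩
  · rw [h1]
    omega
  · exact h3.trans (by omega)

end Pool.Agent.Helper65.LinSpace
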