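import Pool.Agent.Helper65.LinSpace.CodeV

/-!
# The size of the parameters
-/

namespace Pool.Agent.Helper65.LinSpace

open Filter Topology

/-- The time bound. -/
noncomputable def TT (d : ℕ) (n : ℕ) : ℝ :=
  ((n : ℝ) + 1) ^ (1 + 1 / (d : ℝ)) / Real.log ((n : ℝ) + 2) ^ 3

theorem log_pos' (n : ℕ) : 0 < Real.log ((n : ℝ) + 2) := by
  have : (0 : ℝ) ≤ n := Nat.cast_nonneg n
  exact Real.log_pos (by linarith)

theorem ll_le_log (n : ℕ) : (ll n : ℝ) ≤ 3 * Real.log ((n : ℝ) + 2) := by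
  have hlog2 := Real.log_two_gt_d9
  have hn : (0 : ℝ) ≤ n := Nat.cast_nonneg n
  have h1 : (Nat.log 2 n : ℝ) * Real.log 2 ≤ Real.log ((n : ℝ) + 2) := by
    rw [← Real.log_pow]
    refine Real.log_le_log (by positivity) ?_
    rcases Nat.eq_zero_or_pos n with h | h
    · subst h
      simp
    · have := Nat.pow_log_le_self 2 (show n ≠ 0 by omega)
      have h6 : ((2 ^ Nat.log 2 n : ℕ) : ℝ) ≤ n := by exact_mod_cast this
      push_cast at h6
      linarith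
  have h2 : Real.log 2 ≤ Real.log ((n : ℝ) + 2) := Real.log_le_log (by norm_num) (by linarith)
  have h3 : (ll n : ℝ) * Real.log 2 ≤ 2 * Real.log ((n : ℝ) + 2) := by
    unfold ll
    push_cast
    linarith
  have h4 : (0 : ℝ) ≤ ll n := Nat.cast_nonneg _
  nlinarith

theorem mm_sq_le (n : ℕ) : (mm n : ℝ) ^ 3 ≤ 48 * Real.log ((n : ℝ) + 2) := by
  have h1 : mm n * mm n * mm n ≤ 16 * ll n := by
    have h2 := ll_cube_le (ll n)
    have h3 := ll_pos n
    unfold mm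
    omega
  have h2 : (mm n : ℝ) ^ 3 ≤ 16 * ll n := by
    have : ((mm n * mm n * mm n : ℕ) : ℝ) ≤ ((16 * ll n : ℕ) : ℝ) := by exact_mod_cast h1
    push_cast at this
    rw [pow_succ, pow_two]
    exact this
  have := ll_le_log n
  linarith

theorem le_hh {n : ℕ} (hn : 0 < n) : n ≤ 2 * hh n * ll n := by
  have h1 : n < (hh n + 1) * ll n := by
    unfold hh
    have := Nat.lt_div_mul_add (a := n) (ll_pos n)
    rw [add_mul, one_mul]
    exact this
  have h2 : 1 ≤ hh n := (Nat.one_le_div_iff (ll_pos n)).2 (ll_le_self hn)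
  have h3 : (hh n + 1) * ll n ≤ 2 * hh n * ll n := Nat.mul_le_mul_right _ (by omega)
  omega

theorem le_bb {d : ℕ} (hd : d ≠ 0) (n : ℕ) :
    n ≤ 2 * (2 * bb d n) ^ d * (ll n * (mm n * mm n)) := by
  have hpos : 0 < ll n * (mm n * mm n) := by
    have := ll_pos n
    have := mm_pos n
    positivity
  have h1 : n < (kk n + 1) * (ll n * (mm n * mm n)) := by
    unfold kk
    have := Nat.lt_div_mul_add (a := n) hpos
    rw [add_mul, one_mul]
    exact this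
  have h2 : kk n < (2 * bb d n) ^ d := by
    refine lt_of_lt_of_le (lt_rt_succ_pow hd _) (Nat.pow_le_pow_left ?_ d)
    unfold bb
    omega
  have h3 : (kk n + 1) * (ll n * (mm n * mm n)) ≤
      2 * (2 * bb d n) ^ d * (ll n * (mm n * mm n)) := Nat.mul_le_mul_right _ (by omega)
  omega

/-- `hh n * bb d n` is at least `C (n + 1) ^ (1 + 1 / d) / log ^ 3 (n + 2)`. -/
theorem asymV {d : ℕ} (hd : d ≠ 0) (C : ℝ) :
    ∀ᶠ n : ℕ in atTop, C * TT d n ≤ ((hh n * bb d n : ℕ) : ℝ) := by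
  obtain ⟨k, hk⟩ := exists_nat_ge (48 * (288 * |C|))
  filter_upwards [eventually_ge_atTop (2 ^ 2 ^ k), eventually_ge_atTop 1] with n hn hn1
  have hmm : k ≤ mm n := ev_le_mm k hn
  set Lg := Real.log ((n : ℝ) + 2) with hLg
  have hL : 0 < Lg := log_pos' n
  have hC0 := abs_nonneg C
  have hC : C ≤ |C| := le_abs_self C
  have hd0 : (0 : ℝ) < d := by
    have : 0 < d := Nat.pos_of_ne_zero hd
    exact_mod_cast this
  have hd1 : 1 / (d : ℝ) ≤ 1 := by
    rw [div_le_one hd0]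
    have : 1 ≤ d := Nat.pos_of_ne_zero hd
    exact_mod_cast this
  have hd2 : 0 < 1 / (d : ℝ) := by positivity
  have hn0 : (0 : ℝ) < n := by exact_mod_cast hn1
  have hn1' : (1 : ℝ) ≤ n := by exact_mod_cast hn1
  have hll1 : (1 : ℝ) ≤ ll n := by exact_mod_cast ll_pos n
  have hmm1 : (1 : ℝ) ≤ mm n := by exact_mod_cast mm_pos n
  have hb0 : (0 : ℝ) ≤ bb d n := Nat.cast_nonneg _
  have hh0 : (0 : ℝ) ≤ hh n := Nat.cast_nonneg _
  -- the number of squares of `mm`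
  have h1 : 288 * |C| * (mm n : ℝ) ^ 2 ≤ Lg := by
    have h2 := mm_sq_le n
    have h3 : 48 * (288 * |C|) ≤ mm n := by
      have : (k : ℝ) ≤ mm n := by exact_mod_cast hmm
      linarith
    have h4 : 48 * (288 * |C|) * (mm n : ℝ) ^ 2 ≤ (mm n : ℝ) ^ 3 := by
      rw [pow_succ (mm n : ℝ) 2, mul_comm ((mm n : ℝ) ^ 2)]
      exact mul_le_mul_of_nonneg_right h3 (by positivity)
    linarith
  have h2 : (n : ℝ) ≤ 2 * hh n * ll n := by exact_mod_cast le_hh hn1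
  have h3 : (n : ℝ) ^ (1 / (d : ℝ)) ≤ 4 * bb d n * (ll n * (mm n * mm n)) := by
    have h4 : (n : ℝ) ≤ (2 * bb d n : ℝ) ^ d * (2 * (ll n * (mm n * mm n))) := by
      have : ((n : ℕ) : ℝ) ≤ ((2 * (2 * bb d n) ^ d * (ll n * (mm n * mm n)) : ℕ) : ℝ) := by
        exact_mod_cast le_bb hd n
      push_cast at this
      linarith
    have h5 : (1 : ℝ) ≤ 2 * (ll n * (mm n * mm n)) := by
      have h6 : (1 : ℝ) ≤ mm n * mm n := by nlinarith
      nlinarith
    calc (n : ℝ) ^ (1 / (d : ℝ)) ≤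
          ((2 * bb d n : ℝ) ^ d * (2 * (ll n * (mm n * mm n)))) ^ (1 / (d : ℝ)) :=
          Real.rpow_le_rpow hn0.le h4 hd2.le
      _ = ((2 * bb d n : ℝ) ^ d) ^ (1 / (d : ℝ)) * (2 * (ll n * (mm n * mm n))) ^ (1 / (d : ℝ)) :=
          Real.mul_rpow (by positivity) (by positivity)
      _ = 2 * bb d n * (2 * (ll n * (mm n * mm n))) ^ (1 / (d : ℝ)) := by
          rw [← Real.rpow_natCast, ← Real.rpow_mul (by positivity)]
          rw [mul_one_div_cancel hd0.ne', Real.rpow_one]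
      _ ≤ 2 * bb d n * (2 * (ll n * (mm n * mm n))) ^ (1 : ℝ) := by
          refine mul_le_mul_of_nonneg_left ?_ (by positivity)
          exact Real.rpow_le_rpow_of_exponent_le h5 hd1
      _ = 4 * bb d n * (ll n * (mm n * mm n)) := by
          rw [Real.rpow_one]
          ring
  have h4 : ((n : ℝ) + 1) ^ (1 + 1 / (d : ℝ)) ≤ 4 * (n : ℝ) ^ (1 + 1 / (d : ℝ)) := by
    calc ((n : ℝ) + 1) ^ (1 + 1 / (d : ℝ)) ≤ (2 * n) ^ (1 + 1 / (d : ℝ)) :=
          Real.rpow_le_rpow (by positivity) (by linarith) (by positivity)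
      _ = 2 ^ (1 + 1 / (d : ℝ)) * (n : ℝ) ^ (1 + 1 / (d : ℝ)) :=
          Real.mul_rpow (by norm_num) hn0.le
      _ ≤ 2 ^ (2 : ℝ) * (n : ℝ) ^ (1 + 1 / (d : ℝ)) := by
          refine mul_le_mul_of_nonneg_right ?_ (by positivity)
          exact Real.rpow_le_rpow_of_exponent_le (by norm_num) (by linarith)
      _ = _ := by norm_num
  have h5 : (n : ℝ) ^ (1 + 1 / (d : ℝ)) = n * (n : ℝ) ^ (1 / (d : ℝ)) := by
    rw [Real.rpow_add hn0, Real.rpow_one]
  have h6 : (n : ℝ) * (n : ℝ) ^ (1 / (d : ℝ)) ≤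
      (2 * hh n * ll n) * (4 * bb d n * (ll n * (mm n * mm n))) :=
    mul_le_mul h2 h3 (by positivity) (by positivity)
  have h7 : ((n : ℝ) + 1) ^ (1 + 1 / (d : ℝ)) ≤ 288 * (hh n * bb d n) * Lg ^ 2 * (mm n) ^ 2 := by
    have h8 : (ll n : ℝ) ^ 2 ≤ (3 * Lg) ^ 2 := pow_le_pow_left₀ (by linarith) (ll_le_log n) 2
    have h9 : (32 * (hh n * bb d n) * (mm n : ℝ) ^ 2) * (ll n : ℝ) ^ 2 ≤
        (32 * (hh n * bb d n) * (mm n : ℝ) ^ 2) * (3 * Lg) ^ 2 :=
      mul_le_mul_of_nonneg_left h8 (by positivity)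
    rw [h5] at h4
    nlinarith
  unfold TT
  rw [← hLg, ← mul_div_assoc, div_le_iff₀ (by positivity)]
  push_cast
  have h10 : (hh n * bb d n : ℝ) * Lg ^ 2 * (288 * |C| * (mm n) ^ 2) ≤
      (hh n * bb d n : ℝ) * Lg ^ 2 * Lg := mul_le_mul_of_nonneg_left h1 (by positivity)
  have h11 : C * ((n : ℝ) + 1) ^ (1 + 1 / (d : ℝ)) ≤
      |C| * (288 * (hh n * bb d n) * Lg ^ 2 * (mm n) ^ 2) :=
    (mul_le_mul_of_nonneg_right hC (by positivity)).trans (mul_le_mul_of_nonneg_left h7 hC0)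
  calc C * ((n : ℝ) + 1) ^ (1 + 1 / (d : ℝ)) ≤
      |C| * (288 * (hh n * bb d n) * Lg ^ 2 * (mm n) ^ 2) := h11
    _ = (hh n * bb d n : ℝ) * Lg ^ 2 * (288 * |C| * (mm n) ^ 2) := by ring
    _ ≤ (hh n * bb d n : ℝ) * Lg ^ 2 * Lg := h10
    _ = _ := by ring

end Pool.Agent.Helper65.LinSpace
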