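import Pool.Agent.Helper65.LinSpace.Arith2

/-!
# The tree evaluation procedure of Cook and Mertz
-/

namespace Pool.Agent.Helper65.LinSpace

open Finset

/-! ### Iteration -/

/-- Apply `f 0`, then `f 1`, …, then `f (n - 1)`. -/
def iter {S : Type} (f : ℕ → S → S) : ℕ → S → S
  | 0, r => r
  | n + 1, r => f n (iter f n r)

theorem iter_add {S : Type} (f : ℕ → S → S) (a b : ℕ) (r : S) :
    iter f (a + b) r = iter (fun i => f (a + i)) b (iter f a r) := by
  induction b with
  | zero => rfl
  | succ b ih =>
    rw [← add_assoc]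
    show f (a + b) (iter f (a + b) r) = _
    rw [ih]
    rfl

theorem iter_mul {S : Type} (f : ℕ → S → S) (m k : ℕ) (r : S) :
    iter f (m * k) r = iter (fun d => iter (fun i => f (d * k + i)) k) m r := by
  induction m with
  | zero =>
    rw [Nat.zero_mul]
    rfl
  | succ m ih =>
    rw [Nat.succ_mul, iter_add, ih]
    rfl

theorem iter_congr {S : Type} {f g : ℕ → S → S} {n : ℕ} (h : ∀ i < n, ∀ r, f i r = g i r) (r : S) :
    iter f n r = iter g n r := by
  induction n with
  | zero => rfl
  | succ n ih =>
    show f n (iter f n r) = g n (iter g n r)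
    rw [ih fun i hi => h i (by omega), h n (by omega)]

theorem iter_once {S : Type} (g : S → S) {n : ℕ} (hn : 0 < n) (r : S) :
    iter (fun i r => if i = 0 then g r else r) n r = g r := by
  induction n with
  | zero => omega
  | succ n ih =>
    rcases Nat.eq_zero_or_pos n with h | h
    · subst h
      rfl
    · show (if n = 0 then _ else _) = _
      rw [if_neg (by omega), ih h]

/-! ### The interpolation polynomial -/

section

variable (p : ℕ)

/-- A binary digit as an element of the field. -/
def bitZ (a m : ℕ) : ZMod p := ((dig 2 a m : ℕ) : ZMod p)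

/-- The multilinear extension of the `q`-th bit of `F` (as a function of `N` bits). -/
def fhat (N : ℕ) (F : ℕ → ℕ) (q : ℕ) (X : ℕ → ZMod p) : ZMod p :=
  ∑ a ∈ range (2 ^ N), bitZ p (F a) q * ∏ m ∈ range N, (if dig 2 a m = 1 then X m else 1 - X m)

theorem dig_two (a m : ℕ) : dig 2 a m = 0 ∨ dig 2 a m = 1 := by
  have := dig_lt (q := 2) (by norm_num) a m
  omega

theorem fhat_congr {N : ℕ} {F : ℕ → ℕ} {q : ℕ} {X Y : ℕ → ZMod p} (h : ∀ m < N, X m = Y m) :
    fhat p N F q X = fhat p N F q Y := by
  refine sum_congr rfl fun a _ => ?_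
  congr 1
  refine prod_congr rfl fun m hm => ?_
  rw [h m (mem_range.1 hm)]

theorem fhat_bits (N : ℕ) (F : ℕ → ℕ) (q : ℕ) {a₀ : ℕ} (ha : a₀ < 2 ^ N) :
    fhat p N F q (fun m => bitZ p a₀ m) = bitZ p (F a₀) q := by
  unfold fhat
  rw [sum_eq_single a₀]
  · rw [prod_eq_one, mul_one]
    intro m _
    rcases dig_two a₀ m with h | h <;> simp [bitZ, h]
  · intro a ha' hne
    rw [mem_range] at ha'
    have : ∃ m < N, dig 2 a m ≠ dig 2 a₀ m := by
      by_contra h
      push Not at h
      apply hne
      rw [← tab_dig a N ha', ← tab_dig a₀ N ha]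
      exact tab_congr h
    obtain ⟨m, hm, hne⟩ := this
    rw [prod_eq_zero (mem_range.2 hm), mul_zero]
    rcases dig_two a₀ m with h | h <;> rcases dig_two a m with h' | h' <;> simp_all [bitZ]
  · intro h
    exact absurd (mem_range.2 ha) h

variable [hp : Fact p.Prime]

theorem sum_univ_zmod (f : ZMod p → ZMod p) : ∑ x, f x = ∑ c ∈ range p, f (c : ZMod p) := by
  refine Finset.sum_nbij' (fun x => x.val) (fun c => (c : ZMod p)) ?_ ?_ ?_ ?_ ?_
  · intro x _
    exact mem_range.2 (ZMod.val_lt x)
  · intro c _
    exact mem_univ _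
  · intro x _
    exact ZMod.natCast_zmod_val x
  · intro c hc
    exact ZMod.val_natCast_of_lt (mem_range.1 hc)
  · intro x _
    rw [ZMod.natCast_zmod_val x]

theorem sum_eval_eq {P : Polynomial (ZMod p)} (hP : P.natDegree < p - 1) :
    ∑ c ∈ range (p - 1), P.eval ((c + 1 : ℕ) : ZMod p) = - P.eval 0 := by
  have h1 : ∑ x : ZMod p, P.eval x = 0 := by
    simp_rw [Polynomial.eval_eq_sum_range]
    rw [sum_comm]
    refine sum_eq_zero fun i hi => ?_
    rw [← mul_sum, FiniteField.sum_pow_lt_card_sub_one, mul_zero]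
    rw [ZMod.card]
    have := mem_range.1 hi
    omega
  rw [sum_univ_zmod] at h1
  have h2 : (p - 1) + 1 = p := by
    have := hp.out.pos
    omega
  have h3 := sum_range_succ' (fun c : ℕ => P.eval (c : ZMod p)) (p - 1)
  rw [h2, h1, Nat.cast_zero] at h3
  exact eq_neg_of_add_eq_zero_left h3.symm

theorem fhat_sum {N : ℕ} (hN : N < p - 1) (F : ℕ → ℕ) (q : ℕ) (τ x : ℕ → ZMod p) :
    ∑ c ∈ range (p - 1), fhat p N F q (fun m => ((c + 1 : ℕ) : ZMod p) * τ m + x m) =
      - fhat p N F q x := by
  classical
  let lin : ℕ → Polynomial (ZMod p) := fun m => Polynomial.X * Polynomial.C (τ m) +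
    Polynomial.C (x m)
  have hlin : ∀ m, (lin m).natDegree ≤ 1 := by
    intro m
    refine (Polynomial.natDegree_add_le _ _).trans ?_
    refine max_le ?_ ?_
    · exact (Polynomial.natDegree_mul_C_le _ _).trans (Polynomial.natDegree_X_le)
    · rw [Polynomial.natDegree_C]
      omega
  let P : Polynomial (ZMod p) := ∑ a ∈ range (2 ^ N), Polynomial.C (bitZ p (F a) q) *
    ∏ m ∈ range N, (if dig 2 a m = 1 then lin m else 1 - lin m)
  have hP : P.natDegree ≤ N := by
    refine Polynomial.natDegree_sum_le_of_forall_le _ _ fun a _ => ?_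
    refine (Polynomial.natDegree_C_mul_le _ _).trans ?_
    refine (Polynomial.natDegree_prod_le _ _).trans ?_
    refine (sum_le_sum (g := fun _ => 1) fun m _ => ?_).trans (by simp)
    split_ifs
    · exact hlin m
    · refine (Polynomial.natDegree_sub_le _ _).trans ?_
      rw [Polynomial.natDegree_one]
      exact max_le (by omega) (hlin m)
  have heval : ∀ c : ZMod p, P.eval c = fhat p N F q (fun m => c * τ m + x m) := by
    intro c
    simp only [P, fhat, Polynomial.eval_finsetSum, Polynomial.eval_mul, Polynomial.eval_C,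
      Polynomial.eval_prod]
    refine sum_congr rfl fun a _ => ?_
    congr 1
    refine prod_congr rfl fun m _ => ?_
    have : Polynomial.eval c (lin m) = c * τ m + x m := by
      simp only [lin, Polynomial.eval_add, Polynomial.eval_mul, Polynomial.eval_X,
        Polynomial.eval_C]
    split_ifs
    · exact this
    · rw [Polynomial.eval_sub, this, Polynomial.eval_one]
  have h1 := sum_eval_eq p (P := P) (by omega)
  simp only [heval] at h1
  have h2 : (fun m => (0 : ZMod p) * τ m + x m) = x := by
    funext m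
    ring
  rw [h1, h2]

end

end Pool.Agent.Helper65.LinSpace
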