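import Pool.Agent.Helper65.LinSpace.CM

/-!
# The tree evaluation procedure of Cook and Mertz: correctness
-/

namespace Pool.Agent.Helper65.LinSpace

open Finset

theorem div_eq_block {L b k : ℕ} (hk : k < L) : (b * L + k) / L = b := by
  rw [Nat.div_eq_iff (by omega)]
  constructor
  · rw [mul_comm]
    omega
  · have : (b + 1) * L = b * L + L := by ring
    have h2 : b * L = L * b := mul_comm _ _
    omega

theorem mod_eq_block {L b k : ℕ} (hk : k < L) : (b * L + k) % L = k := by
  rw [Nat.mul_add_mod_self_right, Nat.mod_eq_of_lt hk]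

theorem dig_div_pow (R L i k : ℕ) : dig 2 (R / (2 ^ L) ^ i) k = dig 2 R (i * L + k) := by
  unfold dig
  rw [Nat.div_div_eq_div_mul, ← pow_mul, ← pow_add, mul_comm L i]

theorem dig_block {L k : ℕ} (hk : k < L) (R i : ℕ) :
    dig 2 (dig (2 ^ L) R i) k = dig 2 R (i * L + k) := by
  have h : dig (2 ^ L) R i = (R / (2 ^ L) ^ i) % 2 ^ L := rfl
  rw [h, dig_mod_pow _ _ hk, dig_div_pow]

section

variable (p D L : ℕ) (F leaf : ℕ → ℕ) (ch : ℕ → ℕ → ℕ)

/-- The value of the node `u` at height `j`; the children of `u` are `ch u i`, `i < D`. -/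
def tval : ℕ → ℕ → ℕ
  | 0, u => leaf u
  | j + 1, u => F (tab (2 ^ L) D fun i => tval j (ch u i))

variable {D L F leaf ch} in
theorem tval_lt (hF : ∀ a, F a < 2 ^ L) (hleaf : ∀ u, leaf u < 2 ^ L) (j u : ℕ) :
    tval D L F leaf ch j u < 2 ^ L := by
  cases j with
  | zero => exact hleaf u
  | succ j => exact hF _

/-- Multiply all blocks except the block `t` by `c`. -/
def opScale (t : ℕ) (c : ZMod p) (r : ℕ → ZMod p) : ℕ → ZMod p :=
  fun i => if i / L = t then r i else c * r i

/-- The contents of the blocks `t + 1, …, t + D` (cyclically). -/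
def args (t : ℕ) (r : ℕ → ZMod p) : ℕ → ZMod p :=
  fun m => r (((t + 1 + m / L) % (D + 1)) * L + m % L)

/-- Subtract `σ` times the extension of `F` at the other blocks from the block `t`. -/
def opF (t : ℕ) (σ : ZMod p) (r : ℕ → ZMod p) : ℕ → ZMod p :=
  fun i => if i / L = t then r i - σ * fhat p (D * L) F (i % L) (args p D L t r) else r i

/-- Add `s` times the bits of `v` to the block `b`. -/
def addB (b v : ℕ) (s : ZMod p) (r : ℕ → ZMod p) : ℕ → ZMod p :=
  fun i => if i / L = b then r i + s * bitZ p v (i % L) else r i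

/-- The number of recursive digits. -/
def MM : ℕ := (p - 1) * (2 * D + 3)

/-- The elementary operation at the moment `τ` of the evaluation of the node `u` of height `j`, with
target block `t` and sign `σ`. -/
noncomputable def exec : ℕ → ℕ → ℕ → ZMod p → ℕ → (ℕ → ZMod p) → (ℕ → ZMod p)
  | 0, u, t, σ, _, r => addB p L t (leaf u) σ r
  | j + 1, u, t, σ, τ, r =>
    if 1 ≤ τ / MM p D ^ j % (2 * D + 3) ∧ τ / MM p D ^ j % (2 * D + 3) ≤ D then
      exec j (ch u (τ / MM p D ^ j % (2 * D + 3) - 1))
        ((t + τ / MM p D ^ j % (2 * D + 3)) % (D + 1)) 1 (τ % MM p D ^ j) r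
    else if D + 2 ≤ τ / MM p D ^ j % (2 * D + 3) ∧ τ / MM p D ^ j % (2 * D + 3) ≤ 2 * D + 1 then
      exec j (ch u (τ / MM p D ^ j % (2 * D + 3) - (D + 2)))
        ((t + (τ / MM p D ^ j % (2 * D + 3) - (D + 1))) % (D + 1)) (-1) (τ % MM p D ^ j) r
    else if τ % MM p D ^ j = 0 then
      if τ / MM p D ^ j % (2 * D + 3) = 0 then
        opScale p L t ((τ / MM p D ^ j / (2 * D + 3) + 1 : ℕ) : ZMod p) r
      else if τ / MM p D ^ j % (2 * D + 3) = D + 1 then opF p D L F t σ r
      else opScale p L t ((τ / MM p D ^ j / (2 * D + 3) + 1 : ℕ) : ZMod p)⁻¹ r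
    else r

variable {D} in
theorem cyc {t s : ℕ} (ht : t ≤ D) (hs : s ≤ D) :
    (t + s) % (D + 1) = if t + s ≤ D then t + s else t + s - (D + 1) := by
  split_ifs with h
  · exact Nat.mod_eq_of_lt (by omega)
  · rw [Nat.mod_eq_sub_mod (by omega), Nat.mod_eq_of_lt (by omega)]

/-- The index of the child whose block is `b`, plus one. -/
def kid (t b : ℕ) : ℕ := if t ≤ b then b - t else b + (D + 1) - t

variable {D} in
theorem kid_iff {t b s : ℕ} (ht : t ≤ D) (hs : s ≤ D) :
    b = (t + s) % (D + 1) ↔ b ≤ D ∧ kid D t b = s := by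
  rw [cyc ht hs]
  unfold kid
  split_ifs <;> omega

/-- Add `s` times the values `v i` of the children to their blocks. -/
def addAll (t : ℕ) (v : ℕ → ℕ) (s : ZMod p) (k : ℕ) (r : ℕ → ZMod p) : ℕ → ZMod p :=
  fun i => r i + if i / L ≤ D ∧ 1 ≤ kid D t (i / L) ∧ kid D t (i / L) ≤ k then
    s * bitZ p (v (kid D t (i / L) - 1)) (i % L) else 0

variable {D L p} in
theorem iter_addB {t : ℕ} (ht : t ≤ D) (v : ℕ → ℕ) (s : ZMod p) (r : ℕ → ZMod p) :
    ∀ k ≤ D, iter (fun k r => addB p L ((t + (k + 1)) % (D + 1)) (v k) s r) k r =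
      addAll p D L t v s k r
  | 0, _ => by
    funext i
    show r i = _
    simp only [addAll]
    rw [if_neg (by omega), add_zero]
  | k + 1, hk => by
    show addB p L ((t + (k + 1)) % (D + 1)) (v k) s (iter _ k r) = _
    rw [iter_addB ht v s r k (by omega)]
    funext i
    simp only [addB, addAll]
    by_cases h : i / L = (t + (k + 1)) % (D + 1)
    · rw [if_pos h]
      obtain ⟨h1, h2⟩ := (kid_iff ht (by omega)).1 h
      rw [if_neg (by omega), if_pos (by omega), h2, add_zero]
      rfl
    · rw [if_neg h]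
      have h1 : ¬ (i / L ≤ D ∧ kid D t (i / L) = k + 1) := fun h2 =>
        h ((kid_iff ht (by omega)).2 h2)
      congr 1
      by_cases h3 : i / L ≤ D ∧ 1 ≤ kid D t (i / L) ∧ kid D t (i / L) ≤ k
      · rw [if_pos h3, if_pos (by omega)]
      · rw [if_neg h3, if_neg (by omega)]

variable {D L} in
theorem block_facts {t m : ℕ} (ht : t ≤ D) (hm : m < D * L) :
    m % L < L ∧ m / L < D ∧ (t + 1 + m / L) % (D + 1) ≤ D ∧
      kid D t ((t + 1 + m / L) % (D + 1)) = m / L + 1 ∧ (t + 1 + m / L) % (D + 1) ≠ t := by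
  have hL : 0 < L := by
    rcases Nat.eq_zero_or_pos L with h | h
    · subst h
      simp at hm
    · exact h
  have hk : m % L < L := Nat.mod_lt _ hL
  have hi : m / L < D := (Nat.div_lt_iff_lt_mul hL).2 hm
  generalize m / L = w at *
  have hb : (t + 1 + w) % (D + 1) = (t + (w + 1)) % (D + 1) := by
    congr 1
    ring
  obtain ⟨h1, h2⟩ := (kid_iff ht (s := w + 1) (by omega)).1 hb
  refine ⟨hk, hi, h1, h2, ?_⟩
  intro h
  rw [h] at h2
  unfold kid at h2
  rw [if_pos le_rfl] at h2
  omega

variable {D L p} in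
theorem args_addAll {t : ℕ} (ht : t ≤ D) {v : ℕ → ℕ} (hv : ∀ i < D, v i < 2 ^ L) (c : ZMod p)
    (r : ℕ → ZMod p) {m : ℕ} (hm : m < D * L) :
    args p D L t (addAll p D L t v 1 D (opScale p L t c r)) m =
      c * args p D L t r m + bitZ p (tab (2 ^ L) D v) m := by
  obtain ⟨hk, hi, h1, h2, h3⟩ := block_facts ht hm
  simp only [args, addAll, opScale]
  rw [div_eq_block hk, mod_eq_block hk, if_neg h3, if_pos ⟨h1, by rw [h2]; exact Nat.le_add_left _ _,
    by rw [h2]; exact hi⟩, h2, one_mul]
  congr 1
  have h4 : dig (2 ^ L) (tab (2 ^ L) D v) (m / L) = v (m / L) := dig_tab hv hi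
  simp only [bitZ]
  have h5 : v (m / L + 1 - 1) = v (m / L) := rfl
  rw [h5, ← h4, dig_block hk, Nat.div_add_mod']

variable {D L p} in
/-- The effect of one round. -/
theorem round_eq {t : ℕ} (ht : t ≤ D) {v : ℕ → ℕ} (hv : ∀ i < D, v i < 2 ^ L) {c : ZMod p}
    [Fact p.Prime] (hc : c ≠ 0) (σ : ZMod p) (r : ℕ → ZMod p) :
    opScale p L t c⁻¹ (addAll p D L t v (-1) D (opF p D L F t σ
      (addAll p D L t v 1 D (opScale p L t c r)))) =
    fun i => if i / L = t then r i - σ * fhat p (D * L) F (i % L)
      (fun m => c * args p D L t r m + bitZ p (tab (2 ^ L) D v) m) else r i := by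
  have hA : ∀ q, fhat p (D * L) F q (args p D L t (addAll p D L t v 1 D (opScale p L t c r))) =
      fhat p (D * L) F q (fun m => c * args p D L t r m + bitZ p (tab (2 ^ L) D v) m) := fun q =>
    fhat_congr p fun m hm => args_addAll ht hv c r hm
  funext i
  by_cases h : i / L = t
  · have hkid : kid D t (i / L) = 0 := by
      rw [h, kid, if_pos le_rfl, Nat.sub_self]
    simp only [opScale, if_pos h]
    rw [addAll, hkid, if_neg (by omega), add_zero]
    simp only [opF, if_pos h, hA]
    rw [addAll, hkid, if_neg (by omega), add_zero, opScale, if_pos h]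
  · simp only [opScale, if_neg h]
    rw [addAll]
    simp only [opF, if_neg h]
    simp only [addAll, opScale, if_neg h]
    by_cases h2 : i / L ≤ D ∧ 1 ≤ kid D t (i / L) ∧ kid D t (i / L) ≤ D
    · rw [if_pos h2, if_pos h2]
      field_simp
      ring
    · rw [if_neg h2, if_neg h2]
      field_simp
      ring

variable {D L p} in
theorem args_congr {t : ℕ} (ht : t ≤ D) {r r' : ℕ → ZMod p}
    (h : ∀ i, i / L ≠ t → r i = r' i) {m : ℕ} (hm : m < D * L) :
    args p D L t r m = args p D L t r' m := by
  obtain ⟨hk, hi, h1, h2, h3⟩ := block_facts ht hm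
  exact h _ (by rw [div_eq_block hk]; exact h3)

variable {D L p} in
/-- The effect of the rounds with `c = 1, …, n`. -/
theorem rounds_eq {t : ℕ} (ht : t ≤ D) {v : ℕ → ℕ} (hv : ∀ i < D, v i < 2 ^ L)
    [Fact p.Prime] (σ : ZMod p) (r : ℕ → ZMod p) : ∀ n ≤ p - 1,
    iter (fun c r => opScale p L t ((c + 1 : ℕ) : ZMod p)⁻¹ (addAll p D L t v (-1) D
      (opF p D L F t σ (addAll p D L t v 1 D (opScale p L t ((c + 1 : ℕ) : ZMod p) r))))) n r =
    fun i => if i / L = t then r i - σ * ∑ c ∈ range n, fhat p (D * L) F (i % L)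
      (fun m => ((c + 1 : ℕ) : ZMod p) * args p D L t r m + bitZ p (tab (2 ^ L) D v) m) else r i
  | 0, _ => by
    funext i
    show r i = _
    simp
  | n + 1, hn => by
    have hc : ((n + 1 : ℕ) : ZMod p) ≠ 0 := by
      rw [Ne, ZMod.natCast_eq_zero_iff]
      intro h
      have := Nat.le_of_dvd (by omega) h
      have := (Fact.out : p.Prime).pos
      omega
    show opScale p L t ((n + 1 : ℕ) : ZMod p)⁻¹ (addAll p D L t v (-1) D
      (opF p D L F t σ (addAll p D L t v 1 D (opScale p L t ((n + 1 : ℕ) : ZMod p)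
        (iter _ n r))))) = _
    rw [rounds_eq ht hv σ r n (by omega), round_eq F ht hv hc]
    funext i
    by_cases h : i / L = t
    · simp only [if_pos h]
      rw [sum_range_succ, mul_add, ← sub_sub]
      congr 2
      refine fhat_congr p fun m hm => ?_
      congr 2
      exact args_congr ht (fun i hi => by rw [if_neg hi]) hm
    · simp only [if_neg h]

variable {D L F leaf ch p} in
/-- **Correctness of the tree evaluation.** -/
theorem iter_exec [Fact p.Prime] (hp : D * L < p - 1) (hF : ∀ a, F a < 2 ^ L)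
    (hleaf : ∀ u, leaf u < 2 ^ L) :
    ∀ (j u t : ℕ) (_ : t ≤ D) (σ : ZMod p) (r : ℕ → ZMod p),
      iter (fun τ r => exec p D L F leaf ch j u t σ τ r) (MM p D ^ j) r =
        addB p L t (tval D L F leaf ch j u) σ r
  | 0, u, t, _, σ, r => rfl
  | j + 1, u, t, ht, σ, r => by
    have ih := iter_exec hp hF hleaf j
    set v : ℕ → ℕ := fun i => tval D L F leaf ch j (ch u i) with hv_def
    have hv : ∀ i < D, v i < 2 ^ L := fun i _ => tval_lt hF hleaf _ _
    have hp1 : 0 < p - 1 := by omega
    have hMpos : 0 < MM p D ^ j := by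
      have : 0 < MM p D := Nat.mul_pos hp1 (by omega)
      positivity
    -- a block of `M ^ j` moments
    have hdiv : ∀ d i, i < MM p D ^ j → (d * MM p D ^ j + i) / MM p D ^ j = d := fun d i hi =>
      div_eq_block hi
    have hmod : ∀ d i, i < MM p D ^ j → (d * MM p D ^ j + i) % MM p D ^ j = i := fun d i hi =>
      mod_eq_block hi
    have hblock : ∀ d (r : ℕ → ZMod p),
        iter (fun i => (fun τ r => exec p D L F leaf ch (j + 1) u t σ τ r) (d * MM p D ^ j + i))
          (MM p D ^ j) r =
        if 1 ≤ d % (2 * D + 3) ∧ d % (2 * D + 3) ≤ D then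
          addB p L ((t + d % (2 * D + 3)) % (D + 1)) (v (d % (2 * D + 3) - 1)) 1 r
        else if D + 2 ≤ d % (2 * D + 3) ∧ d % (2 * D + 3) ≤ 2 * D + 1 then
          addB p L ((t + (d % (2 * D + 3) - (D + 1))) % (D + 1)) (v (d % (2 * D + 3) - (D + 2)))
            (-1) r
        else if d % (2 * D + 3) = 0 then opScale p L t ((d / (2 * D + 3) + 1 : ℕ) : ZMod p) r
        else if d % (2 * D + 3) = D + 1 then opF p D L F t σ r
        else opScale p L t ((d / (2 * D + 3) + 1 : ℕ) : ZMod p)⁻¹ r := by
      intro d r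
      split_ifs with h1 h2 h3 h4
      · rw [← ih (ch u (d % (2 * D + 3) - 1)) ((t + d % (2 * D + 3)) % (D + 1))
          (by have := Nat.mod_lt (t + d % (2 * D + 3)) (show D + 1 > 0 by omega); omega) 1 r]
        refine iter_congr (fun i hi r => ?_) r
        simp only [exec]
        rw [hdiv d i hi, hmod d i hi, if_pos h1]
      · rw [← ih (ch u (d % (2 * D + 3) - (D + 2))) ((t + (d % (2 * D + 3) - (D + 1))) % (D + 1))
          (by have := Nat.mod_lt (t + (d % (2 * D + 3) - (D + 1))) (show D + 1 > 0 by omega); omega)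
          (-1) r]
        refine iter_congr (fun i hi r => ?_) r
        simp only [exec]
        rw [hdiv d i hi, hmod d i hi, if_neg h1, if_pos h2]
      · rw [← iter_once (opScale p L t ((d / (2 * D + 3) + 1 : ℕ) : ZMod p)) hMpos r]
        refine iter_congr (fun i hi r => ?_) r
        simp only [exec]
        rw [hdiv d i hi, hmod d i hi, if_neg h1, if_neg h2, if_pos h3]
      · rw [← iter_once (opF p D L F t σ) hMpos r]
        refine iter_congr (fun i hi r => ?_) r
        simp only [exec]
        rw [hdiv d i hi, hmod d i hi, if_neg h1, if_neg h2, if_neg h3, if_pos h4]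
      · rw [← iter_once (opScale p L t ((d / (2 * D + 3) + 1 : ℕ) : ZMod p)⁻¹) hMpos r]
        refine iter_congr (fun i hi r => ?_) r
        simp only [exec]
        rw [hdiv d i hi, hmod d i hi, if_neg h1, if_neg h2, if_neg h3, if_neg h4]
    obtain ⟨B, hB⟩ : ∃ B : ℕ → (ℕ → ZMod p) → (ℕ → ZMod p), B = fun d =>
        iter (fun i => (fun τ r => exec p D L F leaf ch (j + 1) u t σ τ r) (d * MM p D ^ j + i))
          (MM p D ^ j) := ⟨_, rfl⟩
    have hB' : ∀ d r, B d r = _ := fun d r => (congrFun (congrFun hB d) r).trans (hblock d r)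
    rw [pow_succ', iter_mul, ← hB]
    have hMM : iter B (MM p D) r = iter B ((p - 1) * (2 * D + 3)) r := rfl
    rw [hMM, iter_mul]
    -- one round
    have hround : ∀ c < p - 1, ∀ r : ℕ → ZMod p,
        iter (fun i => B (c * (2 * D + 3) + i)) (2 * D + 3) r =
        opScale p L t ((c + 1 : ℕ) : ZMod p)⁻¹ (addAll p D L t v (-1) D
          (opF p D L F t σ (addAll p D L t v 1 D
            (opScale p L t ((c + 1 : ℕ) : ZMod p) r)))) := by
      intro c _ r
      have hd : ∀ i < 2 * D + 3, (c * (2 * D + 3) + i) / (2 * D + 3) = c := fun i hi =>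
        div_eq_block hi
      have hm : ∀ i < 2 * D + 3, (c * (2 * D + 3) + i) % (2 * D + 3) = i := fun i hi =>
        mod_eq_block hi
      have e : iter (fun i => B (c * (2 * D + 3) + i)) (2 * D + 3) r =
          iter (fun i => B (c * (2 * D + 3) + i)) (1 + D + 1 + D + 1) r := by
        congr 1
        omega
      rw [e, iter_add, iter_add, iter_add, iter_add]
      have e1 : ∀ r, iter (fun i => B (c * (2 * D + 3) + i)) 1 r =
          opScale p L t ((c + 1 : ℕ) : ZMod p) r := by
        intro r
        show B (c * (2 * D + 3) + 0) r = _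
        rw [hB', hd 0 (by omega), hm 0 (by omega), if_neg (by omega), if_neg (by omega),
          if_pos rfl]
      have e2 : ∀ r, iter (fun i => B (c * (2 * D + 3) + (1 + i))) D r =
          addAll p D L t v 1 D r := by
        intro r
        rw [← iter_addB ht v 1 r D le_rfl]
        refine iter_congr (fun i hi r => ?_) r
        rw [hB', hm (1 + i) (by omega), if_pos (by omega)]
        have h1 : 1 + i = i + 1 := by omega
        have h2 : i + 1 - 1 = i := by omega
        rw [h1, h2]
      have e3 : ∀ r, iter (fun i => B (c * (2 * D + 3) + (1 + D + i))) 1 r =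
          opF p D L F t σ r := by
        intro r
        show B (c * (2 * D + 3) + (1 + D + 0)) r = _
        rw [hB', hm (1 + D + 0) (by omega), if_neg (by omega), if_neg (by omega),
          if_neg (by omega), if_pos (by omega)]
      have e4 : ∀ r, iter (fun i => B (c * (2 * D + 3) + (1 + D + 1 + i))) D r =
          addAll p D L t v (-1) D r := by
        intro r
        rw [← iter_addB ht v (-1) r D le_rfl]
        refine iter_congr (fun i hi r => ?_) r
        rw [hB', hm (1 + D + 1 + i) (by omega), if_neg (by omega), if_pos (by omega)]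
        have h1 : 1 + D + 1 + i - (D + 1) = i + 1 := by omega
        have h2 : 1 + D + 1 + i - (D + 2) = i := by omega
        rw [h1, h2]
      have e5 : ∀ r, iter (fun i => B (c * (2 * D + 3) + (1 + D + 1 + D + i))) 1 r =
          opScale p L t ((c + 1 : ℕ) : ZMod p)⁻¹ r := by
        intro r
        show B (c * (2 * D + 3) + (1 + D + 1 + D + 0)) r = _
        rw [hB', hm (1 + D + 1 + D + 0) (by omega), hd (1 + D + 1 + D + 0) (by omega),
          if_neg (by omega), if_neg (by omega), if_neg (by omega), if_neg (by omega)]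
      rw [e1, e2, e3, e4, e5]
    rw [iter_congr hround, rounds_eq F ht hv σ r (p - 1) le_rfl]
    funext i
    simp only [addB]
    by_cases h : i / L = t
    · rw [if_pos h, if_pos h, fhat_sum p (by omega), fhat_bits]
      · show r i - σ * -bitZ p (F (tab (2 ^ L) D v)) (i % L) = _
        rw [mul_neg, sub_neg_eq_add]
        rfl
      · have := tab_lt hv
        rwa [← pow_mul, mul_comm] at this
    · rw [if_neg h, if_neg h]

end

end Pool.Agent.Helper65.LinSpace
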