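import Pool.Agent.Helper65.LinSpace.Block

/-!
# Cellular automata with numeric states
-/

namespace Pool.Agent.Helper65.LinSpace

open Finset

section

variable (d : ℕ)

/-- The label of the block `k`. -/
def lab (H W : ℕ) (k : Fin d → ℤ) : ℕ :=
  tab W d fun e => if h : e < d then (k ⟨e, h⟩ + H).toNat else 0

/-- The children of a label. -/
def chN (W u i : ℕ) : ℕ := u + tab W d (dig 3 i) - tab W d fun _ => 1

variable {d}

theorem chN_lab {H W : ℕ} {k : Fin d → ℤ} (hk : ∀ e, 1 ≤ k e + H) (i : ℕ) :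
    chN d W (lab d H W k) i = lab d H W (k + off d i) := by
  have h : lab d H W k + tab W d (dig 3 i) = lab d H W (k + off d i) + tab W d fun _ => 1 := by
    simp only [lab, tab]
    rw [← sum_add_distrib, ← sum_add_distrib]
    refine sum_congr rfl fun e he => ?_
    have he' := mem_range.1 he
    rw [dif_pos he', dif_pos he', ← add_mul, ← add_mul]
    congr 1
    have h1 := hk ⟨e, he'⟩
    have h2 : (k + off d i) ⟨e, he'⟩ = k ⟨e, he'⟩ + ((dig 3 i e : ℤ) - 1) := rfl
    rw [h2]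
    omega
  rw [chN, h, Nat.add_sub_cancel]

theorem dig_lab {H W : ℕ} {k : Fin d → ℤ} (hk : ∀ e, 0 ≤ k e + H ∧ k e + H < W) (e : Fin d) :
    (dig W (lab d H W k) e : ℤ) = k e + H := by
  rw [lab, dig_tab _ e.2]
  · rw [dif_pos e.2]
    have := hk e
    exact Int.toNat_of_nonneg this.1
  · intro i hi
    rw [dif_pos hi]
    have := hk ⟨i, hi⟩
    omega

/-- The code of the letter at a cell with shifted coordinates `Z`: `0` for no letter, `1` and `2`
for the two letters. -/
def symN (d x HB : ℕ) (Z : ℕ → ℕ) : ℕ :=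
  ifz (∑ e ∈ range d, ifz e 0 (1 - eq01 (Z e) HB)) 1 0 * le01 HB (Z 0) *
    lt01 (Z 0 - HB) (Nat.log 2 x) * (1 + dig 2 x (Z 0 - HB))

/-- The initial content of a block. -/
def leafN (d b s H W ini x y u : ℕ) : ℕ :=
  tab (2 ^ s) (b ^ d) fun c => dig (2 ^ s) ini
    (3 * symN d x (H * b) (fun e => dig W u e * b + dig b c e) +
      symN d y (H * b) (fun e => dig W u e * b + dig b c e))

variable [NeZero d]

/-- The code of the letter at a cell. -/
noncomputable def sy (x : ℕ) (z : Fin d → ℤ) : ℕ := open Classical in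
  if (∀ j : Fin d, j ≠ 0 → z j = 0) ∧ 0 ≤ z 0 ∧ (z 0).toNat < Nat.log 2 x then
    1 + dig 2 x (z 0).toNat else 0

theorem symN_eq (x HB : ℕ) (Z : ℕ → ℕ) (z : Fin d → ℤ) (h : ∀ e : Fin d, (Z e : ℤ) = z e + HB) :
    symN d x HB Z = sy x z := by
  have h0 : (Z 0 : ℤ) = z 0 + HB := h 0
  have h1 : (∑ e ∈ range d, ifz e 0 (1 - eq01 (Z e) HB)) = 0 ↔ ∀ j : Fin d, j ≠ 0 → z j = 0 := by
    rw [sum_eq_zero_iff]
    constructor
    · intro h2 j hj
      have h3 := h2 j (mem_range.2 j.2)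
      have hj' : (j : ℕ) ≠ 0 := fun h => hj (Fin.ext h)
      rw [ifz_ne hj'] at h3
      have h4 : Z j = HB := by
        by_contra h5
        rw [eq01_ne h5] at h3
        omega
      have h5 := h j
      omega
    · intro h2 e he
      rcases Nat.eq_zero_or_pos e with h3 | h3
      · subst h3
        rfl
      · rw [ifz_ne (by omega)]
        have h4 := h2 ⟨e, mem_range.1 he⟩ (fun h5 => by
          have := congrArg Fin.val h5
          simp at this
          omega)
        have h5 := h ⟨e, mem_range.1 he⟩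
        rw [h4] at h5
        have h6 : Z e = HB := by
          have : ((⟨e, mem_range.1 he⟩ : Fin d) : ℕ) = e := rfl
          rw [this] at h5
          omega
        rw [eq01_of h6, Nat.sub_self]
  unfold symN sy
  by_cases h2 : ∀ j : Fin d, j ≠ 0 → z j = 0
  · rw [h1.2 h2, ifz_zero, one_mul]
    by_cases h3 : 0 ≤ z 0
    · have h4 : HB ≤ Z 0 := by omega
      have h5 : Z 0 - HB = (z 0).toNat := by omega
      rw [h5]
      simp only [le01, lt01]
      rw [if_pos h4, one_mul]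
      by_cases h6 : (z 0).toNat < Nat.log 2 x
      · rw [if_pos h6, if_pos ⟨h2, h3, h6⟩, one_mul]
      · rw [if_neg h6, if_neg (fun h => h6 h.2.2), zero_mul]
    · have h4 : ¬ HB ≤ Z 0 := by omega
      rw [if_neg (fun h => h3 h.2.1)]
      simp only [le01]
      rw [if_neg h4]
      simp
  · rw [if_neg (fun h => h2 h.1), ifz_ne (fun h => h2 (h1.1 h))]
    simp

/-- The configurations of the automaton with rule table `T` and initial table `ini`. -/
noncomputable def ccfg (s T ini x y : ℕ) : ℕ → (Fin d → ℤ) → ℕ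
  | 0, z => dig (2 ^ s) ini (3 * sy x z + sy y z)
  | t + 1, z => dig (2 ^ s) T (tab (2 ^ s) (3 ^ d) fun δ => ccfg s T ini x y t (z + off d δ))

theorem ccfg_lt (s T ini x y t : ℕ) (z : Fin d → ℤ) : ccfg s T ini x y t z < 2 ^ s := by
  cases t <;> exact dig_lt (by positivity) _ _

theorem leafN_eq {b s H W ini x y : ℕ} (T : ℕ) {k : Fin d → ℤ}
    (hk : ∀ e, 0 ≤ k e + H ∧ k e + H < W) :
    leafN d b s H W ini x y (lab d H W k) = bv d b s (ccfg s T ini x y) 0 k := by
  unfold leafN bv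
  refine tab_congr fun c _ => ?_
  have h : ∀ e : Fin d, ((dig W (lab d H W k) e * b + dig b c e : ℕ) : ℤ) =
      (k e * b + (dig b c e : ℤ)) + ((H * b : ℕ) : ℤ) := by
    intro e
    push_cast
    rw [dig_lab hk e]
    ring
  rw [symN_eq (d := d) x (H * b) _ (fun e => k e * b + (dig b c e : ℤ)) h,
    symN_eq (d := d) y (H * b) _ (fun e => k e * b + (dig b c e : ℤ)) h]
  rfl

/-- The value of a node of the tree is the content of a block. -/
theorem tval_eq {b s H W ini x y T h : ℕ} (hb : 0 < b) (hH : h < H) (hW : 2 * H < W) :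
    ∀ j ≤ h, ∀ k : Fin d → ℤ, (∀ e, |k e| ≤ (h - j : ℕ)) →
      tval (3 ^ d) (b ^ d * s) (FN d b s T) (leafN d b s H W ini x y) (chN d W) j (lab d H W k) =
        bv d b s (ccfg s T ini x y) (j * b) k
  | 0, _, k, hk => by
    rw [Nat.zero_mul]
    refine leafN_eq T fun e => ?_
    have := abs_le.1 (hk e)
    omega
  | j + 1, hj, k, hk => by
    have h1 : ∀ i, tval (3 ^ d) (b ^ d * s) (FN d b s T) (leafN d b s H W ini x y) (chN d W) j
        (chN d W (lab d H W k) i) = bv d b s (ccfg s T ini x y) (j * b) (k + off d i) := by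
      intro i
      rw [chN_lab]
      · refine tval_eq hb hH hW j (by omega) _ fun e => ?_
        have h2 := abs_le.1 (hk e)
        have h3 := dig_lt (q := 3) (by norm_num) i e
        have h4 : (k + off d i) e = k e + ((dig 3 i e : ℤ) - 1) := rfl
        rw [h4, abs_le]
        omega
      · intro e
        have h2 := abs_le.1 (hk e)
        omega
    rw [tval]
    simp only [h1]
    rw [FN_eq hb (fun t z => rfl) (fun t z => ccfg_lt _ _ _ _ _ _ _), Nat.succ_mul]

end

/-! ### Linear space -/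

variable {α : Type} [Ctx α]

theorem LS.yc {d : ℕ} {b idx e : α → ℕ} (hb : LS b) (hi : LS idx) (he : LS e) :
    LS (fun a => yc d (b a) (idx a) (e a)) := by
  unfold LinSpace.yc
  fun_prop

theorem LS.nbN {d : ℕ} {b idx δ : α → ℕ} (hb : LS b) (hi : LS idx) (hδ : LS δ)
    (hb0 : ∀ a, 0 < b a) : LS (fun a => nbN d (b a) (idx a) (δ a)) := by
  unfold LinSpace.nbN
  have h0 : LS (fun z : α × ℕ => LinSpace.yc d (b z.1) (idx z.1) z.2) :=
    LS.yc (by fun_prop) (by fun_prop) (by fun_prop)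
  have h1 : LS (fun a => LinSpace.tab 3 d (fun e =>
      (LinSpace.yc d (b a) (idx a) e + LinSpace.dig 3 (δ a) e - 1) / b a % 3)) := by
    refine LS.tab (q := fun _ => 3) (m := fun _ => d) (C := fun _ => 3 ^ d)
      (d := fun a e => (LinSpace.yc d (b a) (idx a) e + LinSpace.dig 3 (δ a) e - 1) / b a % 3)
      ?_ (by fun_prop) (by fun_prop) (by fun_prop) (fun _ _ _ => Nat.mod_lt _ (by norm_num))
      (fun _ => le_rfl)
    have h2 : LS (fun z : α × ℕ => LinSpace.dig 3 (δ z.1) z.2) := by fun_prop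
    exact LS.mod (LS.div (LS.sub (LS.add h0 h2) (LS.const 1)) (by fun_prop)) (by fun_prop)
  have h3 : LS (fun a => LinSpace.tab (b a) d (fun e =>
      (LinSpace.yc d (b a) (idx a) e + LinSpace.dig 3 (δ a) e - 1) % b a)) := by
    refine LS.tab (q := b) (m := fun _ => d) (C := fun a => b a ^ d)
      (d := fun a e => (LinSpace.yc d (b a) (idx a) e + LinSpace.dig 3 (δ a) e - 1) % b a)
      ?_ (by fun_prop) (by fun_prop) (by fun_prop) (fun a _ _ => Nat.mod_lt _ (hb0 a))
      (fun _ => le_rfl)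
    have h2 : LS (fun z : α × ℕ => LinSpace.dig 3 (δ z.1) z.2) := by fun_prop
    exact LS.mod (LS.sub (LS.add h0 h2) (LS.const 1)) (by fun_prop)
  have h4 : LS (fun a => b a ^ d) := by fun_prop
  exact LS.add (LS.mul h1 h4) h3

theorem LS.stepF {d : ℕ} {b s T r C : α → ℕ} (hb : LS b) (hs : LS s) (hT : LS T)
    (hr : LS r) (hC : LS C) (hb0 : ∀ a, 0 < b a)
    (hbd : ∀ a, (2 ^ s a) ^ (3 ^ d * b a ^ d) ≤ C a) :
    LS (fun a => stepF d (b a) (s a) (T a) (r a)) := by
  have hpos : ∀ a, 0 < b a ^ d := fun a => Nat.pow_pos (hb0 a)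
  have h3d : 0 < 3 ^ d := by positivity
  have hle1 : ∀ a, 2 ^ s a ≤ C a := fun a =>
    (Nat.le_self_pow (Nat.mul_pos h3d (hpos a)).ne' _).trans (hbd a)
  have hle2 : ∀ a, (2 ^ s a) ^ 3 ^ d ≤ C a := fun a =>
    (Nat.pow_le_pow_right (by positivity) (Nat.le_mul_of_pos_right _ (hpos a))).trans (hbd a)
  have h2s : LS (fun a => 2 ^ s a) := LS.pow_of_le (f := fun _ => 2) (by fun_prop) hs hC hle1
  unfold LinSpace.stepF
  refine LS.tab (q := fun a => 2 ^ s a) (m := fun a => 3 ^ d * b a ^ d) (C := C)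
    (d := fun a idx => LinSpace.dig (2 ^ s a) (T a) (LinSpace.tab (2 ^ s a) (3 ^ d) fun δ =>
      LinSpace.dig (2 ^ s a) (r a) (LinSpace.nbN d (b a) idx δ))) ?_ h2s (by fun_prop) hC
    (fun a _ _ => dig_lt (by positivity) _ _) hbd
  have h2s' : LS (fun z : α × ℕ => 2 ^ s z.1) := LS.comp (f := fun z : α × ℕ => z.1) h2s
    (by fun_prop)
  refine LS.dig h2s' (by fun_prop) ?_
  refine LS.tab (q := fun z : α × ℕ => 2 ^ s z.1) (m := fun _ => 3 ^ d) (C := fun z => C z.1)
    (d := fun z δ => LinSpace.dig (2 ^ s z.1) (r z.1) (LinSpace.nbN d (b z.1) z.2 δ)) ?_ h2s'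
    (by fun_prop) (by fun_prop) (fun a _ _ => dig_lt (by positivity) _ _) (fun z => hle2 z.1)
  have h2s'' : LS (fun z : (α × ℕ) × ℕ => 2 ^ s z.1.1) :=
    LS.comp (f := fun z : (α × ℕ) × ℕ => z.1.1) h2s (by fun_prop)
  refine LS.dig h2s'' (by fun_prop) ?_
  exact LS.nbN (by fun_prop) (by fun_prop) (by fun_prop) (fun z => hb0 z.1.1)

theorem LS.FN {d : ℕ} {b s T r C : α → ℕ} (hb : LS b) (hs : LS s) (hT : LS T)
    (hr : LS r) (hC : LS C) (hb0 : ∀ a, 0 < b a)
    (hbd : ∀ a, (2 ^ s a) ^ (3 ^ d * b a ^ d) ≤ C a) :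
    LS (fun a => FN d (b a) (s a) (T a) (r a)) := by
  unfold LinSpace.FN
  have h3d : 0 < 3 ^ d := by positivity
  have hle : ∀ a, 2 ^ (b a ^ d * s a) ≤ C a := fun a => by
    refine le_trans ?_ (hbd a)
    rw [← pow_mul]
    refine Nat.pow_le_pow_right (by norm_num) ?_
    rw [mul_comm]
    exact Nat.mul_le_mul_left _ (Nat.le_mul_of_pos_left _ h3d)
  have h1 : LS (fun a => 2 ^ (b a ^ d * s a)) :=
    LS.pow_of_le (f := fun _ => 2) (by fun_prop) (by fun_prop) hC hle
  refine LS.dig h1 ?_ (by fun_prop)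
  refine LS.nrec (G := r) (N := b) (C := fun a => C a + r a)
    (K := fun a _ x => LinSpace.stepF d (b a) (s a) (T a) x) hr hb (by fun_prop) ?_ ?_
  · exact LS.stepF (b := fun z : α × ℕ × ℕ => b z.1) (s := fun z => s z.1) (T := fun z => T z.1)
      (r := fun z => z.2.2) (C := fun z => C z.1) (by fun_prop) (by fun_prop) (by fun_prop)
      (by fun_prop) (by fun_prop) (fun z => hb0 z.1) (fun z => hbd z.1)
  · intro a i _
    rcases i with _ | i
    · exact Nat.le_add_left _ _
    · rw [nrec_succ]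
      have : LinSpace.stepF d (b a) (s a) (T a) (LinSpace.nrec (r a)
        (fun _ x => LinSpace.stepF d (b a) (s a) (T a) x) i) < (2 ^ s a) ^ (3 ^ d * b a ^ d) :=
        tab_lt fun _ _ => dig_lt (by positivity) _ _
      have := hbd a
      omega

theorem LS.chN {d : ℕ} {W u i : α → ℕ} (hW : LS W) (hu : LS u) (hi : LS i)
    (hW3 : ∀ a, 3 ≤ W a) : LS (fun a => chN d (W a) (u a) (i a)) := by
  unfold LinSpace.chN
  have h1 : LS (fun a => LinSpace.tab (W a) d (LinSpace.dig 3 (i a))) := by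
    refine LS.tab (q := W) (m := fun _ => d) (C := fun a => W a ^ d)
      (d := fun a e => LinSpace.dig 3 (i a) e) (by fun_prop) hW (by fun_prop) (by fun_prop)
      (fun a e _ => ?_) (fun _ => le_rfl)
    have := dig_lt (q := 3) (by norm_num) (i a) e
    have := hW3 a
    omega
  have h2 : LS (fun a => LinSpace.tab (W a) d (fun _ => 1)) := by
    refine LS.tab (q := W) (m := fun _ => d) (C := fun a => W a ^ d)
      (d := fun a e => 1) (by fun_prop) hW (by fun_prop) (by fun_prop)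
      (fun a e _ => ?_) (fun _ => le_rfl)
    have := hW3 a
    omega
  exact LS.sub (LS.add hu h1) h2

theorem chN_le {d W : ℕ} (hW : 3 ≤ W) (u i : ℕ) : chN d W u i ≤ u + W ^ d := by
  unfold chN
  have : tab W d (dig 3 i) < W ^ d := tab_lt fun e _ => by
    have := dig_lt (q := 3) (by norm_num) i e
    omega
  omega

theorem LS.symN {d : ℕ} {x HB : α → ℕ} {Z : α → ℕ → ℕ} (hx : LS x) (hHB : LS HB)
    (hZ : LS (fun z : α × ℕ => Z z.1 z.2)) : LS (fun a => symN d (x a) (HB a) (Z a)) := by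
  unfold LinSpace.symN
  have h0 : LS (fun a => Z a 0) := LS.comp (f := fun a => (a, 0)) hZ (by fun_prop)
  have h1 : LS (fun a => ∑ e ∈ range d, LinSpace.ifz e 0 (1 - LinSpace.eq01 (Z a e) (HB a))) := by
    refine LS.sum_le (N := fun _ => d) (B := fun _ => 1)
      (f := fun a e => LinSpace.ifz e 0 (1 - LinSpace.eq01 (Z a e) (HB a))) ?_ (by fun_prop)
      (by fun_prop) ?_
    · have h2 := LS.eq01 hZ (LS.comp (f := fun z : α × ℕ => z.1) hHB (by fun_prop))
      exact LS.ifz (by fun_prop) (by fun_prop) (LS.sub (LS.const 1) h2)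
    · intro a i _
      simp only [LinSpace.ifz]
      split_ifs <;> omega
  have h3 : LS (fun a => LinSpace.ifz (∑ e ∈ range d,
      LinSpace.ifz e 0 (1 - LinSpace.eq01 (Z a e) (HB a))) 1 0) :=
    LS.ifz h1 (LS.const 1) (LS.const 0)
  have h4 := LS.le01 hHB h0
  have h5 : LS (fun a => Z a 0 - HB a) := LS.sub h0 hHB
  have h6 := LS.lt01 h5 (LS.log2 hx)
  have h7 : LS (fun a => 1 + LinSpace.dig 2 (x a) (Z a 0 - HB a)) :=
    LS.add (LS.const 1) (LS.dig (LS.const 2) hx h5)
  exact LS.mul (LS.mul (LS.mul h3 h4) h6) h7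

theorem LS.leafN {d : ℕ} {b s H W ini x y u C : α → ℕ} (hb : LS b) (hs : LS s) (hH : LS H)
    (hW : LS W) (hini : LS ini) (hx : LS x) (hy : LS y) (hu : LS u) (hC : LS C)
    (hb0 : ∀ a, 0 < b a) (hbd : ∀ a, (2 ^ s a) ^ (b a ^ d) ≤ C a) :
    LS (fun a => leafN d (b a) (s a) (H a) (W a) (ini a) (x a) (y a) (u a)) := by
  have hpos : ∀ a, 0 < b a ^ d := fun a => Nat.pow_pos (hb0 a)
  have hle1 : ∀ a, 2 ^ s a ≤ C a := fun a =>
    (Nat.le_self_pow (hpos a).ne' _).trans (hbd a)
  have h2s : LS (fun a => 2 ^ s a) := LS.pow_of_le (f := fun _ => 2) (by fun_prop) hs hC hle1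
  unfold LinSpace.leafN
  refine LS.tab (q := fun a => 2 ^ s a) (m := fun a => b a ^ d) (C := C)
    (d := fun a c => LinSpace.dig (2 ^ s a) (ini a)
    (3 * LinSpace.symN d (x a) (H a * b a) (fun e => LinSpace.dig (W a) (u a) e * b a +
      LinSpace.dig (b a) c e) + LinSpace.symN d (y a) (H a * b a)
      (fun e => LinSpace.dig (W a) (u a) e * b a + LinSpace.dig (b a) c e))) ?_ h2s (by fun_prop)
    hC (fun a _ _ => dig_lt (by positivity) _ _) hbd
  have h2s' : LS (fun z : α × ℕ => 2 ^ s z.1) := LS.comp (f := fun z : α × ℕ => z.1) h2s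
    (by fun_prop)
  have h3 : LS (fun z : (α × ℕ) × ℕ => LinSpace.dig (W z.1.1) (u z.1.1) z.2 * b z.1.1 +
      LinSpace.dig (b z.1.1) z.1.2 z.2) := by fun_prop
  have h4 : LS (fun z : α × ℕ => LinSpace.symN d (x z.1) (H z.1 * b z.1) (fun e =>
      LinSpace.dig (W z.1) (u z.1) e * b z.1 + LinSpace.dig (b z.1) z.2 e)) :=
    LS.symN (x := fun z : α × ℕ => x z.1) (HB := fun z => H z.1 * b z.1)
      (Z := fun z e => LinSpace.dig (W z.1) (u z.1) e * b z.1 + LinSpace.dig (b z.1) z.2 e)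
      (by fun_prop) (by fun_prop) h3
  have h5 : LS (fun z : α × ℕ => LinSpace.symN d (y z.1) (H z.1 * b z.1) (fun e =>
      LinSpace.dig (W z.1) (u z.1) e * b z.1 + LinSpace.dig (b z.1) z.2 e)) :=
    LS.symN (x := fun z : α × ℕ => y z.1) (HB := fun z => H z.1 * b z.1)
      (Z := fun z e => LinSpace.dig (W z.1) (u z.1) e * b z.1 + LinSpace.dig (b z.1) z.2 e)
      (by fun_prop) (by fun_prop) h3
  exact LS.dig h2s' (by fun_prop) (LS.add (LS.mul (LS.const 3) h4) h5)

end Pool.Agent.Helper65.LinSpace
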