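import Pool.Agent.Helper65.LinSpace.Cells

/-!
# Simulation of blocks in linear space, the dimension being a variable
-/

namespace Pool.Agent.Helper65.LinSpace

open Finset

variable {α : Type} [Ctx α]

theorem LS.rtV {f d : α → ℕ} (hf : LS f) (hd : LS d) (hd0 : ∀ a, d a ≠ 0) :
    LS (fun a => LinSpace.rt (d a) (f a)) := by
  refine LS.of_lt (N := f) (t := fun a i => LinSpace.le01 (LinSpace.capPow (i + 1) (d a) (f a))
    (f a)) hf (by fun_prop) (fun a => Nat.findGreatest_le _) ?_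
  intro a i hi
  simp only [LinSpace.le01, lt_rt_iff (hd0 a), LinSpace.capPow]
  by_cases h : (i + 1) ^ d a ≤ f a
  · rw [if_pos h, if_pos ((min_le_left _ _).trans h)]
  · rw [if_neg h, if_neg]
    intro h2
    rcases min_le_iff.1 h2 with h3 | h3
    · exact h h3
    · omega

theorem LS.ycV {d b idx e : α → ℕ} (hd : LS d) (hb : LS b) (hi : LS idx) (he : LS e) :
    LS (fun a => LinSpace.yc (d a) (b a) (idx a) (e a)) := by
  unfold LinSpace.yc
  have h1 := LS.divPow hb hi hd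
  have h2 := LS.modPow hb hi hd
  exact LS.add (LS.mul (LS.dig (LS.const 3) h1 he) hb) (LS.dig hb h2 he)

theorem LS.nbNV {d b idx δ C : α → ℕ} (hd : LS d) (hb : LS b) (hi : LS idx) (hδ : LS δ)
    (hC : LS C) (hb0 : ∀ a, 0 < b a) (hbC : ∀ a, b a ^ d a ≤ C a) (h3C : ∀ a, 3 ^ d a ≤ C a) :
    LS (fun a => LinSpace.nbN (d a) (b a) (idx a) (δ a)) := by
  unfold LinSpace.nbN
  have h0 : LS (fun z : α × ℕ => LinSpace.yc (d z.1) (b z.1) (idx z.1) z.2) :=
    LS.ycV (by fun_prop) (by fun_prop) (by fun_prop) (by fun_prop)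
  have h2 : LS (fun z : α × ℕ => LinSpace.dig 3 (δ z.1) z.2) := by fun_prop
  have h1 : LS (fun a => LinSpace.tab 3 (d a) (fun e =>
      (LinSpace.yc (d a) (b a) (idx a) e + LinSpace.dig 3 (δ a) e - 1) / b a % 3)) := by
    refine LS.tab (q := fun _ => 3) (m := d) (C := C)
      (d := fun a e => (LinSpace.yc (d a) (b a) (idx a) e + LinSpace.dig 3 (δ a) e - 1) / b a % 3)
      ?_ (by fun_prop) hd hC (fun _ _ _ => Nat.mod_lt _ (by norm_num)) h3C
    exact LS.mod (LS.div (LS.sub (LS.add h0 h2) (LS.const 1)) (by fun_prop)) (by fun_prop)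
  have h3 : LS (fun a => LinSpace.tab (b a) (d a) (fun e =>
      (LinSpace.yc (d a) (b a) (idx a) e + LinSpace.dig 3 (δ a) e - 1) % b a)) := by
    refine LS.tab (q := b) (m := d) (C := C)
      (d := fun a e => (LinSpace.yc (d a) (b a) (idx a) e + LinSpace.dig 3 (δ a) e - 1) % b a)
      ?_ hb hd hC (fun a _ _ => Nat.mod_lt _ (hb0 a)) hbC
    exact LS.mod (LS.sub (LS.add h0 h2) (LS.const 1)) (by fun_prop)
  have h4 : LS (fun a => b a ^ d a) := LS.pow_of_le hb hd hC hbC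
  exact LS.add (LS.mul h1 h4) h3

/-- Small powers are below the bound. -/
theorem small_pow_le {b d s C : ℕ} (hb0 : 0 < b) (hbd : (2 ^ s) ^ (3 ^ d * b ^ d) ≤ C) :
    2 ^ s ≤ C ∧ (2 ^ s) ^ 3 ^ d ≤ C ∧ (2 ^ s) ^ b ^ d ≤ C ∧ 2 ^ (b ^ d * s) ≤ C := by
  have hpos : 0 < b ^ d := Nat.pow_pos hb0
  have h3d : 0 < 3 ^ d := by positivity
  refine ⟨(Nat.le_self_pow (Nat.mul_pos h3d hpos).ne' _).trans hbd,
    (Nat.pow_le_pow_right (by positivity) (Nat.le_mul_of_pos_right _ hpos)).trans hbd,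
    (Nat.pow_le_pow_right (by positivity) (Nat.le_mul_of_pos_left _ h3d)).trans hbd, ?_⟩
  rw [mul_comm, pow_mul]
  exact (Nat.pow_le_pow_right (by positivity) (Nat.le_mul_of_pos_left _ h3d)).trans hbd

theorem LS.stepFV {d b s T r C : α → ℕ} (hd : LS d) (hb : LS b) (hs : LS s) (hT : LS T)
    (hr : LS r) (hC : LS C) (hb0 : ∀ a, 0 < b a) (hbC : ∀ a, b a ^ d a ≤ C a)
    (h3C : ∀ a, 3 ^ d a ≤ C a) (hbd : ∀ a, (2 ^ s a) ^ (3 ^ d a * b a ^ d a) ≤ C a) :
    LS (fun a => LinSpace.stepF (d a) (b a) (s a) (T a) (r a)) := by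
  have h2s : LS (fun a => 2 ^ s a) := LS.pow_of_le (f := fun _ => 2) (by fun_prop) hs hC
    fun a => (small_pow_le (hb0 a) (hbd a)).1
  have h3d : LS (fun a => 3 ^ d a) := LS.pow_of_le (f := fun _ => 3) (by fun_prop) hd hC h3C
  have hbdL : LS (fun a => b a ^ d a) := LS.pow_of_le hb hd hC hbC
  unfold LinSpace.stepF
  refine LS.tab (q := fun a => 2 ^ s a) (m := fun a => 3 ^ d a * b a ^ d a) (C := C)
    (d := fun a idx => LinSpace.dig (2 ^ s a) (T a) (LinSpace.tab (2 ^ s a) (3 ^ d a) fun δ =>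
      LinSpace.dig (2 ^ s a) (r a) (LinSpace.nbN (d a) (b a) idx δ))) ?_ h2s (LS.mul h3d hbdL) hC
    (fun a _ _ => dig_lt (by positivity) _ _) hbd
  have h2s' : LS (fun z : α × ℕ => 2 ^ s z.1) := LS.comp (f := fun z : α × ℕ => z.1) h2s
    (by fun_prop)
  refine LS.dig h2s' (by fun_prop) ?_
  refine LS.tab (q := fun z : α × ℕ => 2 ^ s z.1) (m := fun z => 3 ^ d z.1) (C := fun z => C z.1)
    (d := fun z δ => LinSpace.dig (2 ^ s z.1) (r z.1) (LinSpace.nbN (d z.1) (b z.1) z.2 δ)) ?_ h2s'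
    (LS.comp (f := fun z : α × ℕ => z.1) h3d (by fun_prop)) (by fun_prop)
    (fun a _ _ => dig_lt (by positivity) _ _)
    (fun z => (small_pow_le (hb0 z.1) (hbd z.1)).2.1)
  have h2s'' : LS (fun z : (α × ℕ) × ℕ => 2 ^ s z.1.1) :=
    LS.comp (f := fun z : (α × ℕ) × ℕ => z.1.1) h2s (by fun_prop)
  refine LS.dig h2s'' (by fun_prop) ?_
  exact LS.nbNV (d := fun z : (α × ℕ) × ℕ => d z.1.1) (b := fun z => b z.1.1)
    (idx := fun z => z.1.2) (δ := fun z => z.2) (C := fun z => C z.1.1)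
    (by fun_prop) (by fun_prop) (by fun_prop) (by fun_prop) (by fun_prop)
    (fun z => hb0 z.1.1) (fun z => hbC z.1.1) (fun z => h3C z.1.1)

theorem LS.FNV {d b s T r C : α → ℕ} (hd : LS d) (hb : LS b) (hs : LS s) (hT : LS T)
    (hr : LS r) (hC : LS C) (hb0 : ∀ a, 0 < b a) (hbC : ∀ a, b a ^ d a ≤ C a)
    (h3C : ∀ a, 3 ^ d a ≤ C a) (hbd : ∀ a, (2 ^ s a) ^ (3 ^ d a * b a ^ d a) ≤ C a) :
    LS (fun a => LinSpace.FN (d a) (b a) (s a) (T a) (r a)) := by
  unfold LinSpace.FN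
  have hbdL : LS (fun a => b a ^ d a) := LS.pow_of_le hb hd hC hbC
  have h1 : LS (fun a => 2 ^ (b a ^ d a * s a)) :=
    LS.pow_of_le (f := fun _ => 2) (by fun_prop) (LS.mul hbdL hs) hC
      fun a => (small_pow_le (hb0 a) (hbd a)).2.2.2
  have h4 : LS (fun a => LinSpace.tab 3 (d a) fun _ => 1) := by
    refine LS.tab (q := fun _ => 3) (m := d) (C := C) (d := fun _ _ => 1) (by fun_prop)
      (by fun_prop) hd hC (fun _ _ _ => by norm_num) h3C
  refine LS.dig h1 ?_ h4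
  refine LS.nrec (G := r) (N := b) (C := fun a => C a + r a)
    (K := fun a _ x => LinSpace.stepF (d a) (b a) (s a) (T a) x) hr hb (by fun_prop) ?_ ?_
  · exact LS.stepFV (d := fun z : α × ℕ × ℕ => d z.1) (b := fun z => b z.1) (s := fun z => s z.1)
      (T := fun z => T z.1) (r := fun z => z.2.2) (C := fun z => C z.1) (by fun_prop)
      (by fun_prop) (by fun_prop) (by fun_prop)
      (by fun_prop) (by fun_prop) (fun z => hb0 z.1) (fun z => hbC z.1) (fun z => h3C z.1)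
      (fun z => hbd z.1)
  · intro a i _
    rcases i with _ | i
    · exact Nat.le_add_left _ _
    · rw [nrec_succ]
      have : LinSpace.stepF (d a) (b a) (s a) (T a) (LinSpace.nrec (r a)
        (fun _ x => LinSpace.stepF (d a) (b a) (s a) (T a) x) i) <
          (2 ^ s a) ^ (3 ^ d a * b a ^ d a) :=
        tab_lt fun _ _ => dig_lt (by positivity) _ _
      have := hbd a
      omega

theorem LS.chNV {d W u i C : α → ℕ} (hd : LS d) (hW : LS W) (hu : LS u) (hi : LS i) (hC : LS C)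
    (hW3 : ∀ a, 3 ≤ W a) (hWC : ∀ a, W a ^ d a ≤ C a) :
    LS (fun a => LinSpace.chN (d a) (W a) (u a) (i a)) := by
  unfold LinSpace.chN
  have h1 : LS (fun a => LinSpace.tab (W a) (d a) (LinSpace.dig 3 (i a))) := by
    refine LS.tab (q := W) (m := d) (C := C)
      (d := fun a e => LinSpace.dig 3 (i a) e) (by fun_prop) hW hd hC
      (fun a e _ => ?_) hWC
    have := dig_lt (q := 3) (by norm_num) (i a) e
    have := hW3 a
    omega
  have h2 : LS (fun a => LinSpace.tab (W a) (d a) (fun _ => 1)) := by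
    refine LS.tab (q := W) (m := d) (C := C)
      (d := fun a e => 1) (by fun_prop) hW hd hC
      (fun a e _ => ?_) hWC
    have := hW3 a
    omega
  exact LS.sub (LS.add hu h1) h2

theorem LS.symNV {d x HB : α → ℕ} {Z : α → ℕ → ℕ} (hd : LS d) (hx : LS x) (hHB : LS HB)
    (hZ : LS (fun z : α × ℕ => Z z.1 z.2)) : LS (fun a => LinSpace.symN (d a) (x a) (HB a) (Z a)) := by
  unfold LinSpace.symN
  have h0 : LS (fun a => Z a 0) := LS.comp (f := fun a => (a, 0)) hZ (by fun_prop)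
  have h1 : LS (fun a => ∑ e ∈ range (d a),
      LinSpace.ifz e 0 (1 - LinSpace.eq01 (Z a e) (HB a))) := by
    refine LS.sum_le (N := d) (B := fun _ => 1)
      (f := fun a e => LinSpace.ifz e 0 (1 - LinSpace.eq01 (Z a e) (HB a))) ?_ hd
      (by fun_prop) ?_
    · have h2 := LS.eq01 hZ (LS.comp (f := fun z : α × ℕ => z.1) hHB (by fun_prop))
      exact LS.ifz (by fun_prop) (by fun_prop) (LS.sub (LS.const 1) h2)
    · intro a i _
      simp only [LinSpace.ifz]
      split_ifs <;> omega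
  have h3 : LS (fun a => LinSpace.ifz (∑ e ∈ range (d a),
      LinSpace.ifz e 0 (1 - LinSpace.eq01 (Z a e) (HB a))) 1 0) :=
    LS.ifz h1 (LS.const 1) (LS.const 0)
  have h4 := LS.le01 hHB h0
  have h5 : LS (fun a => Z a 0 - HB a) := LS.sub h0 hHB
  have h6 := LS.lt01 h5 (LS.log2 hx)
  have h7 : LS (fun a => 1 + LinSpace.dig 2 (x a) (Z a 0 - HB a)) :=
    LS.add (LS.const 1) (LS.dig (LS.const 2) hx h5)
  exact LS.mul (LS.mul (LS.mul h3 h4) h6) h7

theorem LS.leafNV {d b s H W ini x y u C : α → ℕ} (hd : LS d) (hb : LS b) (hs : LS s)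
    (hH : LS H) (hW : LS W) (hini : LS ini) (hx : LS x) (hy : LS y) (hu : LS u) (hC : LS C)
    (hb0 : ∀ a, 0 < b a) (hbC : ∀ a, b a ^ d a ≤ C a)
    (hbd : ∀ a, (2 ^ s a) ^ (b a ^ d a) ≤ C a) :
    LS (fun a => LinSpace.leafN (d a) (b a) (s a) (H a) (W a) (ini a) (x a) (y a) (u a)) := by
  have hpos : ∀ a, 0 < b a ^ d a := fun a => Nat.pow_pos (hb0 a)
  have hle1 : ∀ a, 2 ^ s a ≤ C a := fun a =>
    (Nat.le_self_pow (hpos a).ne' _).trans (hbd a)
  have h2s : LS (fun a => 2 ^ s a) := LS.pow_of_le (f := fun _ => 2) (by fun_prop) hs hC hle1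
  have hbdL : LS (fun a => b a ^ d a) := LS.pow_of_le hb hd hC hbC
  unfold LinSpace.leafN
  refine LS.tab (q := fun a => 2 ^ s a) (m := fun a => b a ^ d a) (C := C)
    (d := fun a c => LinSpace.dig (2 ^ s a) (ini a)
    (3 * LinSpace.symN (d a) (x a) (H a * b a) (fun e => LinSpace.dig (W a) (u a) e * b a +
      LinSpace.dig (b a) c e) + LinSpace.symN (d a) (y a) (H a * b a)
      (fun e => LinSpace.dig (W a) (u a) e * b a + LinSpace.dig (b a) c e))) ?_ h2s hbdL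
    hC (fun a _ _ => dig_lt (by positivity) _ _) hbd
  have h2s' : LS (fun z : α × ℕ => 2 ^ s z.1) := LS.comp (f := fun z : α × ℕ => z.1) h2s
    (by fun_prop)
  have h3 : LS (fun z : (α × ℕ) × ℕ => LinSpace.dig (W z.1.1) (u z.1.1) z.2 * b z.1.1 +
      LinSpace.dig (b z.1.1) z.1.2 z.2) := by fun_prop
  have h4 : LS (fun z : α × ℕ => LinSpace.symN (d z.1) (x z.1) (H z.1 * b z.1) (fun e =>
      LinSpace.dig (W z.1) (u z.1) e * b z.1 + LinSpace.dig (b z.1) z.2 e)) :=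
    LS.symNV (d := fun z : α × ℕ => d z.1) (x := fun z => x z.1) (HB := fun z => H z.1 * b z.1)
      (Z := fun z e => LinSpace.dig (W z.1) (u z.1) e * b z.1 + LinSpace.dig (b z.1) z.2 e)
      (by fun_prop) (by fun_prop) (by fun_prop) h3
  have h5 : LS (fun z : α × ℕ => LinSpace.symN (d z.1) (y z.1) (H z.1 * b z.1) (fun e =>
      LinSpace.dig (W z.1) (u z.1) e * b z.1 + LinSpace.dig (b z.1) z.2 e)) :=
    LS.symNV (d := fun z : α × ℕ => d z.1) (x := fun z => y z.1) (HB := fun z => H z.1 * b z.1)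
      (Z := fun z e => LinSpace.dig (W z.1) (u z.1) e * b z.1 + LinSpace.dig (b z.1) z.2 e)
      (by fun_prop) (by fun_prop) (by fun_prop) h3
  exact LS.dig h2s' (by fun_prop) (LS.add (LS.mul (LS.const 3) h4) h5)

end Pool.Agent.Helper65.LinSpace
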