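import Pool.Agent.Helper65.LinSpace.Cells

/-!
# Coding of cellular automata by numbers
-/

namespace Pool.Agent.Helper65.LinSpace

open Finset

/-! ### Words and numbers -/

theorem num_pos (w : List Bool) : 0 < num w := by
  induction w with
  | nil => exact Nat.one_pos
  | cons b w ih =>
    show 0 < b.toNat + 2 * num w
    omega

theorem toNat_le_one (b : Bool) : b.toNat ≤ 1 := by cases b <;> simp

theorem log_num (w : List Bool) : Nat.log 2 (num w) = w.length := by
  induction w with
  | nil => simp [num]
  | cons b w ih =>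
    have h1 := num_pos w
    have h2 := toNat_le_one b
    have h3 : num (b :: w) = b.toNat + 2 * num w := rfl
    rw [Nat.log_of_one_lt_of_le (by norm_num) (by rw [h3]; omega), h3]
    have h4 : (b.toNat + 2 * num w) / 2 = num w := by omega
    rw [h4, ih]
    rfl

theorem dig_num (w : List Bool) (i : ℕ) (hi : i < w.length) : dig 2 (num w) i = w[i].toNat := by
  induction w generalizing i with
  | nil => simp at hi
  | cons b w ih =>
    have h2 := toNat_le_one b
    have h3 : num (b :: w) = b.toNat + 2 * num w := rfl
    rcases i with _ | i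
    · rw [dig_zero, h3]
      show _ = b.toNat
      omega
    · rw [dig_succ, h3]
      have h4 : (b.toNat + 2 * num w) / 2 = num w := by omega
      rw [h4]
      simpa using ih i (by simpa using hi)

theorem exists_num {y : ℕ} (hy : 0 < y) : ∃ v : List Bool, num v = y := by
  induction y using Nat.strong_induction_on with
  | _ y ih =>
    rcases Nat.lt_or_ge y 2 with h | h
    · exact ⟨[], by simp only [num]; omega⟩
    · obtain ⟨v, hv⟩ := ih (y / 2) (by omega) (by omega)
      rcases Nat.mod_two_eq_zero_or_one y with h1 | h1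
      · exact ⟨false :: v, by simp only [num, hv, Bool.toNat_false]; omega⟩
      · exact ⟨true :: v, by simp only [num, hv, Bool.toNat_true]; omega⟩

/-- The code of an optional letter. -/
def codeO : Option Bool → ℕ
  | none => 0
  | some b => 1 + b.toNat

theorem sy_num {d : ℕ} [NeZero d] (w : List Bool) (z : Fin d → ℤ) :
    sy (num w) z = codeO (cellBit w z) := by
  unfold sy cellBit
  rw [log_num]
  by_cases h1 : (∀ j : Fin d, j ≠ 0 → z j = 0) ∧ 0 ≤ z 0
  · rw [if_pos h1]
    by_cases h2 : (z 0).toNat < w.length
    · rw [if_pos ⟨h1.1, h1.2, h2⟩, List.getElem?_eq_getElem h2, dig_num w _ h2]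
      rfl
    · rw [if_neg (fun h => h2 h.2.2), List.getElem?_eq_none (by omega)]
      rfl
  · rw [if_neg h1, if_neg (fun h => h1 ⟨h.1, h.2.1⟩)]
    rfl

/-! ### Latched automata -/

/-- The automaton which remembers whether the cell has been in an accepting state. -/
noncomputable def CA.latch {d : ℕ} (A : CA d) : CA d := open Classical in
  haveI := A.finState
  { State := A.State × Bool
    rule := fun f =>
      (A.rule fun δ => (f δ).1, (f fun _ => 1).2 || decide ((A.rule fun δ => (f δ).1) ∈ A.accept))
    init := fun a b => (A.init a b, decide (A.init a b ∈ A.accept))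
    accept := {q | q.2 = true} }

theorem latch_config {d : ℕ} [NeZero d] (A : CA d) (w y : List Bool) (t : ℕ) (z : Fin d → ℤ) :
    (A.latch.config w y t z).1 = A.config w y t z ∧
      ((A.latch.config w y t z).2 = true ↔ ∃ t' ≤ t, A.config w y t' z ∈ A.accept) := by
  classical
  induction t generalizing z with
  | zero =>
    refine ⟨rfl, ?_⟩
    constructor
    · intro h
      exact ⟨0, le_rfl, of_decide_eq_true h⟩
    · rintro ⟨t', ht', h⟩
      obtain rfl : t' = 0 := by omega
      exact decide_eq_true h
  | succ t ih =>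
    have h1 : (A.latch.config w y (t + 1) z).1 = A.config w y (t + 1) z := by
      show A.rule (fun δ => (A.latch.config w y t (fun i => z i + ((δ i : ℕ) : ℤ) - 1)).1) =
        A.rule fun δ => A.config w y t fun i => z i + ((δ i : ℕ) : ℤ) - 1
      congr 1
      funext δ
      exact (ih _).1
    refine ⟨h1, ?_⟩
    have h2 : (A.latch.config w y (t + 1) z).2 =
        ((A.latch.config w y t z).2 || decide (A.config w y (t + 1) z ∈ A.accept)) := by
      show ((A.latch.config w y t (fun i => z i + (((fun _ => 1 : Fin d → Fin 3) i : ℕ) : ℤ) -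
        1)).2 || decide ((A.latch.config w y (t + 1) z).1 ∈ A.accept)) = _
      rw [h1]
      congr 2
      congr 1
      funext i
      simp
    rw [h2, Bool.or_eq_true, decide_eq_true_iff, (ih z).2]
    constructor
    · rintro (⟨t', ht', h⟩ | h)
      · exact ⟨t', by omega, h⟩
      · exact ⟨t + 1, le_rfl, h⟩
    · rintro ⟨t', ht', h⟩
      rcases Nat.lt_or_ge t t' with h3 | h3
      · obtain rfl : t' = t + 1 := by omega
        exact Or.inr h
      · exact Or.inl ⟨t', h3, h⟩

/-! ### Tables -/

/-- The code of a shift. -/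
def codeD {d : ℕ} (δ : Fin d → Fin 3) : ℕ := tab 3 d fun e => if h : e < d then δ ⟨e, h⟩ else 0

theorem codeD_lt {d : ℕ} (δ : Fin d → Fin 3) : codeD δ < 3 ^ d := tab_lt fun e he => by
  rw [dif_pos he]
  exact (δ _).2

theorem dig_codeD {d : ℕ} (δ : Fin d → Fin 3) (e : Fin d) : dig 3 (codeD δ) e = δ e := by
  rw [codeD, dig_tab _ e.2, dif_pos e.2]
  intro i hi
  rw [dif_pos hi]
  exact (δ _).2

theorem exists_code {d : ℕ} [NeZero d] (A : CA d) : ∃ s T ini acc : ℕ, 1 ≤ s ∧
    ∀ w v : List Bool, ∀ t : ℕ, dig 2 acc (ccfg (d := d) s T ini (num w) (num v) t 0) = 1 ↔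
      ∃ t' ≤ t, A.config w v t' 0 ∈ A.accept := by
  classical
  have := A.latch.finState
  obtain ⟨N, ⟨eq⟩⟩ := Finite.exists_equiv_fin A.latch.State
  have hN : 0 < N := by
    have h := (eq (A.latch.init none none)).2
    omega
  let s := N
  have hNs : N < 2 ^ s := Nat.lt_two_pow_self
  let enc : A.latch.State → ℕ := fun q => (eq q : ℕ)
  have henc : ∀ q, enc q < 2 ^ s := fun q => lt_trans (eq q).2 hNs
  let dec : ℕ → A.latch.State := fun m => if h : m < N then eq.symm ⟨m, h⟩ else
    A.latch.init none none
  have hdec : ∀ q, dec (enc q) = q := fun q => by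
    have h : enc q < N := (eq q).2
    show (if h : enc q < N then eq.symm ⟨enc q, h⟩ else _) = q
    rw [dif_pos h]
    exact eq.symm_apply_apply q
  let T := tab (2 ^ s) ((2 ^ s) ^ 3 ^ d) fun idx =>
    enc (A.latch.rule fun δ => dec (dig (2 ^ s) idx (codeD δ)))
  let opt : ℕ → Option Bool := fun i => if i = 0 then none else if i = 1 then some false
    else some true
  have hopt : ∀ o, opt (codeO o) = o := by
    intro o
    rcases o with _ | _ | _ <;> rfl
  have hcode : ∀ o, codeO o < 3 := by
    intro o
    rcases o with _ | _ | _ <;> simp [codeO]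
  let ini := tab (2 ^ s) 9 fun i => enc (A.latch.init (opt (i / 3)) (opt (i % 3)))
  let acc := tab 2 (2 ^ s) fun m => if (dec m).2 = true then 1 else 0
  have hacc : ∀ q : A.latch.State, dig 2 acc (enc q) = if q.2 = true then 1 else 0 := by
    intro q
    rw [dig_tab _ (henc q), hdec]
    intro i _
    split_ifs <;> norm_num
  have key : ∀ (w v : List Bool) (t : ℕ) (z : Fin d → ℤ),
      ccfg (d := d) s T ini (num w) (num v) t z = enc (A.latch.config w v t z) := by
    intro w v t
    induction t with
    | zero =>
      intro z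
      have h1 := hcode (cellBit w z)
      have h2 := hcode (cellBit v z)
      rw [ccfg, sy_num, sy_num, dig_tab (fun _ _ => henc _) (by omega)]
      have h3 : (3 * codeO (cellBit w z) + codeO (cellBit v z)) / 3 = codeO (cellBit w z) := by
        omega
      have h4 : (3 * codeO (cellBit w z) + codeO (cellBit v z)) % 3 = codeO (cellBit v z) := by
        omega
      rw [h3, h4, hopt, hopt]
      rfl
    | succ t ih =>
      intro z
      rw [ccfg, dig_tab (fun _ _ => henc _) (tab_lt fun _ _ => ccfg_lt _ _ _ _ _ _ _)]
      congr 1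
      show A.latch.rule _ = A.latch.rule _
      congr 1
      funext δ
      rw [dig_tab (fun _ _ => ccfg_lt _ _ _ _ _ _ _) (codeD_lt δ), ih, hdec]
      congr 1
      funext i
      show z i + ((dig 3 (codeD δ) i : ℤ) - 1) = _
      rw [dig_codeD]
      ring
  refine ⟨s, T, ini, acc, hN, fun w v t => ?_⟩
  rw [key, hacc]
  rw [← (latch_config A w v t 0).2]
  split_ifs with h
  · simp [h]
  · simp [h]

end Pool.Agent.Helper65.LinSpace
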