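import Pool.Agent.Helper65.LinSpace.ParamV
import Pool.Agent.Helper65.LinSpace.Words
import Pool.Agent.Helper65.LinSpace.Arith3

/-!
# A universal function for cellular automata of all dimensions
-/

namespace Pool.Agent.Helper65.LinSpace

open Finset

/-- The codes of the dimension, the size of the states, the rule, the initial states and the
accepting states. -/
def eD (e : ℕ) : ℕ := (Nat.unpair e).1
@[inherit_doc eD] def eS (e : ℕ) : ℕ := (Nat.unpair (Nat.unpair e).2).1
@[inherit_doc eD] def eT (e : ℕ) : ℕ := (Nat.unpair (Nat.unpair (Nat.unpair e).2).2).1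
@[inherit_doc eD] def eI (e : ℕ) : ℕ :=
  (Nat.unpair (Nat.unpair (Nat.unpair (Nat.unpair e).2).2).2).1
@[inherit_doc eD] def eA (e : ℕ) : ℕ :=
  (Nat.unpair (Nat.unpair (Nat.unpair (Nat.unpair e).2).2).2).2

/-- The code of an automaton. -/
def mkE (d s T ini acc : ℕ) : ℕ := Nat.pair d (Nat.pair s (Nat.pair T (Nat.pair ini acc)))

@[simp] theorem eD_mkE (d s T ini acc : ℕ) : eD (mkE d s T ini acc) = d := by simp [eD, mkE]
@[simp] theorem eS_mkE (d s T ini acc : ℕ) : eS (mkE d s T ini acc) = s := by simp [eS, mkE]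
@[simp] theorem eT_mkE (d s T ini acc : ℕ) : eT (mkE d s T ini acc) = T := by simp [eT, mkE]
@[simp] theorem eI_mkE (d s T ini acc : ℕ) : eI (mkE d s T ini acc) = ini := by simp [eI, mkE]
@[simp] theorem eA_mkE (d s T ini acc : ℕ) : eA (mkE d s T ini acc) = acc := by simp [eA, mkE]

/-- `1` if the dimension and the number of states are small compared with the input. -/
def okE (e n : ℕ) : ℕ := small n (eD e) * (le01 1 (eS e) * le01 (eS e) (mm n))

/-- The number of the concatenation of the words with numbers `a` and `y`. -/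
def cat (a y : ℕ) : ℕ := a - 2 ^ Nat.log 2 a + 2 ^ Nat.log 2 a * y

/-- The number of guesses accepted by the automaton with code `e` on the input `x` with the
advice `a`. -/
noncomputable def UU (K e a x : ℕ) : ℕ :=
  okE e (Nat.log 2 x) * ∑ y ∈ range (2 ^ (K * (Nat.log 2 x + 1))), lt01 0 y *
    dig 2 (eA e) (simN (dd (Nat.log 2 x) (eD e)) (eS e) (eT e) (eI e) x (cat a y))

section

variable {α : Type} [Ctx α] {e a x : α → ℕ} (he : LS e) (ha : LS a) (hx : LS x)

include he

@[fun_prop]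
theorem LS.eD : LS (fun a => LinSpace.eD (e a)) := by
  unfold LinSpace.eD
  fun_prop

@[fun_prop]
theorem LS.eS : LS (fun a => LinSpace.eS (e a)) := by
  unfold LinSpace.eS
  fun_prop

@[fun_prop]
theorem LS.eT : LS (fun a => LinSpace.eT (e a)) := by
  unfold LinSpace.eT
  fun_prop

@[fun_prop]
theorem LS.eI : LS (fun a => LinSpace.eI (e a)) := by
  unfold LinSpace.eI
  fun_prop

@[fun_prop]
theorem LS.eA : LS (fun a => LinSpace.eA (e a)) := by
  unfold LinSpace.eA
  fun_prop

include ha hx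

omit he in
theorem LS.cat : LS (fun z => LinSpace.cat (a z) (x z)) := by
  unfold LinSpace.cat
  have h : LS (fun z => 2 ^ Nat.log 2 (a z)) :=
    LS.pow_of_le (f := fun _ => 2) (C := fun z => a z + 1) (LS.const 2) (LS.log2 ha) (by fun_prop)
      fun z => pow_log_le _
  exact LS.add (LS.sub ha h) (LS.mul h hx)

theorem LS.UU (K : ℕ) : LS (fun z => LinSpace.UU K (e z) (a z) (x z)) := by
  unfold LinSpace.UU
  refine LS.mul ?_ ?_
  · unfold LinSpace.okE
    fun_prop
  refine LS.sum_le (N := fun a => 2 ^ (K * (Nat.log 2 (x a) + 1))) (B := fun _ => 1)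
    (f := fun z y => LinSpace.lt01 0 y *
    LinSpace.dig 2 (LinSpace.eA (e z)) (LinSpace.simN (LinSpace.dd (Nat.log 2 (x z))
      (LinSpace.eD (e z))) (LinSpace.eS (e z)) (LinSpace.eT (e z)) (LinSpace.eI (e z)) (x z)
      (LinSpace.cat (a z) y))) ?_
    (LS.pow_of_le (f := fun _ => 2) (C := fun a => (x a + 2) ^ (2 * K)) (LS.const 2)
      (by fun_prop) (by fun_prop) (fun a => two_pow_log_le (x a) K)) (LS.const 1) ?_
  · have h0 : LS (fun z : α × ℕ => LinSpace.cat (a z.1) z.2) :=
      LS.cat (a := fun z : α × ℕ => a z.1) (x := fun z => z.2) (by fun_prop) (by fun_prop)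
    have h1 := LS.simN (α := α × ℕ) (d := fun z => LinSpace.dd (Nat.log 2 (x z.1))
      (LinSpace.eD (e z.1))) (s := fun z => LinSpace.eS (e z.1))
      (T := fun z => LinSpace.eT (e z.1))
      (ini := fun z => LinSpace.eI (e z.1))
      (x := fun z => x z.1) (y := fun z => LinSpace.cat (a z.1) z.2) (by fun_prop) (by fun_prop)
      (by fun_prop) (by fun_prop) (by fun_prop) h0 (fun z => (dd_spec _ _).1)
      (fun z => (dd_spec _ _).2)
    have h2 : LS (fun z : α × ℕ => LinSpace.eA (e z.1)) := by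
      fun_prop
    exact LS.mul (LS.lt01 (LS.const 0) LS.snd) (LS.dig (LS.const 2) h2 h1)
  · intro z y _
    have h1 : LinSpace.lt01 0 y ≤ 1 := by
      unfold LinSpace.lt01
      split_ifs <;> omega
    have h2 := dig_lt (q := 2) (by norm_num) (LinSpace.eA (e z))
      (LinSpace.simN (LinSpace.dd (Nat.log 2 (x z)) (LinSpace.eD (e z))) (LinSpace.eS (e z))
        (LinSpace.eT (e z)) (LinSpace.eI (e z)) (x z) (LinSpace.cat (a z) y))
    calc _ ≤ 1 * 1 := Nat.mul_le_mul h1 (by omega)
      _ = 1 := rfl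

end

theorem num_append (a v : List Bool) : num (a ++ v) = cat (num a) (num v) := by
  unfold cat
  rw [log_num]
  induction a with
  | nil => simp [num]
  | cons b a ih =>
    have h1 : num (b :: (a ++ v)) = b.toNat + 2 * num (a ++ v) := rfl
    have h2 : num (b :: a) = b.toNat + 2 * num a := rfl
    have h3 : 2 ^ a.length ≤ num a := by
      have := Nat.pow_log_le_self 2 (show num a ≠ 0 from (num_pos a).ne')
      rwa [log_num] at this
    rw [List.cons_append, h1, ih, h2, List.length_cons, pow_succ]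
    have h4 : 2 ^ a.length * 2 * num v = 2 * (2 ^ a.length * num v) := by ring
    rw [h4]
    generalize 2 ^ a.length * num v = z
    omega

theorem okE_iff {e n : ℕ} : okE e n ≠ 0 ↔ (eD e ≠ 0 ∧ 3 ^ eD e ≤ mm n) ∧ 1 ≤ eS e ∧
    eS e ≤ mm n := by
  unfold okE
  rw [mul_ne_zero_iff, small_iff, mul_ne_zero_iff]
  refine and_congr_right fun _ => ?_
  simp only [le01]
  split_ifs <;> simp_all

theorem ev_le_mm (k : ℕ) {n : ℕ} (hn : 2 ^ 2 ^ k ≤ n) : k ≤ mm n := by
  have h1 : 2 ^ k ≤ ll n := by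
    have := Nat.log_mono_right (b := 2) hn
    rw [Nat.log_pow (by norm_num)] at this
    unfold ll
    omega
  have h2 := Nat.log_mono_right (b := 2) h1
  rw [Nat.log_pow (by norm_num)] at h2
  unfold mm
  rw [ll]
  omega

/-- Every cellular automaton has a code. -/
theorem exists_UU {d : ℕ} [NeZero d] (A : CA d) : ∃ e n₀ : ℕ, ∀ K : ℕ, 1 ≤ K →
    (∀ w a : List Bool, UU K e (num a) (num w) ≠ 0 → ∃ v t, A.config w (a ++ v) t 0 ∈ A.accept) ∧
    ∀ w a : List Bool, n₀ ≤ w.length → ∀ v : List Bool, v.length ≤ K * w.length →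
      ∀ t ≤ hh w.length * bb d w.length, A.config w (a ++ v) t 0 ∈ A.accept →
        UU K e (num a) (num w) ≠ 0 := by
  have hd : d ≠ 0 := NeZero.ne d
  obtain ⟨s, T, ini, acc, hs, hcode⟩ := exists_code A
  refine ⟨mkE d s T ini acc, 2 ^ 2 ^ (s + 3 ^ d), fun K hK => ⟨fun w a hne => ?_,
    fun w a hw v hv t ht hacc => ?_⟩⟩
  · unfold UU at hne
    rw [mul_ne_zero_iff, okE_iff] at hne
    simp only [eD_mkE, eS_mkE, eT_mkE, eI_mkE, eA_mkE] at hne
    obtain ⟨⟨⟨_, h3⟩, h4, h5⟩, h6⟩ := hne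
    rw [dd_eq hd h3, Ne, sum_eq_zero_iff] at h6
    push Not at h6
    obtain ⟨y, hy, hne⟩ := h6
    have hy0 : 0 < y := by
      by_contra h
      apply hne
      rw [lt01, if_neg h, zero_mul]
    obtain ⟨v, rfl⟩ := exists_num hy0
    rw [← num_append] at hne
    have h1 : dig 2 acc (simN d s T ini (num w) (num (a ++ v))) = 1 := by
      rcases dig_two acc (simN d s T ini (num w) (num (a ++ v))) with h | h
      · exact absurd (by rw [h, mul_zero]) hne
      · exact h
    rw [simN_eq h4 h5, hcode, log_num] at h1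
    obtain ⟨t, _, h⟩ := h1
    exact ⟨v, t, h⟩
  · have hmm := ev_le_mm _ hw
    have h3 : 3 ^ d ≤ mm w.length := (Nat.le_add_left _ _).trans hmm
    have h4 : s ≤ mm w.length := (Nat.le_add_right _ _).trans hmm
    unfold UU
    rw [mul_ne_zero_iff, okE_iff]
    simp only [eD_mkE, eS_mkE, eT_mkE, eI_mkE, eA_mkE]
    rw [log_num]
    refine ⟨⟨⟨hd, h3⟩, hs, h4⟩, ?_⟩
    rw [dd_eq hd h3, Ne, sum_eq_zero_iff]
    push Not
    refine ⟨num v, ?_, ?_⟩
    · rw [mem_range]
      have h2 := Nat.lt_pow_succ_log_self (b := 2) (by norm_num) (num v)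
      rw [log_num] at h2
      refine lt_of_lt_of_le h2 (Nat.pow_le_pow_right (by norm_num) ?_)
      rw [Nat.mul_succ]
      omega
    · have h2 : dig 2 acc (simN d s T ini (num w) (num (a ++ v))) = 1 := by
        rw [simN_eq hs (by rw [log_num]; exact h4), hcode, log_num]
        exact ⟨t, ht, hacc⟩
      rw [← num_append, h2, lt01, if_pos (num_pos v)]
      norm_num

/-- Codes of automata which accept everything. -/
def trivE (k : ℕ) : ℕ := mkE 1 1 0 0 (3 + 4 * k)

theorem trivE_injective : Function.Injective trivE := by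
  intro k k' h
  have := congrArg eA h
  simp only [trivE, eA_mkE] at this
  omega

theorem UU_trivE (k a : ℕ) {x : ℕ} (hx : 3 ≤ mm (Nat.log 2 x)) : UU 1 (trivE k) a x ≠ 0 := by
  unfold UU
  rw [mul_ne_zero_iff, okE_iff]
  simp only [trivE, eD_mkE, eS_mkE, eT_mkE, eI_mkE, eA_mkE]
  refine ⟨⟨⟨one_ne_zero, by omega⟩, le_rfl, by omega⟩, ?_⟩
  rw [dd_eq one_ne_zero (by omega), Ne, sum_eq_zero_iff]
  push Not
  refine ⟨1, ?_, ?_⟩
  · rw [mem_range]
    exact Nat.one_lt_pow (by omega) (by norm_num)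
  · rw [simN_eq (d := 1) le_rfl (by omega)]
    have h1 := ccfg_lt (d := 1) 1 0 0 x (cat a 1) (hh (Nat.log 2 x) * bb 1 (Nat.log 2 x)) 0
    have h2 : dig 2 (3 + 4 * k) (ccfg (d := 1) 1 0 0 x (cat a 1)
        (hh (Nat.log 2 x) * bb 1 (Nat.log 2 x)) 0) = 1 := by
      generalize ccfg (d := 1) 1 0 0 x (cat a 1) (hh (Nat.log 2 x) * bb 1 (Nat.log 2 x)) 0 = c at *
      obtain rfl | rfl : c = 0 ∨ c = 1 := by omega
      · rw [dig_zero]
        omega
      · rw [dig_succ, dig_zero]
        omega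
    rw [h2]
    simp [lt01]

end Pool.Agent.Helper65.LinSpace
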