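import Mathlib

/-!
# Linear space and cellular automata: definitions
-/

namespace Pool.Agent.Helper65.LinSpace

/-- A move of a head. -/
inductive Dir
  | left
  | stay
  | right

/-- The displacement of a work head. -/
def Dir.toInt : Dir → ℤ
  | .left => -1
  | .stay => 0
  | .right => 1

/-- A deterministic Turing machine with a read-only input tape and `k` work tapes.
`step q a s` is the action in state `q` when the input head reads `a` (`none` at both ends of the
input) and the work heads read `s`: the new state, the move of the input head, and for each work
tape the written symbol and the move of the head; `none` means that the machine halts. -/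
structure TM (k : ℕ) where
  State : Type
  Sym : Type
  [finState : Finite State]
  [finSym : Finite Sym]
  start : State
  blank : Sym
  accept : Set State
  step : State → Option Bool → (Fin k → Sym) → Option (State × Dir × (Fin k → Sym × Dir))

/-- Configurations of a Turing machine; the input head is at a position in `0, …, n + 1`. -/
structure TM.Cfg {k : ℕ} (M : TM k) where
  state : M.State
  inp : ℕ
  tape : Fin k → ℤ → M.Sym
  head : Fin k → ℤ

/-- The symbol of the input tape at position `i`: the letters of the input `w` are at the positions
`1, …, n`, and the two ends `0` and `n + 1` carry `none`. -/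
def inputSym (w : List Bool) (i : ℕ) : Option Bool := if i = 0 then none else w[i - 1]?

/-- The move of the input head, which stays between the positions `0` and `n + 1`. -/
def inputMove (w : List Bool) : Dir → ℕ → ℕ
  | .left, i => i - 1
  | .stay, i => i
  | .right, i => min (i + 1) (w.length + 1)

/-- One step of the machine on input `w`; `none` if the machine halts. -/
def TM.next {k : ℕ} (M : TM k) (w : List Bool) (c : M.Cfg) : Option M.Cfg :=
  (M.step c.state (inputSym w c.inp) (fun i => c.tape i (c.head i))).map fun a =>
    { state := a.1
      inp := inputMove w a.2.1 c.inp
      tape := fun i => Function.update (c.tape i) (c.head i) (a.2.2 i).1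
      head := fun i => c.head i + (a.2.2 i).2.toInt }

/-- The configuration after `t` steps on input `w` (a halted machine keeps its configuration). -/
def TM.run {k : ℕ} (M : TM k) (w : List Bool) : ℕ → M.Cfg
  | 0 => { state := M.start, inp := 0, tape := fun _ _ => M.blank, head := fun _ => 0 }
  | t + 1 => (M.next w (M.run w t)).getD (M.run w t)

/-- `L` is in `DSPACE(n)`: some deterministic machine halts on every input, accepts exactly the
words of `L`, and on every input `w` its work heads stay within distance `c (|w| + 1)` of their
initial cells. -/
def DLINSPACE (L : Set (List Bool)) : Prop :=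
  ∃ (k : ℕ) (M : TM k) (c : ℕ), ∀ w : List Bool,
    (∃ t, M.next w (M.run w t) = none ∧ (w ∈ L ↔ (M.run w t).state ∈ M.accept)) ∧
    ∀ t i, |(M.run w t).head i| ≤ c * (w.length + 1)

/-- A `d`-dimensional cellular automaton with cells `ℤ^d`. The new state of a cell is a function of
the states of the `3^d` cells `z + δ - (1, …, 1)`, `δ ∈ {0, 1, 2}^d`. The initial state of a cell
depends on the letters of the two input words `w` and `y` written at it. -/
structure CA (d : ℕ) where
  State : Type
  [finState : Finite State]
  rule : ((Fin d → Fin 3) → State) → State
  init : Option Bool → Option Bool → State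
  accept : Set State

/-- The letter of `w` at the cell `z`, when the `i`-th letter is written at `(i, 0, …, 0)`. -/
noncomputable def cellBit {d : ℕ} [NeZero d] (w : List Bool) (z : Fin d → ℤ) : Option Bool :=
  open Classical in
  if (∀ j : Fin d, j ≠ 0 → z j = 0) ∧ 0 ≤ z 0 then w[(z 0).toNat]? else none

/-- The configuration at time `t` on the input words `w` and `y`. -/
noncomputable def CA.config {d : ℕ} [NeZero d] (A : CA d) (w y : List Bool) :
    ℕ → (Fin d → ℤ) → A.State
  | 0, z => A.init (cellBit w z) (cellBit y z)
  | t + 1, z => A.rule fun δ => A.config w y t fun i => z i + ((δ i : ℕ) : ℤ) - 1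

/-- `A` accepts the language `L` in time `T(n)` with at most `g(n)` guessed bits, `n` being the
length of the input word `w`: `w` is in `L` if and only if for some `y` the origin enters an
accepting state, and for `w` in `L` this happens for some `y` of length at most `g(n)` within
`T(n)` steps. -/
def CA.Accepts {d : ℕ} [NeZero d] (A : CA d) (L : Set (List Bool)) (g T : ℕ → ℝ) : Prop :=
  (∀ w y t, A.config w y t 0 ∈ A.accept → w ∈ L) ∧
  ∀ w ∈ L, ∃ (y : List Bool) (t : ℕ), (y.length : ℝ) ≤ g w.length ∧ (t : ℝ) ≤ T w.length ∧
    A.config w y t 0 ∈ A.accept

end Pool.Agent.Helper65.LinSpace
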