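import Pool.Agent.Helper65.LinSpace.Defs

/-!
# Words accepted by cellular automata
-/

namespace Pool.Agent.Helper65.LinSpace

/-- The words `w` accepted by `A`: for some guess `y` the origin enters an accepting state. -/
def CA.language {d : ℕ} [NeZero d] (A : CA d) : Set (List Bool) :=
  {w | ∃ y t, A.config w y t 0 ∈ A.accept}

/-- The words `w` accepted by `A` with a guess of length at most `g(n)` within `T(n)` steps, `n`
being the length of `w`. -/
def CA.accepted {d : ℕ} [NeZero d] (A : CA d) (g T : ℕ → ℝ) : Set (List Bool) :=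
  {w | ∃ (y : List Bool) (t : ℕ), (y.length : ℝ) ≤ g w.length ∧ (t : ℝ) ≤ T w.length ∧
    A.config w y t 0 ∈ A.accept}

end Pool.Agent.Helper65.LinSpace
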