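import Pool.Agent.Helper65.LinSpace.Arith3

/-!
# A diagonal construction hard almost everywhere

`U e y ≠ 0` means that the device `e` accepts `y`. The numbers `y` are treated one after the other;
`y` selects the least requirement `j < log y` which has not been selected and with
`U (j / 2) y ≠ 0`, and then `y` is put in the set if and only if `j` is odd.
-/

namespace Pool.Agent.Helper65.LinSpace

open Finset

variable (U : ℕ → ℕ → ℕ)

/-- Nonzero if the requirement `j` can be selected by `y`, when those in `m` have been selected. -/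
def cnd (m y j : ℕ) : ℕ := (1 - dig 2 m j) * lt01 0 (U (j / 2) y)

/-- The least requirement which can be selected, or `log y`. -/
def sel (m y : ℕ) : ℕ := ∑ i ∈ range (Nat.log 2 y), ifz (∑ j ∈ range (i + 1), cnd U m y j) 1 0

/-- The set of the selected requirements after the treatment of `y`. -/
def nxt (y m : ℕ) : ℕ :=
  tab 2 (Nat.log 2 (y + 1)) fun i =>
    ifz (eq01 i (sel U m y) * lt01 i (Nat.log 2 y)) (dig 2 m i) 1

/-- The set of the requirements selected by the numbers below `y`. -/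
def msk (y : ℕ) : ℕ := nrec 0 (nxt U) y

/-- The characteristic function of the set. -/
def bit (x : ℕ) : ℕ :=
  lt01 (sel U (msk U x) x) (Nat.log 2 x) * (sel U (msk U x) x % 2)

/-- `y` selects `j`. -/
def Sel (y j : ℕ) : Prop := sel U (msk U y) y = j ∧ j < Nat.log 2 y

variable {U}

theorem lt01_zero_ne {x : ℕ} : lt01 0 x ≠ 0 ↔ x ≠ 0 := by
  unfold lt01
  split_ifs <;> omega

theorem cnd_ne_zero_iff (m y j : ℕ) : cnd U m y j ≠ 0 ↔ dig 2 m j ≠ 1 ∧ U (j / 2) y ≠ 0 := by
  rw [cnd, mul_ne_zero_iff, lt01_zero_ne]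
  have := dig_lt (q := 2) (by norm_num) m j
  omega

theorem cnd_le (m y j : ℕ) : cnd U m y j ≤ 1 := by
  unfold cnd lt01
  split_ifs <;> omega

theorem sel_spec (m y : ℕ) : sel U m y ≤ Nat.log 2 y ∧
    (sel U m y < Nat.log 2 y → cnd U m y (sel U m y) ≠ 0) ∧
    ∀ j < sel U m y, cnd U m y j = 0 := by
  classical
  set N := Nat.log 2 y with hN
  by_cases h : ∃ j, j < N ∧ cnd U m y j ≠ 0
  · have h1 := Nat.find_spec h
    have h2 : ∀ j < Nat.find h, cnd U m y j = 0 := fun j hj => by
      by_contra h3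
      exact Nat.find_min h hj ⟨lt_trans hj h1.1, h3⟩
    have h3 : sel U m y = Nat.find h := by
      unfold sel
      refine sum_lt_ind h1.1.le fun i hi => ?_
      by_cases h4 : i < Nat.find h
      · rw [if_pos h4, sum_eq_zero fun j hj => h2 j (by
          have := mem_range.1 hj
          omega)]
        rfl
      · rw [if_neg h4]
        rw [ifz, if_neg]
        intro h5
        exact h1.2 (sum_eq_zero_iff.1 h5 _ (mem_range.2 (by omega)))
    rw [h3]
    exact ⟨h1.1.le, fun _ => h1.2, h2⟩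
  · push Not at h
    have h3 : sel U m y = N := by
      unfold sel
      refine sum_lt_ind le_rfl fun i hi => ?_
      rw [if_pos hi, sum_eq_zero fun j hj => h j (by
        have := mem_range.1 hj
        omega)]
      rfl
    rw [h3]
    exact ⟨le_rfl, fun h => absurd h (lt_irrefl _), fun j hj => h j hj⟩

theorem sel_le (m y : ℕ) : sel U m y ≤ Nat.log 2 y := (sel_spec m y).1

theorem dig2_lt (m i : ℕ) : dig 2 m i < 2 := dig_lt (by norm_num) _ _

theorem nxt_digit_lt (m y i : ℕ) :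
    ifz (eq01 i (sel U m y) * lt01 i (Nat.log 2 y)) (dig 2 m i) 1 < 2 := by
  have := dig2_lt m i
  rw [ifz]
  split_ifs <;> omega

theorem nxt_lt (m y : ℕ) : nxt U y m < 2 ^ Nat.log 2 (y + 1) := tab_lt fun i _ =>
  nxt_digit_lt m y i

theorem msk_lt (y : ℕ) : msk U y < 2 ^ Nat.log 2 y := by
  rcases y with _ | y
  · show (0 : ℕ) < _
    positivity
  · exact nxt_lt _ _

theorem dig2_eq_zero {m N i : ℕ} (hm : m < 2 ^ N) (hi : N ≤ i) : dig 2 m i = 0 := by
  unfold dig
  rw [Nat.div_eq_of_lt (lt_of_lt_of_le hm (Nat.pow_le_pow_right (by norm_num) hi))]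

theorem dig_msk_succ (y i : ℕ) : dig 2 (msk U (y + 1)) i =
    ifz (eq01 i (sel U (msk U y) y) * lt01 i (Nat.log 2 y)) (dig 2 (msk U y) i) 1 := by
  have hmono : Nat.log 2 y ≤ Nat.log 2 (y + 1) := Nat.log_mono_right (Nat.le_succ y)
  by_cases h : i < Nat.log 2 (y + 1)
  · show dig 2 (nxt U y (msk U y)) i = _
    rw [nxt, dig_tab (fun i _ => nxt_digit_lt _ _ _) h]
  · rw [dig2_eq_zero (msk_lt (y + 1)) (by omega), dig2_eq_zero (msk_lt y) (by omega)]
    have : lt01 i (Nat.log 2 y) = 0 := by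
      rw [lt01, if_neg (by omega)]
    rw [this, mul_zero]
    rfl

theorem dig_msk (y j : ℕ) : dig 2 (msk U y) j = 1 ↔ ∃ y' < y, Sel U y' j := by
  induction y with
  | zero =>
    have : dig 2 (msk U 0) j = 0 := by
      show dig 2 0 j = 0
      simp [dig]
    rw [this]
    simp
  | succ y ih =>
    rw [dig_msk_succ]
    by_cases h : Sel U y j
    · have h1 : eq01 j (sel U (msk U y) y) * lt01 j (Nat.log 2 y) = 1 := by
        rw [h.1, eq01, if_pos rfl, lt01, if_pos h.2]
      rw [h1]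
      constructor
      · intro _
        exact ⟨y, Nat.lt_succ_self y, h⟩
      · intro _
        rfl
    · have h1 : eq01 j (sel U (msk U y) y) * lt01 j (Nat.log 2 y) = 0 := by
        by_contra h2
        apply h
        rw [← Ne, mul_ne_zero_iff] at h2
        simp only [eq01, lt01] at h2
        refine ⟨?_, ?_⟩
        · by_contra h3
          exact h2.1 (if_neg fun h4 => h3 h4.symm)
        · by_contra h3
          exact h2.2 (if_neg h3)
      rw [h1]
      show dig 2 (msk U y) j = 1 ↔ _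
      rw [ih]
      constructor
      · rintro ⟨y', hy', hs⟩
        exact ⟨y', by omega, hs⟩
      · rintro ⟨y', hy', hs⟩
        rcases Nat.lt_succ_iff_lt_or_eq.1 hy' with h2 | h2
        · exact ⟨y', h2, hs⟩
        · subst h2
          exact absurd hs h

theorem Sel.spec {y j : ℕ} (h : Sel U y j) : U (j / 2) y ≠ 0 ∧ ∀ y' < y, ¬ Sel U y' j := by
  obtain ⟨h1, h2⟩ := h
  have h3 := (sel_spec (U := U) (msk U y) y).2.1 (by omega)
  rw [h1, cnd_ne_zero_iff] at h3
  exact ⟨h3.2, fun y' hy' h4 => h3.1 ((dig_msk y j).2 ⟨y', hy', h4⟩)⟩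

theorem Sel.unique {y y' j : ℕ} (h : Sel U y j) (h' : Sel U y' j) : y = y' := by
  rcases lt_trichotomy y y' with h1 | h1 | h1
  · exact absurd h (h'.spec.2 y h1)
  · exact h1
  · exact absurd h' (h.spec.2 y' h1)

theorem Sel.unique' {y j j' : ℕ} (h : Sel U y j) (h' : Sel U y j') : j = j' := h.1.symm.trans h'.1

/-- **Every requirement which can be met infinitely often is selected.** -/
theorem exists_Sel {j : ℕ} (h : {y | U (j / 2) y ≠ 0}.Infinite) : ∃ y, Sel U y j := by
  by_contra hno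
  push Not at hno
  have hY : ∃ Y, ∀ y ≥ Y, ∀ j' < j, ¬ Sel U y j' := by
    have h1 : ∀ j', ∃ Y, ∀ y ≥ Y, ¬ Sel U y j' := by
      intro j'
      by_cases h2 : ∃ y, Sel U y j'
      · obtain ⟨y, hy⟩ := h2
        refine ⟨y + 1, fun y' hy' h3 => ?_⟩
        have := hy.unique h3
        omega
      · push Not at h2
        exact ⟨0, fun y _ => h2 y⟩
    choose Y hY using h1
    refine ⟨∑ j' ∈ range j, Y j', fun y hy j' hj' => hY j' y ?_⟩
    exact le_trans (single_le_sum (f := Y) (fun _ _ => Nat.zero_le _) (mem_range.2 hj')) hy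
  obtain ⟨Y, hY⟩ := hY
  obtain ⟨y, hy, hyY⟩ := h.exists_gt (max Y (2 ^ (j + 1)))
  have hlog : j < Nat.log 2 y := by
    have h1 := Nat.log_mono_right (b := 2) ((le_max_right Y _).trans hyY.le)
    rw [Nat.log_pow (by norm_num)] at h1
    omega
  have hc : cnd U (msk U y) y j ≠ 0 := by
    rw [cnd_ne_zero_iff]
    refine ⟨fun h4 => ?_, hy⟩
    obtain ⟨y', _, h5⟩ := (dig_msk y j).1 h4
    exact hno y' h5
  have hle : sel U (msk U y) y ≤ j := by
    by_contra h2
    exact hc ((sel_spec (U := U) (msk U y) y).2.2 j (by omega))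
  rcases Nat.lt_or_eq_of_le hle with h2 | h2
  · exact hY y ((le_max_left _ _).trans hyY.le) _ h2 ⟨rfl, by omega⟩
  · exact hno y ⟨h2, hlog⟩

theorem bit_ne_zero_iff (x : ℕ) : bit U x ≠ 0 ↔ ∃ j, Sel U x j ∧ j % 2 = 1 := by
  unfold bit
  rw [mul_ne_zero_iff]
  simp only [lt01]
  constructor
  · rintro ⟨h1, h2⟩
    refine ⟨_, ⟨rfl, ?_⟩, by omega⟩
    by_contra h3
    exact h1 (if_neg h3)
  · rintro ⟨j, ⟨h1, h2⟩, h3⟩
    rw [h1, if_pos h2]
    exact ⟨one_ne_zero, by omega⟩

/-! ### Linear space -/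

variable {α : Type} [Ctx α]

theorem LS.cnd (hU : LS (fun z : ℕ × ℕ => U z.1 z.2)) {m y j : α → ℕ} (hm : LS m) (hy : LS y)
    (hj : LS j) : LS (fun a => LinSpace.cnd U (m a) (y a) (j a)) := by
  unfold LinSpace.cnd
  have h : LS (fun a => U (j a / 2) (y a)) :=
    LS.comp (g := fun z : ℕ × ℕ => U z.1 z.2) (f := fun a => (j a / 2, y a)) hU (by fun_prop)
  exact LS.mul (by fun_prop) (LS.lt01 (LS.const 0) h)

theorem LS.sel (hU : LS (fun z : ℕ × ℕ => U z.1 z.2)) {m y : α → ℕ} (hm : LS m) (hy : LS y) :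
    LS (fun a => LinSpace.sel U (m a) (y a)) := by
  unfold LinSpace.sel
  refine LS.sum_le (N := fun a => Nat.log 2 (y a)) (B := fun _ => 1)
    (f := fun a i => LinSpace.ifz (∑ j ∈ range (i + 1), LinSpace.cnd U (m a) (y a) j) 1 0)
    ?_ (by fun_prop) (by fun_prop) ?_
  · refine LS.ifz ?_ (by fun_prop) (by fun_prop)
    refine LS.sum_le (N := fun z : α × ℕ => z.2 + 1) (B := fun _ => 1)
      (f := fun z j => LinSpace.cnd U (m z.1) (y z.1) j) ?_ (by fun_prop) (by fun_prop)
      (fun _ _ _ => cnd_le _ _ _)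
    exact LS.cnd hU (by fun_prop) (by fun_prop) (by fun_prop)
  · intro a i _
    simp only [LinSpace.ifz]
    split_ifs <;> omega

theorem LS.nxt (hU : LS (fun z : ℕ × ℕ => U z.1 z.2)) {m y : α → ℕ} (hm : LS m) (hy : LS y) :
    LS (fun a => LinSpace.nxt U (y a) (m a)) := by
  unfold LinSpace.nxt
  refine LS.tab (q := fun _ => 2) (m := fun a => Nat.log 2 (y a + 1)) (C := fun a => y a + 2)
    (d := fun a i => LinSpace.ifz (LinSpace.eq01 i (LinSpace.sel U (m a) (y a)) *
      LinSpace.lt01 i (Nat.log 2 (y a))) (LinSpace.dig 2 (m a) i) 1) ?_ (by fun_prop)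
    (by fun_prop) (by fun_prop) (fun a i _ => nxt_digit_lt _ _ _) (fun a => pow_log_le _)
  have h : LS (fun z : α × ℕ => LinSpace.sel U (m z.1) (y z.1)) :=
    LS.comp (f := fun z : α × ℕ => z.1) (LS.sel hU hm hy) (by fun_prop)
  exact LS.ifz (LS.mul (LS.eq01 LS.snd h) (by fun_prop)) (by fun_prop) (by fun_prop)

theorem LS.msk (hU : LS (fun z : ℕ × ℕ => U z.1 z.2)) {y : α → ℕ} (hy : LS y) :
    LS (fun a => LinSpace.msk U (y a)) := by
  unfold LinSpace.msk
  refine LS.nrec (G := fun _ => 0) (N := y) (C := fun a => y a + 1)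
    (K := fun _ => LinSpace.nxt U) (by fun_prop) hy (by fun_prop) ?_ ?_
  · exact LS.nxt (α := α × ℕ × ℕ) (m := fun z => z.2.2) (y := fun z => z.2.1) hU (by fun_prop)
      (by fun_prop)
  · intro a i hi
    exact ((msk_lt i).le.trans (pow_log_le i)).trans (by omega)

theorem LS.bit (hU : LS (fun z : ℕ × ℕ => U z.1 z.2)) {x : α → ℕ} (hx : LS x) :
    LS (fun a => LinSpace.bit U (x a)) := by
  unfold LinSpace.bit
  have h : LS (fun a => LinSpace.sel U (LinSpace.msk U (x a)) (x a)) :=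
    LS.sel hU (LS.msk hU hx) hx
  exact LS.mul (LS.lt01 h (LS.log2 hx)) (LS.mod h (LS.const 2))

end Pool.Agent.Helper65.LinSpace
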