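import Pool.Agent.Helper65.LinSpace.Bridge
import Pool.Agent.Helper65.LinSpace.AsymV
import Pool.Agent.Helper65.LinSpace.Diag
import Pool.Agent.Helper65.LinSpace.Defs2

/-!
# Cellular automata and linear space
-/

namespace Pool.Agent.Helper65.LinSpace

open Finset Filter Topology

theorem num_injective : Function.Injective num := by
  intro w
  induction w with
  | nil =>
    intro w' h
    cases w' with
    | nil => rfl
    | cons b w' =>
      exfalso
      have h1 := num_pos w'
      have h3 : num (b :: w') = b.toNat + 2 * num w' := rfl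
      rw [h3] at h
      have h4 : num [] = 1 := rfl
      omega
  | cons a w ih =>
    intro w' h
    cases w' with
    | nil =>
      exfalso
      have h1 := num_pos w
      have h3 : num (a :: w) = a.toNat + 2 * num w := rfl
      rw [h3] at h
      have h4 : num [] = 1 := rfl
      omega
    | cons b w' =>
      have h3 : num (b :: w') = b.toNat + 2 * num w' := rfl
      have h4 : num (a :: w) = a.toNat + 2 * num w := rfl
      rw [h3, h4] at h
      have ha := toNat_le_one a
      have hb := toNat_le_one b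
      have h5 : num w = num w' := by omega
      have h6 : a.toNat = b.toNat := by omega
      rw [ih h5]
      congr 1
      cases a <;> cases b <;> simp_all

/-- Every number which is at least `1` is the number of a word. -/
theorem exists_word {y : ℕ} (hy : y ≠ 0) : ∃ w : List Bool, num w = y :=
  exists_num (Nat.pos_of_ne_zero hy)

theorem num_nil : num ([] : List Bool) = 1 := rfl

/-! ### Fast cellular automata are in linear space -/

/-- **Fast cellular automata are in linear space.** -/
theorem fast_dlinspace {d : ℕ} [NeZero d] (A : CA d) (L : Set (List Bool)) (C : ℝ)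
    (h1 : A.language ⊆ L) (h2 : L ⊆ A.accepted (fun n => C * n) fun n => C * TT d n) :
    DLINSPACE L := by
  classical
  have hd : d ≠ 0 := NeZero.ne d
  obtain ⟨e, n₀, he⟩ := exists_UU A
  obtain ⟨n₁, hn₁⟩ := eventually_atTop.1 (asymV hd C)
  obtain ⟨K, hK⟩ := exists_nat_ge (max C 1)
  have hK1 : 1 ≤ K := by
    have : (1 : ℝ) ≤ K := (le_max_right C 1).trans hK
    exact_mod_cast this
  have hKC : C ≤ K := (le_max_left C 1).trans hK
  obtain ⟨hs, hc⟩ := he K hK1
  obtain ⟨N, hN0, hN1⟩ : ∃ N, n₀ ≤ N ∧ n₁ ≤ N := ⟨max n₀ n₁, le_max_left _ _, le_max_right _ _⟩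
  let B : ℕ := tab 2 (2 ^ (N + 1)) fun x => if ∃ w ∈ L, num w = x then 1 else 0
  refine LS.dlinspace (F := fun x => ifz (le01 N (Nat.log 2 x)) (dig 2 B x) (UU K e 1 x)) ?_ L ?_
  · exact LS.ifz (by fun_prop) (by fun_prop) (LS.UU (LS.const e) (LS.const 1) LS.id K)
  · intro w
    by_cases h : N ≤ w.length
    · have h3 : le01 N (Nat.log 2 (num w)) = 1 := by
        rw [log_num, le01, if_pos h]
      simp only [h3]
      rw [ifz_ne one_ne_zero]
      constructor
      · intro hw
        obtain ⟨y, t, hy, ht, hacc⟩ := h2 hw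
        have h4 := hn₁ w.length (by omega)
        refine hc w [] (by omega) y ?_ t ?_ hacc
        · have : (y.length : ℝ) ≤ ((K * w.length : ℕ) : ℝ) := by
            push_cast
            exact hy.trans (mul_le_mul_of_nonneg_right hKC (Nat.cast_nonneg _))
          exact_mod_cast this
        · exact_mod_cast ht.trans h4
      · intro h4
        obtain ⟨v, t, hacc⟩ := hs w [] h4
        exact h1 ⟨v, t, hacc⟩
    · have h3 : le01 N (Nat.log 2 (num w)) = 0 := by
        rw [log_num, le01, if_neg h]
      simp only [h3]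
      rw [ifz_zero]
      have h4 : num w < 2 ^ (N + 1) := by
        have h5 := Nat.lt_pow_succ_log_self (b := 2) (by norm_num) (num w)
        rw [log_num] at h5
        exact lt_of_lt_of_le h5 (Nat.pow_le_pow_right (by norm_num) (by omega))
      have h5 : dig 2 B (num w) = if ∃ w' ∈ L, num w' = num w then 1 else 0 := by
        refine dig_tab ?_ h4
        intro i _
        split_ifs <;> norm_num
      rw [h5]
      constructor
      · intro hw
        rw [if_pos ⟨w, hw, rfl⟩]
        exact one_ne_zero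
      · intro h6
        by_contra hw
        apply h6
        rw [if_neg]
        rintro ⟨w', hw', h7⟩
        rw [num_injective h7] at hw'
        exact hw hw'

/-! ### A language which is hard almost everywhere -/

/-- The relation that the automaton `e` accepts `y`. -/
noncomputable def VV (e y : ℕ) : ℕ := UU 1 e 1 y

theorem infinite_VV_trivE (k : ℕ) : {y | VV (trivE k) y ≠ 0}.Infinite := by
  have h : ∀ y ≥ 2 ^ 2 ^ 2 ^ 3, VV (trivE k) y ≠ 0 := by
    intro y hy
    refine UU_trivE k 1 (ev_le_mm 3 ?_)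
    have := Nat.log_mono_right (b := 2) hy
    rwa [Nat.log_pow (by norm_num)] at this
  intro hfin
  exact (Set.Ici_infinite (2 ^ 2 ^ 2 ^ 3)) (hfin.subset fun y hy => h y hy)

theorem Sel.ne_zero {U : ℕ → ℕ → ℕ} {y j : ℕ} (h : Sel U y j) : y ≠ 0 := by
  rintro rfl
  have := h.2
  simp at this

/-- The language. -/
def hardL : Set (List Bool) := {w | bit VV (num w) ≠ 0}

theorem dlinspace_hardL : DLINSPACE hardL := by
  refine LS.dlinspace (F := fun x => bit VV x) ?_ _ fun w => Iff.rfl
  refine LS.bit (U := VV) ?_ LS.id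
  exact LS.UU LS.fst (LS.const 1) LS.snd 1

/-- Every device which accepts infinitely many words accepts words on both sides. -/
theorem exists_hard {e : ℕ} (h : {y | VV e y ≠ 0}.Infinite) (σ : ℕ) (hσ : σ < 2) :
    ∃ w : List Bool, Sel VV (num w) (2 * e + σ) ∧ VV e (num w) ≠ 0 ∧ (w ∈ hardL ↔ σ = 1) := by
  have hdiv : (2 * e + σ) / 2 = e := by omega
  obtain ⟨y, hy⟩ := exists_Sel (U := VV) (j := 2 * e + σ) (by rwa [hdiv])
  obtain ⟨w, rfl⟩ := exists_word hy.ne_zero
  refine ⟨w, hy, ?_, ?_⟩
  · have := hy.spec.1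
    rwa [hdiv] at this
  · show bit VV (num w) ≠ 0 ↔ _
    rw [bit_ne_zero_iff]
    constructor
    · rintro ⟨j, hj, hj2⟩
      rw [hj.unique' hy] at hj2
      omega
    · intro h1
      exact ⟨_, hy, by omega⟩

theorem infinite_side (σ : ℕ) (hσ : σ < 2) : {w : List Bool | w ∈ hardL ↔ σ = 1}.Infinite := by
  choose f hf using fun k => exists_hard (infinite_VV_trivE k) σ hσ
  refine Set.infinite_of_injective_forall_mem (f := f) ?_ fun k => (hf k).2.2
  intro k k' h
  have h1 := (hf k).1
  have h2 := (hf k').1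
  rw [h] at h1
  have h3 := h1.unique' h2
  exact trivE_injective (by omega)

/-- **A language in linear space which is hard almost everywhere for cellular automata of all
dimensions.** -/
theorem hard_ae {d : ℕ} [NeZero d] (A : CA d) (C : ℝ)
    (h : A.language ⊆ hardL ∨ A.language ⊆ hardLᶜ) :
    (A.accepted (fun n => n) fun n => C * TT d n).Finite := by
  by_contra hinf
  have hd : d ≠ 0 := NeZero.ne d
  obtain ⟨e, n₀, he⟩ := exists_UU A
  obtain ⟨hs, hc⟩ := he 1 le_rfl
  obtain ⟨n₁, hn₁⟩ := eventually_atTop.1 (asymV hd C)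
  have hlong : {w : List Bool | w ∈ A.accepted (fun n => n) (fun n => C * TT d n) ∧
      n₀ + n₁ ≤ w.length}.Infinite := by
    intro hfin
    refine hinf ((hfin.union (List.finite_length_lt Bool (n₀ + n₁))).subset fun w hw => ?_)
    rcases Nat.lt_or_ge w.length (n₀ + n₁) with h1 | h1
    · exact Or.inr h1
    · exact Or.inl ⟨hw, h1⟩
  have hV : {y | VV e y ≠ 0}.Infinite := by
    refine (hlong.image (f := num) num_injective.injOn).mono ?_
    rintro _ ⟨w, ⟨⟨y, t, hy, ht, hacc⟩, hw⟩, rfl⟩
    have h4 := hn₁ w.length (by omega)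
    refine hc w [] (by omega) y ?_ t ?_ hacc
    · rw [one_mul]
      have hy' : (y.length : ℝ) ≤ w.length := hy
      exact_mod_cast hy'
    · exact_mod_cast ht.trans h4
  rcases h with h | h
  · obtain ⟨w, _, hw, h1⟩ := exists_hard hV 0 (by norm_num)
    obtain ⟨v, t, hacc⟩ := hs w [] hw
    have := h1.1 (h ⟨v, t, hacc⟩)
    omega
  · obtain ⟨w, _, hw, h1⟩ := exists_hard hV 1 (by norm_num)
    obtain ⟨v, t, hacc⟩ := hs w [] hw
    exact h ⟨v, t, hacc⟩ (h1.2 rfl)

theorem mainA : ∃ L : Set (List Bool), DLINSPACE L ∧ L.Infinite ∧ Lᶜ.Infinite ∧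
    ∀ (d : ℕ) [NeZero d] (A : CA d) (C : ℝ), A.language ⊆ L ∨ A.language ⊆ Lᶜ →
      (A.accepted (fun n => n) fun n => C * TT d n).Finite := by
  refine ⟨hardL, dlinspace_hardL, ?_, ?_, fun d _ A C h => hard_ae A C h⟩
  · refine (infinite_side 1 (by norm_num)).mono fun w hw => ?_
    exact hw.2 rfl
  · refine (infinite_side 0 (by norm_num)).mono fun w hw h => ?_
    have := hw.1 h
    omega

/-! ### Advice -/

/-- The number of leading ones of a word, from its number. -/
def lead (x : ℕ) : ℕ := ∑ i ∈ range (Nat.log 2 x), ifz ((x + 1) % 2 ^ (i + 1)) 1 0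

theorem LS.lead {α : Type} [Ctx α] {x : α → ℕ} (hx : LS x) :
    LS (fun a => LinSpace.lead (x a)) := by
  unfold LinSpace.lead
  refine LS.sum_le (N := fun a => Nat.log 2 (x a)) (B := fun _ => 1)
    (f := fun a i => LinSpace.ifz ((x a + 1) % 2 ^ (i + 1)) 1 0) ?_ (by fun_prop) (by fun_prop) ?_
  · have h : LS (fun z : α × ℕ => (x z.1 + 1) % 2 ^ (z.2 + 1)) :=
      LS.modPow (q := fun _ => 2) (by fun_prop) (by fun_prop) (by fun_prop)
    exact LS.ifz h (by fun_prop) (by fun_prop)
  · intro a i _
    simp only [LinSpace.ifz]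
    split_ifs <;> omega

theorem num_lead (e : ℕ) (v : List Bool) :
    num (List.replicate e true ++ false :: v) + 1 = 2 ^ e * (2 * num v + 1) := by
  induction e with
  | zero =>
    have h2 : num (false :: v) = 2 * num v := by simp [num]
    simp [h2]
  | succ e ih =>
    have h2 : num (true :: (List.replicate e true ++ false :: v)) =
      1 + 2 * num (List.replicate e true ++ false :: v) := rfl
    rw [List.replicate_succ, List.cons_append, h2, pow_succ]
    have : 1 + 2 * num (List.replicate e true ++ false :: v) + 1 =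
      2 * (num (List.replicate e true ++ false :: v) + 1) := by ring
    rw [this, ih]
    ring

theorem lead_num (e : ℕ) (v : List Bool) :
    lead (num (List.replicate e true ++ false :: v)) = e := by
  unfold lead
  refine sum_lt_ind ?_ ?_
  · rw [log_num]
    simp
  · intro i _
    rw [num_lead]
    generalize num v = k
    by_cases h : i < e
    · rw [if_pos h]
      have : 2 ^ (i + 1) ∣ 2 ^ e * (2 * k + 1) := Dvd.dvd.mul_right (pow_dvd_pow 2 h) _
      rw [Nat.mod_eq_zero_of_dvd this]
      rfl
    · rw [if_neg h]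
      refine ifz_ne (fun h0 => ?_) _ _
      have h1 : 2 ^ (e + 1) ∣ 2 ^ e * (2 * k + 1) :=
        (pow_dvd_pow 2 (show e + 1 ≤ i + 1 by omega)).trans (Nat.dvd_of_mod_eq_zero h0)
      rw [pow_succ] at h1
      have h2 := Nat.dvd_of_mul_dvd_mul_left (by positivity) h1
      omega

theorem div_lead (e : ℕ) (v : List Bool) :
    num (List.replicate e true ++ false :: v) / 2 ^ (e + 1) = num v := by
  have h := num_lead e v
  have h1 : num (List.replicate e true ++ false :: v) = num v * 2 ^ (e + 1) + (2 ^ e - 1) := by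
    have h2 : 0 < 2 ^ e := by positivity
    have h3 : 2 ^ e * (2 * num v + 1) = num v * 2 ^ (e + 1) + 2 ^ e := by ring
    omega
  rw [h1]
  refine div_eq_block ?_
  have h2 : 0 < 2 ^ e := by positivity
  have h3 : 2 ^ (e + 1) = 2 * 2 ^ e := by ring
  omega

/-- The word without its last one and the following zeros, as a number. -/
def strip (x : ℕ) : ℕ := x - 2 ^ Nat.log 2 x

theorem strip_num (u : List Bool) (r : ℕ) :
    strip (num (u ++ true :: List.replicate r false)) = num u := by
  unfold strip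
  have h1 : num (true :: List.replicate r false) = 1 + 2 * 2 ^ r := by
    have h2 : num (List.replicate r false) = 2 ^ r := by
      induction r with
      | zero => rfl
      | succ r ih =>
        rw [List.replicate_succ]
        simp only [num, Bool.toNat_false, ih, pow_succ]
        ring
    rw [← h2]
    rfl
  have h3 := num_pos u
  have h4 : 2 ^ u.length ≤ num u := by
    have := Nat.pow_log_le_self 2 (show num u ≠ 0 by omega)
    rwa [log_num] at this
  rw [log_num, num_append, h1, cat, log_num, List.length_append, List.length_cons,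
    List.length_replicate]
  have h5 : 2 ^ (u.length + (r + 1)) = 2 ^ u.length * (2 * 2 ^ r) := by ring
  rw [h5, Nat.mul_add, mul_one]
  omega

/-- The language used against advice. -/
def advL : Set (List Bool) :=
  {w | UU 1 (lead (strip (num w))) (strip (num w) / 2 ^ (lead (strip (num w)) + 1)) (num w) = 0}

theorem LS.strip {α : Type} [Ctx α] {x : α → ℕ} (hx : LS x) :
    LS (fun a => LinSpace.strip (x a)) := by
  unfold LinSpace.strip
  refine LS.sub hx ?_
  exact LS.pow_of_le (f := fun _ => 2) (C := fun z => x z + 1) (LS.const 2) (LS.log2 hx)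
    (by fun_prop) fun z => pow_log_le _

theorem dlinspace_advL : DLINSPACE advL := by
  refine LS.dlinspace (F := fun x => ifz (UU 1 (lead (strip x))
    (strip x / 2 ^ (lead (strip x) + 1)) x) 1 0) ?_ _ ?_
  · have h1 : LS (fun x : ℕ => strip x) := LS.strip LS.id
    have h2 := LS.lead h1
    have h3 : LS (fun x => strip x / 2 ^ (lead (strip x) + 1)) :=
      LS.divPow (q := fun _ => 2) (LS.const 2) h1 (by fun_prop)
    exact LS.ifz (LS.UU h2 h3 LS.id 1) (LS.const 1) (LS.const 0)
  · intro w
    show UU 1 _ _ _ = 0 ↔ _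
    constructor
    · intro h
      rw [h]
      exact one_ne_zero
    · intro h
      by_contra h2
      exact h (ifz_ne h2 _ _)

/-- **A language in linear space which is hard for cellular automata with advice.** -/
theorem mainB : ∃ L : Set (List Bool), DLINSPACE L ∧
    ∀ (d : ℕ) [NeZero d] (A : CA d) (C : ℝ), ∃ c : ℕ, ∀ (n : ℕ) (α : List Bool),
      α.length + c ≤ n → ¬ ∀ w : List Bool, w.length = n →
        ((∀ v t, A.config w (α ++ v) t 0 ∈ A.accept → w ∈ L) ∧
          (w ∈ L → ∃ (v : List Bool) (t : ℕ), v.length ≤ n ∧ (t : ℝ) ≤ C * TT d n ∧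
            A.config w (α ++ v) t 0 ∈ A.accept)) := by
  refine ⟨advL, dlinspace_advL, fun d _ A C => ?_⟩
  have hd : d ≠ 0 := NeZero.ne d
  obtain ⟨e, n₀, he⟩ := exists_UU A
  obtain ⟨hs, hc⟩ := he 1 le_rfl
  obtain ⟨n₁, hn₁⟩ := eventually_atTop.1 (asymV hd C)
  refine ⟨e + 2 + n₀ + n₁, fun n α hα h => ?_⟩
  obtain ⟨r, hr⟩ : ∃ r, n = (e + 1 + α.length) + 1 + r := ⟨n - (e + 1 + α.length + 1), by omega⟩
  set w : List Bool := (List.replicate e true ++ false :: α) ++ true :: List.replicate r false
    with hw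
  have hlen : w.length = n := by
    rw [hw]
    simp only [List.length_append, List.length_cons, List.length_replicate]
    omega
  have h1 : strip (num w) = num (List.replicate e true ++ false :: α) := strip_num _ _
  have hmem : w ∈ advL ↔ UU 1 e (num α) (num w) = 0 := by
    show UU 1 _ _ _ = 0 ↔ _
    rw [h1, lead_num, div_lead]
  obtain ⟨hs', hc'⟩ := h w hlen
  by_cases h2 : UU 1 e (num α) (num w) = 0
  · obtain ⟨v, t, hv, ht, hacc⟩ := hc' (hmem.2 h2)
    have h4 := hn₁ w.length (by omega)
    rw [← hlen] at hv ht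
    refine hc w α (by omega) v (by rwa [one_mul]) t ?_ hacc h2
    exact_mod_cast ht.trans h4
  · obtain ⟨v, t, hacc⟩ := hs w α h2
    exact h2 (hmem.1 (hs' v t hacc))

/-! ### The statements with explicit bounds -/

theorem C_mul_TT (d : ℕ) (C : ℝ) : (fun n : ℕ => C * TT d n) = fun n : ℕ =>
    C * ((n : ℝ) + 1) ^ (1 + 1 / (d : ℝ)) / Real.log ((n : ℝ) + 2) ^ 3 := by
  funext n
  unfold TT
  rw [mul_div_assoc]

/-- Languages in linear space hard almost everywhere. -/
theorem mainA' : ∃ L : Set (List Bool), DLINSPACE L ∧ L.Infinite ∧ Lᶜ.Infinite ∧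
    ∀ (d : ℕ) [NeZero d] (A : CA d) (C : ℝ), A.language ⊆ L ∨ A.language ⊆ Lᶜ →
      (A.accepted (fun n => n) fun n =>
        C * ((n : ℝ) + 1) ^ (1 + 1 / (d : ℝ)) / Real.log ((n : ℝ) + 2) ^ 3).Finite := by
  obtain ⟨L, h1, h2, h3, h4⟩ := mainA
  refine ⟨L, h1, h2, h3, fun d _ A C h => ?_⟩
  rw [← C_mul_TT]
  exact h4 d A C h

/-- Languages in linear space hard for advice. -/
theorem mainB' : ∃ L : Set (List Bool), DLINSPACE L ∧
    ∀ (d : ℕ) [NeZero d] (A : CA d) (C : ℝ), ∃ c : ℕ, ∀ (n : ℕ) (α : List Bool),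
      α.length + c ≤ n → ¬ ∀ w : List Bool, w.length = n →
        ((∀ v t, A.config w (α ++ v) t 0 ∈ A.accept → w ∈ L) ∧
          (w ∈ L → ∃ (v : List Bool) (t : ℕ), v.length ≤ n ∧
            (t : ℝ) ≤ C * ((n : ℝ) + 1) ^ (1 + 1 / (d : ℝ)) / Real.log ((n : ℝ) + 2) ^ 3 ∧
            A.config w (α ++ v) t 0 ∈ A.accept)) := by
  obtain ⟨L, h1, h2⟩ := mainB
  refine ⟨L, h1, fun d _ A C => ?_⟩
  obtain ⟨c, hc⟩ := h2 d A C
  refine ⟨c, fun n α hα h => hc n α hα fun w hw => ⟨(h w hw).1, fun hL => ?_⟩⟩
  obtain ⟨v, t, hv, ht, hacc⟩ := (h w hw).2 hL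
  refine ⟨v, t, hv, ?_, hacc⟩
  rw [congrFun (C_mul_TT d C) n]
  exact ht

/-- Fast cellular automata in linear space. -/
theorem mainC' (d : ℕ) [NeZero d] (A : CA d) (L : Set (List Bool)) (C : ℝ)
    (h1 : A.language ⊆ L) (h2 : L ⊆ A.accepted (fun n => C * n) fun n =>
      C * ((n : ℝ) + 1) ^ (1 + 1 / (d : ℝ)) / Real.log ((n : ℝ) + 2) ^ 3) :
    DLINSPACE L := by
  rw [← C_mul_TT] at h2
  exact fast_dlinspace A L C h1 h2

end Pool.Agent.Helper65.LinSpace
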