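import Pool.Agent.Helper65.LinSpace.Cells

/-!
# The parameters of the simulation
-/

namespace Pool.Agent.Helper65.LinSpace

open Finset

/-- The length of `n` in binary. -/
def ll (n : ℕ) : ℕ := Nat.log 2 n + 1

/-- The height of the tree. -/
def qq (n : ℕ) : ℕ := n / (ll n * ll n)

/-- The side of a block. -/
def bb (d n : ℕ) : ℕ := max 1 (rt d (qq n))

/-- The number of bits per cell. -/
def ss (n s : ℕ) : ℕ := max 1 (min s (ll n))

/-- The number of bits of a block. -/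
def LL (d n s : ℕ) : ℕ := bb d n ^ d * ss n s

/-- The size of the field. -/
noncomputable def pp (d n s : ℕ) : ℕ := nextPrime (3 ^ d * LL d n s + 2)

theorem ll_pos (n : ℕ) : 1 ≤ ll n := Nat.le_add_left _ _

theorem lt_two_pow_ll (n : ℕ) : n + 1 ≤ 2 ^ ll n := Nat.lt_pow_succ_log_self (by norm_num) n

theorem ll_le (n : ℕ) : ll n ≤ n + 1 := Nat.succ_le_succ (Nat.log_le_self 2 n)

theorem sq_le_two_pow (k : ℕ) : (k + 1) * (k + 1) ≤ 4 * 2 ^ k := by
  induction k using Nat.strong_induction_on with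
  | _ k ih =>
    rcases k with _ | _ | _ | k
    · norm_num
    · norm_num
    · norm_num
    · have h1 := ih (k + 2) (by omega)
      have h2 : 2 ^ (k + 3) = 2 * 2 ^ (k + 2) := by ring
      rw [show k + 1 + 1 + 1 = k + 3 by ring, h2]
      nlinarith

theorem ll_sq_le (n : ℕ) : ll n * ll n ≤ 4 * (n + 1) := by
  rcases Nat.eq_zero_or_pos n with h | h
  · subst h
    simp [ll]
  · have h1 := sq_le_two_pow (Nat.log 2 n)
    have h2 : 2 ^ Nat.log 2 n ≤ n := Nat.pow_log_le_self 2 (by omega)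
    unfold ll
    omega

theorem qq_mul_le (n : ℕ) : qq n * (ll n * ll n) ≤ n := Nat.div_mul_le_self _ _

theorem qq_le (n : ℕ) : qq n ≤ n := Nat.div_le_self _ _

theorem qq_mul_ll_le (n : ℕ) : qq n * ll n ≤ n := by
  refine le_trans ?_ (qq_mul_le n)
  exact Nat.mul_le_mul_left _ (Nat.le_mul_of_pos_left _ (ll_pos n))

theorem bb_pos (d n : ℕ) : 0 < bb d n := lt_of_lt_of_le Nat.one_pos (le_max_left _ _)

theorem bb_pow_le {d : ℕ} (hd : d ≠ 0) (n : ℕ) : bb d n ^ d ≤ max 1 (qq n) := by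
  unfold bb
  rcases le_total 1 (rt d (qq n)) with h | h
  · rw [max_eq_right h]
    exact (rt_pow_le hd _).trans (le_max_right _ _)
  · rw [max_eq_left h, one_pow]
    exact le_max_left _ _

theorem ss_pos (n s : ℕ) : 0 < ss n s := lt_of_lt_of_le Nat.one_pos (le_max_left _ _)

theorem ss_le (n s : ℕ) : ss n s ≤ ll n := max_le (ll_pos n) (min_le_right _ _)

theorem LL_mul_le {d : ℕ} (hd : d ≠ 0) (n s : ℕ) : LL d n s * ll n ≤ 4 * (n + 1) := by
  have h1 := bb_pow_le hd n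
  have h2 := ss_le n s
  have h3 : LL d n s * ll n ≤ max 1 (qq n) * ll n * ll n :=
    Nat.mul_le_mul_right _ (Nat.mul_le_mul h1 h2)
  refine h3.trans ?_
  rw [mul_assoc]
  rcases le_total 1 (qq n) with h | h
  · rw [max_eq_right h]
    have := qq_mul_le n
    omega
  · rw [max_eq_left h, one_mul]
    exact ll_sq_le n

theorem LL_le {d : ℕ} (hd : d ≠ 0) (n s : ℕ) : LL d n s ≤ 2 ^ (2 * ll n) := by
  have h1 := bb_pow_le hd n
  have h2 := ss_le n s
  have h3 := lt_two_pow_ll n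
  have h4 : max 1 (qq n) ≤ 2 ^ ll n := by
    have := qq_le n
    refine max_le ?_ ?_
    · exact Nat.one_le_two_pow
    · omega
  have h5 : ll n ≤ 2 ^ ll n := (Nat.lt_two_pow_self).le
  rw [two_mul, pow_add]
  exact Nat.mul_le_mul (h1.trans h4) (h2.trans h5)

theorem pp_spec (d n s : ℕ) : (pp d n s).Prime ∧ 3 ^ d * LL d n s + 2 < pp d n s ∧
    pp d n s ≤ 2 * (3 ^ d * LL d n s + 2) := nextPrime_spec (by omega)

theorem three_pow_le (d : ℕ) : 3 ^ d ≤ 2 ^ (2 * d) := by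
  rw [pow_mul]
  exact Nat.pow_le_pow_left (by norm_num) d

theorem pp_le {d : ℕ} (hd : d ≠ 0) (n s : ℕ) : pp d n s ≤ 2 ^ ((2 * d + 5) * ll n) := by
  have h1 := (pp_spec d n s).2.2
  have h2 := LL_le hd n s
  have h3 := three_pow_le d
  have h4 : 2 * (3 ^ d * LL d n s + 2) ≤ 2 ^ (2 * d + 3 + 2 * ll n) := by
    have h5 : 3 ^ d * LL d n s ≤ 2 ^ (2 * d) * 2 ^ (2 * ll n) := Nat.mul_le_mul h3 h2
    have h6 : 2 ^ (2 * d + 3 + 2 * ll n) = 8 * (2 ^ (2 * d) * 2 ^ (2 * ll n)) := by ring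
    have h7 : 0 < 2 ^ (2 * d) * 2 ^ (2 * ll n) := by positivity
    rw [h6]
    omega
  refine (h1.trans h4).trans (Nat.pow_le_pow_right (by norm_num) ?_)
  have := ll_pos n
  nlinarith

theorem two_pow_log_le (x k : ℕ) : 2 ^ (k * (Nat.log 2 x + 1)) ≤ (x + 2) ^ (2 * k) := by
  have h : 2 ^ (Nat.log 2 x + 1) ≤ (x + 2) ^ 2 := by
    rcases Nat.eq_zero_or_pos x with h | h
    · subst h
      norm_num
    · have := Nat.pow_log_le_self 2 (show x ≠ 0 by omega)
      rw [pow_succ]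
      nlinarith
  rw [mul_comm k, pow_mul, pow_mul]
  exact Nat.pow_le_pow_left h k

/-- The bound for all numbers in the simulation. -/
def CC (d x : ℕ) : ℕ := (x + 2) ^ (2 * (4 * (2 * d + 5) * (3 ^ d + 1) + (4 * d + 8)))

theorem pp_pow_le {d : ℕ} (hd : d ≠ 0) (x s : ℕ) :
    pp d (Nat.log 2 x) s ^ ((3 ^ d + 1) * LL d (Nat.log 2 x) s) ≤ CC d x := by
  refine (Nat.pow_le_pow_left (pp_le hd _ _) _).trans ?_
  rw [← pow_mul]
  refine le_trans ?_ (two_pow_log_le x _)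
  refine Nat.pow_le_pow_right (by norm_num) ?_
  have h := LL_mul_le hd (Nat.log 2 x) s
  calc (2 * d + 5) * ll (Nat.log 2 x) * ((3 ^ d + 1) * LL d (Nat.log 2 x) s)
      = (2 * d + 5) * (3 ^ d + 1) * (LL d (Nat.log 2 x) s * ll (Nat.log 2 x)) := by ring
    _ ≤ (2 * d + 5) * (3 ^ d + 1) * (4 * (Nat.log 2 x + 1)) := Nat.mul_le_mul_left _ h
    _ ≤ _ := by
      have : (4 * (2 * d + 5) * (3 ^ d + 1) + (4 * d + 8)) * (Nat.log 2 x + 1) =
        (2 * d + 5) * (3 ^ d + 1) * (4 * (Nat.log 2 x + 1)) +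
          (4 * d + 8) * (Nat.log 2 x + 1) := by ring
      omega

theorem MM_pow_le {d : ℕ} (hd : d ≠ 0) (x s : ℕ) :
    MM (pp d (Nat.log 2 x) s) (3 ^ d) ^ qq (Nat.log 2 x) ≤ CC d x := by
  have h1 : MM (pp d (Nat.log 2 x) s) (3 ^ d) ≤ 2 ^ ((4 * d + 8) * ll (Nat.log 2 x)) := by
    have h2 := pp_le hd (Nat.log 2 x) s
    have h3 := three_pow_le d
    have h4 : 2 * 3 ^ d + 3 ≤ 2 ^ (2 * d + 3) := by
      have h6 : 2 ^ (2 * d + 3) = 8 * 2 ^ (2 * d) := by ring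
      have h7 : 0 < 2 ^ (2 * d) := by positivity
      omega
    calc MM (pp d (Nat.log 2 x) s) (3 ^ d) ≤
        2 ^ ((2 * d + 5) * ll (Nat.log 2 x)) * 2 ^ (2 * d + 3) := by
          unfold MM
          exact Nat.mul_le_mul ((Nat.sub_le _ _).trans h2) h4
      _ = 2 ^ ((2 * d + 5) * ll (Nat.log 2 x) + (2 * d + 3)) := (pow_add _ _ _).symm
      _ ≤ _ := by
        refine Nat.pow_le_pow_right (by norm_num) ?_
        have := ll_pos (Nat.log 2 x)
        nlinarith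
  refine (Nat.pow_le_pow_left h1 _).trans ?_
  rw [← pow_mul]
  refine le_trans ?_ (two_pow_log_le x _)
  refine Nat.pow_le_pow_right (by norm_num) ?_
  have h := qq_mul_ll_le (Nat.log 2 x)
  calc (4 * d + 8) * ll (Nat.log 2 x) * qq (Nat.log 2 x)
      = (4 * d + 8) * (qq (Nat.log 2 x) * ll (Nat.log 2 x)) := by ring
    _ ≤ (4 * d + 8) * (Nat.log 2 x) := Nat.mul_le_mul_left _ h
    _ ≤ _ := by
      have h5 : (4 * (2 * d + 5) * (3 ^ d + 1) + (4 * d + 8)) * (Nat.log 2 x + 1) =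
        (4 * (2 * d + 5) * (3 ^ d + 1)) * (Nat.log 2 x + 1) + (4 * d + 8) +
          (4 * d + 8) * (Nat.log 2 x) := by ring
      omega

theorem two_pow_LL_le {d : ℕ} (hd : d ≠ 0) (x s : ℕ) :
    (2 ^ ss (Nat.log 2 x) s) ^ (3 ^ d * bb d (Nat.log 2 x) ^ d) ≤ CC d x := by
  refine le_trans ?_ (pp_pow_le hd x s)
  have h2 := (pp_spec d (Nat.log 2 x) s).1.two_le
  have h3 : (2 ^ ss (Nat.log 2 x) s) ^ (3 ^ d * bb d (Nat.log 2 x) ^ d) =
      2 ^ (3 ^ d * LL d (Nat.log 2 x) s) := by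
    rw [← pow_mul, LL]
    congr 1
    ring
  rw [h3]
  refine (Nat.pow_le_pow_left h2 _).trans (Nat.pow_le_pow_right (by omega) ?_)
  exact Nat.mul_le_mul_right _ (Nat.le_succ _)

theorem two_pow_qq_le (d x : ℕ) : 2 ^ (qq (Nat.log 2 x) + 1) ≤ CC d x := by
  have h1 : 2 ^ (qq (Nat.log 2 x) + 1) ≤ 2 ^ (1 * (Nat.log 2 x + 1)) :=
    Nat.pow_le_pow_right (by norm_num) (by have := qq_le (Nat.log 2 x); omega)
  refine (h1.trans (two_pow_log_le x 1)).trans ?_
  unfold CC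
  exact Nat.pow_le_pow_right (by omega) (by omega)

/-! ### Linear space -/

variable {α : Type} [Ctx α]

@[fun_prop]
theorem LS.ll {n : α → ℕ} (hn : LS n) : LS (fun a => ll (n a)) := by
  unfold LinSpace.ll
  fun_prop

@[fun_prop]
theorem LS.qq {n : α → ℕ} (hn : LS n) : LS (fun a => qq (n a)) := by
  unfold LinSpace.qq
  fun_prop

theorem LS.bb {d : ℕ} (hd : d ≠ 0) {n : α → ℕ} (hn : LS n) : LS (fun a => bb d (n a)) := by
  unfold LinSpace.bb
  exact LS.max (LS.const 1) (LS.rt (LS.qq hn) hd)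

@[fun_prop]
theorem LS.ss {n s : α → ℕ} (hn : LS n) (hs : LS s) : LS (fun a => ss (n a) (s a)) := by
  unfold LinSpace.ss
  fun_prop

theorem LS.LL {d : ℕ} (hd : d ≠ 0) {n s : α → ℕ} (hn : LS n) (hs : LS s) :
    LS (fun a => LL d (n a) (s a)) := by
  unfold LinSpace.LL
  exact LS.mul (LS.pow_const (LS.bb hd hn) d) (LS.ss hn hs)

theorem LS.pp {d : ℕ} (hd : d ≠ 0) {n s : α → ℕ} (hn : LS n) (hs : LS s) :
    LS (fun a => pp d (n a) (s a)) := by
  unfold LinSpace.pp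
  exact LS.nextPrime (LS.add (LS.mul (LS.const _) (LS.LL hd hn hs)) (LS.const 2))

@[fun_prop]
theorem LS.CC {d : ℕ} {x : α → ℕ} (hx : LS x) : LS (fun a => CC d (x a)) := by
  unfold LinSpace.CC
  fun_prop

/-- The state of the origin at time `qq n * bb d n`, `n = log x`. -/
noncomputable def simN (d s T ini x y : ℕ) : ℕ :=
  dig (2 ^ ss (Nat.log 2 x) s) (tval (3 ^ d) (bb d (Nat.log 2 x) ^ d * ss (Nat.log 2 x) s)
    (FN d (bb d (Nat.log 2 x)) (ss (Nat.log 2 x) s) T)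
    (leafN d (bb d (Nat.log 2 x)) (ss (Nat.log 2 x) s) (qq (Nat.log 2 x) + 1)
      (2 * (qq (Nat.log 2 x) + 1) + 1) ini x y)
    (chN d (2 * (qq (Nat.log 2 x) + 1) + 1)) (qq (Nat.log 2 x))
    (tab (2 * (qq (Nat.log 2 x) + 1) + 1) d fun _ => qq (Nat.log 2 x) + 1)) 0

theorem LS.simN {d : ℕ} (hd : d ≠ 0) {s T ini x y : α → ℕ} (hs : LS s) (hT : LS T)
    (hini : LS ini) (hx : LS x) (hy : LS y) :
    LS (fun a => simN d (s a) (T a) (ini a) (x a) (y a)) := by
  have hn : LS (fun a => Nat.log 2 (x a)) := LS.log2 hx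
  have hb := LS.bb hd hn
  have hss := LS.ss hn hs
  have hq := LS.qq hn
  have hC : LS (fun a => LinSpace.CC d (x a)) := LS.CC hx
  have hbpos : ∀ a, 0 < LinSpace.bb d (Nat.log 2 (x a)) ^ d := fun a => Nat.pow_pos (bb_pos _ _)
  have hle1 : ∀ a, (2 ^ LinSpace.ss (Nat.log 2 (x a)) (s a)) ^
      (LinSpace.bb d (Nat.log 2 (x a)) ^ d) ≤ LinSpace.CC d (x a) := fun a =>
    (Nat.pow_le_pow_right (by positivity) (Nat.le_mul_of_pos_left _ (by positivity))).trans
      (two_pow_LL_le hd (x a) (s a))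
  have hle2 : ∀ a, 2 ^ LinSpace.ss (Nat.log 2 (x a)) (s a) ≤ LinSpace.CC d (x a) := fun a =>
    (Nat.le_self_pow (hbpos a).ne' _).trans (hle1 a)
  have h2s : LS (fun a => 2 ^ LinSpace.ss (Nat.log 2 (x a)) (s a)) :=
    LS.pow_of_le (f := fun _ => 2) (LS.const 2) hss hC hle2
  have hW : LS (fun a => 2 * (LinSpace.qq (Nat.log 2 (x a)) + 1) + 1) := by fun_prop
  unfold LinSpace.simN
  refine LS.dig h2s ?_ (LS.const 0)
  refine LS.tval (p := fun a => LinSpace.pp d (Nat.log 2 (x a)) (s a)) (D := fun _ => 3 ^ d)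
    (L := fun a => LinSpace.bb d (Nat.log 2 (x a)) ^ d * LinSpace.ss (Nat.log 2 (x a)) (s a))
    (h := fun a => LinSpace.qq (Nat.log 2 (x a)))
    (root := fun a => LinSpace.tab (2 * (LinSpace.qq (Nat.log 2 (x a)) + 1) + 1) d fun _ =>
      LinSpace.qq (Nat.log 2 (x a)) + 1)
    (G := fun a => (2 * (LinSpace.qq (Nat.log 2 (x a)) + 1) + 1) ^ d)
    (C := fun a => LinSpace.CC d (x a))
    (F := fun a => LinSpace.FN d (LinSpace.bb d (Nat.log 2 (x a)))
      (LinSpace.ss (Nat.log 2 (x a)) (s a)) (T a))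
    (leaf := fun a => LinSpace.leafN d (LinSpace.bb d (Nat.log 2 (x a)))
      (LinSpace.ss (Nat.log 2 (x a)) (s a)) (LinSpace.qq (Nat.log 2 (x a)) + 1)
      (2 * (LinSpace.qq (Nat.log 2 (x a)) + 1) + 1) (ini a) (x a) (y a))
    (ch := fun a => LinSpace.chN d (2 * (LinSpace.qq (Nat.log 2 (x a)) + 1) + 1))
    (LS.pp hd hn hs) (LS.const _) (LS.mul (LS.pow_const hb d) hss) hq ?_ (by fun_prop) hC
    ?_ ?_ ?_ ?_ ?_ ?_ ?_ ?_ ?_ ?_ ?_
  · refine LS.tab (q := fun a => 2 * (LinSpace.qq (Nat.log 2 (x a)) + 1) + 1) (m := fun _ => d)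
      (C := fun a => (2 * (LinSpace.qq (Nat.log 2 (x a)) + 1) + 1) ^ d)
      (d := fun a _ => LinSpace.qq (Nat.log 2 (x a)) + 1) (by fun_prop) hW (by fun_prop)
      (by fun_prop) (fun a _ _ => by omega) (fun _ => le_rfl)
  · exact LS.FN (b := fun z : α × ℕ => LinSpace.bb d (Nat.log 2 (x z.1)))
      (s := fun z => LinSpace.ss (Nat.log 2 (x z.1)) (s z.1)) (T := fun z => T z.1)
      (r := fun z => z.2) (C := fun z => LinSpace.CC d (x z.1))
      (LS.comp (f := fun z : α × ℕ => z.1) hb (by fun_prop)) (by fun_prop) (by fun_prop)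
      (by fun_prop) (by fun_prop) (fun z => bb_pos _ _) (fun z => two_pow_LL_le hd _ _)
  · exact LS.leafN (b := fun z : α × ℕ => LinSpace.bb d (Nat.log 2 (x z.1)))
      (s := fun z => LinSpace.ss (Nat.log 2 (x z.1)) (s z.1))
      (H := fun z => LinSpace.qq (Nat.log 2 (x z.1)) + 1)
      (W := fun z => 2 * (LinSpace.qq (Nat.log 2 (x z.1)) + 1) + 1)
      (ini := fun z => ini z.1) (x := fun z => x z.1) (y := fun z => y z.1)
      (u := fun z => z.2) (C := fun z => LinSpace.CC d (x z.1))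
      (LS.comp (f := fun z : α × ℕ => z.1) hb (by fun_prop)) (by fun_prop) (by fun_prop)
      (by fun_prop) (by fun_prop) (by fun_prop) (by fun_prop) (by fun_prop) (by fun_prop)
      (fun z => bb_pos _ _) (fun z => hle1 z.1)
  · exact LS.chN (W := fun z : α × ℕ × ℕ => 2 * (LinSpace.qq (Nat.log 2 (x z.1)) + 1) + 1)
      (u := fun z => z.2.1) (i := fun z => z.2.2) (by fun_prop) (by fun_prop) (by fun_prop)
      (fun z => by omega)
  · intro a u i
    exact chN_le (by omega) u i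
  · intro a
    exact (pp_spec _ _ _).1
  · intro a
    have := (pp_spec d (Nat.log 2 (x a)) (s a)).2.1
    omega
  · intro a
    have := (pp_spec d (Nat.log 2 (x a)) (s a)).2.1
    have h2 : LinSpace.LL d (Nat.log 2 (x a)) (s a) = LinSpace.bb d (Nat.log 2 (x a)) ^ d *
      LinSpace.ss (Nat.log 2 (x a)) (s a) := rfl
    rw [h2] at this
    omega
  · intro a r
    exact dig_lt (by positivity) _ _
  · intro a u
    have h1 := tab_lt (q := 2 ^ LinSpace.ss (Nat.log 2 (x a)) (s a))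
      (m := LinSpace.bb d (Nat.log 2 (x a)) ^ d) (d := fun c => LinSpace.dig
      (2 ^ LinSpace.ss (Nat.log 2 (x a)) (s a)) (ini a) (3 * LinSpace.symN d (x a)
      ((LinSpace.qq (Nat.log 2 (x a)) + 1) * LinSpace.bb d (Nat.log 2 (x a))) (fun e =>
        LinSpace.dig (2 * (LinSpace.qq (Nat.log 2 (x a)) + 1) + 1) u e *
          LinSpace.bb d (Nat.log 2 (x a)) + LinSpace.dig (LinSpace.bb d (Nat.log 2 (x a))) c e) +
      LinSpace.symN d (y a) ((LinSpace.qq (Nat.log 2 (x a)) + 1) *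
        LinSpace.bb d (Nat.log 2 (x a))) (fun e =>
        LinSpace.dig (2 * (LinSpace.qq (Nat.log 2 (x a)) + 1) + 1) u e *
          LinSpace.bb d (Nat.log 2 (x a)) + LinSpace.dig (LinSpace.bb d (Nat.log 2 (x a))) c e)))
      (fun _ _ => dig_lt (by positivity) _ _)
    rwa [← pow_mul, mul_comm (LinSpace.ss _ _)] at h1
  · intro a
    exact pp_pow_le hd (x a) (s a)
  · intro a
    exact MM_pow_le hd (x a) (s a)

theorem simN_eq {d : ℕ} [NeZero d] {s T ini x y : ℕ} (hs : 1 ≤ s) (hs2 : s ≤ ll (Nat.log 2 x)) :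
    simN d s T ini x y = ccfg (d := d) s T ini x y (qq (Nat.log 2 x) * bb d (Nat.log 2 x)) 0 := by
  have h1 : ss (Nat.log 2 x) s = s := by
    rw [ss, min_eq_left hs2, max_eq_right hs]
  unfold simN
  rw [h1]
  have h2 := tval_eq (d := d) (b := bb d (Nat.log 2 x)) (s := s) (H := qq (Nat.log 2 x) + 1)
    (W := 2 * (qq (Nat.log 2 x) + 1) + 1) (ini := ini) (x := x) (y := y) (T := T)
    (h := qq (Nat.log 2 x)) (bb_pos _ _) (by omega) (by omega) (qq (Nat.log 2 x)) le_rfl 0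
    (fun e => by simp)
  have h3 : lab d (qq (Nat.log 2 x) + 1) (2 * (qq (Nat.log 2 x) + 1) + 1) (0 : Fin d → ℤ) =
      tab (2 * (qq (Nat.log 2 x) + 1) + 1) d fun _ => qq (Nat.log 2 x) + 1 := by
    unfold lab
    refine tab_congr fun e he => ?_
    rw [dif_pos he]
    simp only [Pi.zero_apply, zero_add]
    exact Int.toNat_natCast _
  rw [h3] at h2
  rw [h2, bv, dig_tab (fun _ _ => ccfg_lt _ _ _ _ _ _ _) (Nat.pow_pos (bb_pos _ _))]
  congr 1
  funext e
  show (0 : ℤ) * _ + ((dig (bb d (Nat.log 2 x)) 0 e : ℕ) : ℤ) = 0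
  simp [dig]

end Pool.Agent.Helper65.LinSpace
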