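import Pool.Agent.Helper65.LinSpace.CellsV

/-!
# The parameters of the simulation
-/

namespace Pool.Agent.Helper65.LinSpace

open Finset

/-- The length of `n` in binary. -/
def ll (n : ℕ) : ℕ := Nat.log 2 n + 1

/-- The length of the length. -/
def mm (n : ℕ) : ℕ := ll (ll n)

/-- The height of the tree. -/
def hh (n : ℕ) : ℕ := n / ll n

/-- The maximal number of cells of a block. -/
def kk (n : ℕ) : ℕ := n / (ll n * (mm n * mm n))

/-- The side of a block. -/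
def bb (d n : ℕ) : ℕ := max 1 (rt d (kk n))

/-- The number of bits per cell. -/
def ss (n s : ℕ) : ℕ := max 1 (min s (mm n))

/-- `1` if the dimension is positive and small. -/
def small (n d : ℕ) : ℕ := le01 1 d * le01 (capPow 3 d (mm n)) (mm n)

/-- The dimension in use. -/
def dd (n d : ℕ) : ℕ := ifz (small n d) 1 d

/-- The number of bits of a block. -/
def LL (d n s : ℕ) : ℕ := bb d n ^ d * ss n s

/-- The size of the field. -/
noncomputable def pp (d n s : ℕ) : ℕ := nextPrime (3 ^ d * LL d n s + 2)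

theorem ll_pos (n : ℕ) : 1 ≤ ll n := Nat.le_add_left _ _

theorem mm_pos (n : ℕ) : 1 ≤ mm n := ll_pos _

theorem lt_two_pow_ll (n : ℕ) : n + 1 ≤ 2 ^ ll n := Nat.lt_pow_succ_log_self (by norm_num) n

theorem ll_le_self {n : ℕ} (hn : 0 < n) : ll n ≤ n := Nat.log_lt_self 2 (by omega)

theorem mm_le (n : ℕ) : mm n ≤ ll n := ll_le_self (ll_pos n)

theorem cube_le_two_pow (k : ℕ) : (k + 1) * (k + 1) * (k + 1) ≤ 8 * 2 ^ k := by
  induction k using Nat.strong_induction_on with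
  | _ k ih =>
    rcases k with _ | _ | _ | _ | k
    · norm_num
    · norm_num
    · norm_num
    · norm_num
    · have h1 := ih (k + 3) (by omega)
      have h2 : 2 ^ (k + 4) = 2 * 2 ^ (k + 3) := by ring
      rw [show k + 1 + 1 + 1 + 1 = k + 4 by ring, h2]
      have h3 : (k + 4 + 1) * (k + 4 + 1) * (k + 4 + 1) ≤
          2 * ((k + 3 + 1) * (k + 3 + 1) * (k + 3 + 1)) := by
        ring_nf
        nlinarith [Nat.zero_le k, Nat.zero_le (k * k), Nat.zero_le (k * k * k)]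
      omega

theorem ll_cube_le (n : ℕ) : ll n * ll n * ll n ≤ 8 * (n + 1) := by
  rcases Nat.eq_zero_or_pos n with h | h
  · subst h
    simp [ll]
  · have h1 := cube_le_two_pow (Nat.log 2 n)
    have h2 : 2 ^ Nat.log 2 n ≤ n := Nat.pow_log_le_self 2 (by omega)
    unfold ll
    omega

theorem ll_mul_mm_sq_le (n : ℕ) : ll n * (mm n * mm n) ≤ 8 * (n + 1) := by
  refine le_trans ?_ (ll_cube_le n)
  rw [mul_assoc]
  exact Nat.mul_le_mul_left _ (Nat.mul_le_mul (mm_le n) (mm_le n))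

theorem kk_mul_le (n : ℕ) : kk n * (ll n * (mm n * mm n)) ≤ n := Nat.div_mul_le_self _ _

theorem hh_mul_le (n : ℕ) : hh n * ll n ≤ n := Nat.div_mul_le_self _ _

theorem hh_le (n : ℕ) : hh n ≤ n := Nat.div_le_self _ _

theorem max_kk_mul_le (n : ℕ) : max 1 (kk n) * (ll n * (mm n * mm n)) ≤ 8 * (n + 1) := by
  rcases le_total 1 (kk n) with h | h
  · rw [max_eq_right h]
    have := kk_mul_le n
    omega
  · rw [max_eq_left h, one_mul]
    exact ll_mul_mm_sq_le n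

theorem bb_pos (d n : ℕ) : 0 < bb d n := lt_of_lt_of_le Nat.one_pos (le_max_left _ _)

theorem bb_pow_le {d : ℕ} (hd : d ≠ 0) (n : ℕ) : bb d n ^ d ≤ max 1 (kk n) := by
  unfold bb
  rcases le_total 1 (rt d (kk n)) with h | h
  · rw [max_eq_right h]
    exact (rt_pow_le hd _).trans (le_max_right _ _)
  · rw [max_eq_left h, one_pow]
    exact le_max_left _ _

theorem ss_pos (n s : ℕ) : 0 < ss n s := lt_of_lt_of_le Nat.one_pos (le_max_left _ _)

theorem ss_le (n s : ℕ) : ss n s ≤ mm n := max_le (mm_pos n) (min_le_right _ _)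

theorem small_iff {n d : ℕ} : small n d ≠ 0 ↔ d ≠ 0 ∧ 3 ^ d ≤ mm n := by
  unfold small
  rw [Ne, mul_eq_zero]
  simp only [le01, capPow]
  by_cases h : 1 ≤ d
  · rw [if_pos h]
    by_cases h2 : 3 ^ d ≤ mm n
    · rw [if_pos ((min_le_left _ _).trans h2)]
      simp only [one_ne_zero, or_self, not_false_eq_true, true_iff]
      exact ⟨by omega, h2⟩
    · rw [if_neg]
      · simp [h2]
      · intro h3
        rcases min_le_iff.1 h3 with h4 | h4
        · exact h2 h4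
        · omega
  · rw [if_neg h]
    simp only [true_or, not_true_eq_false, false_iff]
    intro h3
    exact h (by omega)

theorem dd_eq {n d : ℕ} (hd : d ≠ 0) (h : 3 ^ d ≤ mm n) : dd n d = d :=
  if_neg (small_iff.2 ⟨hd, h⟩)

theorem dd_spec (n d : ℕ) : dd n d ≠ 0 ∧ 3 ^ dd n d ≤ 3 * mm n := by
  have := mm_pos n
  by_cases h : small n d = 0
  · have h1 : dd n d = 1 := if_pos h
    rw [h1]
    exact ⟨one_ne_zero, by omega⟩
  · obtain ⟨h1, h2⟩ := small_iff.1 h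
    rw [dd_eq h1 h2]
    exact ⟨h1, by omega⟩

section

variable {d n : ℕ} (hd : d ≠ 0) (h3 : 3 ^ d ≤ 3 * mm n) (s : ℕ)

include hd h3

theorem block_le : 3 ^ d * LL d n s * ll n ≤ 24 * (n + 1) := by
  have h1 := bb_pow_le hd n
  have h2 := ss_le n s
  calc 3 ^ d * LL d n s * ll n ≤ (3 * mm n) * (max 1 (kk n) * mm n) * ll n :=
        Nat.mul_le_mul_right _ (Nat.mul_le_mul h3 (Nat.mul_le_mul h1 h2))
    _ = 3 * (max 1 (kk n) * (ll n * (mm n * mm n))) := by ring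
    _ ≤ 3 * (8 * (n + 1)) := Nat.mul_le_mul_left _ (max_kk_mul_le n)
    _ = 24 * (n + 1) := by ring

omit hd h3 in
theorem pp_spec : (pp d n s).Prime ∧ 3 ^ d * LL d n s + 2 < pp d n s ∧
    pp d n s ≤ 2 * (3 ^ d * LL d n s + 2) := nextPrime_spec (by omega)

omit hd h3 in
theorem LL_pos : 0 < LL d n s := Nat.mul_pos (Nat.pow_pos (bb_pos _ _)) (ss_pos _ _)

theorem pp_le : pp d n s ≤ 2 ^ (7 * ll n) := by
  have h1 := (pp_spec (d := d) (n := n) s).2.2
  have h2 := block_le hd h3 s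
  have h4 := lt_two_pow_ll n
  have h5 : 3 ^ d * LL d n s ≤ 3 ^ d * LL d n s * ll n := Nat.le_mul_of_pos_right _ (ll_pos n)
  have h6 : 2 ^ (ll n + 6) ≤ 2 ^ (7 * ll n) :=
    Nat.pow_le_pow_right (by norm_num) (by have := ll_pos n; omega)
  have h7 : 2 ^ (ll n + 6) = 64 * 2 ^ ll n := by ring
  omega

theorem pp_pow_le' : pp d n s ^ ((3 ^ d + 1) * LL d n s) ≤ 2 ^ (336 * (n + 1)) := by
  refine (Nat.pow_le_pow_left (pp_le hd h3 s) _).trans ?_
  rw [← pow_mul]
  refine Nat.pow_le_pow_right (by norm_num) ?_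
  have h := block_le hd h3 s
  have h4 : 1 ≤ 3 ^ d := Nat.one_le_pow _ _ (by norm_num)
  calc 7 * ll n * ((3 ^ d + 1) * LL d n s)
      ≤ 7 * ll n * ((2 * 3 ^ d) * LL d n s) :=
        Nat.mul_le_mul_left _ (Nat.mul_le_mul_right _ (by omega))
    _ = 14 * (3 ^ d * LL d n s * ll n) := by ring
    _ ≤ 14 * (24 * (n + 1)) := Nat.mul_le_mul_left _ h
    _ = 336 * (n + 1) := by ring

theorem MM_pow_le' : MM (pp d n s) (3 ^ d) ^ hh n ≤ 2 ^ (336 * (n + 1)) := by
  have h1 : MM (pp d n s) (3 ^ d) ≤ 2 ^ (12 * ll n) := by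
    have h2 := pp_le hd h3 s
    have h5 : 2 * 3 ^ d + 3 ≤ 16 * 2 ^ ll n := by
      have := mm_le n
      have := mm_pos n
      have h6 : ll n ≤ 2 ^ ll n := (Nat.lt_two_pow_self).le
      omega
    have h8 : 16 * 2 ^ ll n ≤ 2 ^ (5 * ll n) := by
      have h9 : 2 ^ (ll n + 4) = 16 * 2 ^ ll n := by ring
      rw [← h9]
      exact Nat.pow_le_pow_right (by norm_num) (by have := ll_pos n; omega)
    calc MM (pp d n s) (3 ^ d) ≤ 2 ^ (7 * ll n) * 2 ^ (5 * ll n) := by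
          unfold MM
          exact Nat.mul_le_mul ((Nat.sub_le _ _).trans h2) (h5.trans h8)
      _ = 2 ^ (12 * ll n) := by
        rw [← pow_add]
        congr 1
        ring
  refine (Nat.pow_le_pow_left h1 _).trans ?_
  rw [← pow_mul]
  refine Nat.pow_le_pow_right (by norm_num) ?_
  have h := hh_mul_le n
  calc 12 * ll n * hh n = 12 * (hh n * ll n) := by ring
    _ ≤ 12 * n := Nat.mul_le_mul_left _ h
    _ ≤ 336 * (n + 1) := by omega

omit hd in
theorem label_pow_le' : (2 * (hh n + 1) + 1) ^ d ≤ 2 ^ (336 * (n + 1)) := by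
  have h1 : 2 * (hh n + 1) + 1 ≤ 2 ^ (3 * ll n) := by
    have h2 := hh_le n
    have h4 := lt_two_pow_ll n
    have h5 : 2 ^ (ll n + 2) ≤ 2 ^ (3 * ll n) :=
      Nat.pow_le_pow_right (by norm_num) (by have := ll_pos n; omega)
    have h6 : 2 ^ (ll n + 2) = 4 * 2 ^ ll n := by ring
    omega
  have h7 : d ≤ 3 * mm n := (Nat.lt_pow_self (by norm_num)).le.trans h3
  refine (Nat.pow_le_pow_left h1 _).trans ?_
  rw [← pow_mul]
  refine Nat.pow_le_pow_right (by norm_num) ?_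
  have h8 := ll_cube_le n
  have h9 := mm_le n
  have h10 : ll n ≤ ll n * ll n := Nat.le_mul_of_pos_left _ (ll_pos n)
  calc 3 * ll n * d ≤ 3 * ll n * (3 * mm n) := Nat.mul_le_mul_left _ h7
    _ = 9 * (ll n * mm n) := by ring
    _ ≤ 9 * (ll n * (ll n * ll n)) :=
        Nat.mul_le_mul_left _ (Nat.mul_le_mul_left _ (h9.trans h10))
    _ = 9 * (ll n * ll n * ll n) := by ring
    _ ≤ 336 * (n + 1) := by omega

end

theorem two_pow_log_le (x k : ℕ) : 2 ^ (k * (Nat.log 2 x + 1)) ≤ (x + 2) ^ (2 * k) := by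
  have h : 2 ^ (Nat.log 2 x + 1) ≤ (x + 2) ^ 2 := by
    rcases Nat.eq_zero_or_pos x with h | h
    · subst h
      norm_num
    · have := Nat.pow_log_le_self 2 (show x ≠ 0 by omega)
      rw [pow_succ]
      nlinarith
  rw [mul_comm k, pow_mul, pow_mul]
  exact Nat.pow_le_pow_left h k

/-- The bound for all numbers in the simulation. -/
def CC (x : ℕ) : ℕ := (x + 2) ^ (2 * 336)

section

variable {d x : ℕ} (hd : d ≠ 0) (h3 : 3 ^ d ≤ 3 * mm (Nat.log 2 x)) (s : ℕ)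

include hd h3

theorem pp_pow_le : pp d (Nat.log 2 x) s ^ ((3 ^ d + 1) * LL d (Nat.log 2 x) s) ≤ CC x :=
  (pp_pow_le' hd h3 s).trans (two_pow_log_le x 336)

theorem MM_pow_le : MM (pp d (Nat.log 2 x) s) (3 ^ d) ^ hh (Nat.log 2 x) ≤ CC x :=
  (MM_pow_le' hd h3 s).trans (two_pow_log_le x 336)

omit hd in
theorem label_pow_le : (2 * (hh (Nat.log 2 x) + 1) + 1) ^ d ≤ CC x :=
  (label_pow_le' h3).trans (two_pow_log_le x 336)

theorem pp_le_CC : pp d (Nat.log 2 x) s ≤ CC x := by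
  refine le_trans ?_ (pp_pow_le hd h3 s)
  refine Nat.le_self_pow ?_ _
  have := LL_pos (d := d) (n := Nat.log 2 x) s
  positivity

theorem bb_pow_le_CC : bb d (Nat.log 2 x) ^ d ≤ CC x := by
  refine le_trans ?_ (pp_le_CC hd h3 0)
  have h1 := (pp_spec (d := d) (n := Nat.log 2 x) 0).2.1
  have h2 : bb d (Nat.log 2 x) ^ d ≤ LL d (Nat.log 2 x) 0 := Nat.le_mul_of_pos_right _ (ss_pos _ _)
  have h4 : LL d (Nat.log 2 x) 0 ≤ 3 ^ d * LL d (Nat.log 2 x) 0 :=
    Nat.le_mul_of_pos_left _ (by positivity)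
  omega

theorem three_pow_le_CC : 3 ^ d ≤ CC x := by
  refine le_trans ?_ (pp_le_CC hd h3 0)
  have h1 := (pp_spec (d := d) (n := Nat.log 2 x) 0).2.1
  have h4 : 3 ^ d ≤ 3 ^ d * LL d (Nat.log 2 x) 0 :=
    Nat.le_mul_of_pos_right _ (LL_pos _)
  omega

theorem two_pow_LL_le :
    (2 ^ ss (Nat.log 2 x) s) ^ (3 ^ d * bb d (Nat.log 2 x) ^ d) ≤ CC x := by
  refine le_trans ?_ (pp_pow_le hd h3 s)
  have h2 := (pp_spec (d := d) (n := Nat.log 2 x) s).1.two_le
  have h4 : (2 ^ ss (Nat.log 2 x) s) ^ (3 ^ d * bb d (Nat.log 2 x) ^ d) =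
      2 ^ (3 ^ d * LL d (Nat.log 2 x) s) := by
    rw [← pow_mul, LL]
    congr 1
    ring
  rw [h4]
  refine (Nat.pow_le_pow_left h2 _).trans (Nat.pow_le_pow_right (by omega) ?_)
  exact Nat.mul_le_mul_right _ (Nat.le_succ _)

end

theorem two_pow_le_CC (x : ℕ) : 2 ^ (Nat.log 2 x + 1) ≤ CC x := by
  have h1 : 2 ^ (Nat.log 2 x + 1) ≤ 2 ^ (336 * (Nat.log 2 x + 1)) :=
    Nat.pow_le_pow_right (by norm_num) (by omega)
  exact h1.trans (two_pow_log_le x 336)

/-! ### Linear space -/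

variable {α : Type} [Ctx α]

@[fun_prop]
theorem LS.ll {n : α → ℕ} (hn : LS n) : LS (fun a => LinSpace.ll (n a)) := by
  unfold LinSpace.ll
  fun_prop

@[fun_prop]
theorem LS.mm {n : α → ℕ} (hn : LS n) : LS (fun a => LinSpace.mm (n a)) := by
  unfold LinSpace.mm
  fun_prop

@[fun_prop]
theorem LS.hh {n : α → ℕ} (hn : LS n) : LS (fun a => LinSpace.hh (n a)) := by
  unfold LinSpace.hh
  fun_prop

@[fun_prop]
theorem LS.kk {n : α → ℕ} (hn : LS n) : LS (fun a => LinSpace.kk (n a)) := by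
  unfold LinSpace.kk
  fun_prop

@[fun_prop]
theorem LS.small {n d : α → ℕ} (hn : LS n) (hd : LS d) :
    LS (fun a => LinSpace.small (n a) (d a)) := by
  unfold LinSpace.small
  fun_prop

@[fun_prop]
theorem LS.dd {n d : α → ℕ} (hn : LS n) (hd : LS d) :
    LS (fun a => LinSpace.dd (n a) (d a)) := by
  unfold LinSpace.dd
  fun_prop

theorem LS.bb {d n : α → ℕ} (hd : LS d) (hd0 : ∀ a, d a ≠ 0) (hn : LS n) :
    LS (fun a => LinSpace.bb (d a) (n a)) := by
  unfold LinSpace.bb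
  exact LS.max (LS.const 1) (LS.rtV (LS.kk hn) hd hd0)

@[fun_prop]
theorem LS.ss {n s : α → ℕ} (hn : LS n) (hs : LS s) :
    LS (fun a => LinSpace.ss (n a) (s a)) := by
  unfold LinSpace.ss
  fun_prop

@[fun_prop]
theorem LS.CC {x : α → ℕ} (hx : LS x) : LS (fun a => LinSpace.CC (x a)) := by
  unfold LinSpace.CC
  fun_prop

/-- The state of the origin at time `hh n * bb d n`, `n = log x`. -/
noncomputable def simN (d s T ini x y : ℕ) : ℕ :=
  dig (2 ^ ss (Nat.log 2 x) s) (tval (3 ^ d) (bb d (Nat.log 2 x) ^ d * ss (Nat.log 2 x) s)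
    (FN d (bb d (Nat.log 2 x)) (ss (Nat.log 2 x) s) T)
    (leafN d (bb d (Nat.log 2 x)) (ss (Nat.log 2 x) s) (hh (Nat.log 2 x) + 1)
      (2 * (hh (Nat.log 2 x) + 1) + 1) ini x y)
    (chN d (2 * (hh (Nat.log 2 x) + 1) + 1)) (hh (Nat.log 2 x))
    (tab (2 * (hh (Nat.log 2 x) + 1) + 1) d fun _ => hh (Nat.log 2 x) + 1)) 0

theorem LS.simN {d s T ini x y : α → ℕ} (hd : LS d) (hs : LS s) (hT : LS T)
    (hini : LS ini) (hx : LS x) (hy : LS y) (hd0 : ∀ a, d a ≠ 0)
    (h3 : ∀ a, 3 ^ d a ≤ 3 * LinSpace.mm (Nat.log 2 (x a))) :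
    LS (fun a => LinSpace.simN (d a) (s a) (T a) (ini a) (x a) (y a)) := by
  have hn : LS (fun a => Nat.log 2 (x a)) := LS.log2 hx
  have hb : LS (fun a => LinSpace.bb (d a) (Nat.log 2 (x a))) := LS.bb hd hd0 hn
  have hss := LS.ss hn hs
  have hq := LS.hh hn
  have hC : LS (fun a => LinSpace.CC (x a)) := LS.CC hx
  have hbpos : ∀ a, 0 < LinSpace.bb (d a) (Nat.log 2 (x a)) ^ d a :=
    fun a => Nat.pow_pos (bb_pos _ _)
  have hbC : ∀ a, LinSpace.bb (d a) (Nat.log 2 (x a)) ^ d a ≤ LinSpace.CC (x a) :=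
    fun a => bb_pow_le_CC (hd0 a) (h3 a)
  have h3C : ∀ a, 3 ^ d a ≤ LinSpace.CC (x a) := fun a => three_pow_le_CC (hd0 a) (h3 a)
  have hWC : ∀ a, (2 * (LinSpace.hh (Nat.log 2 (x a)) + 1) + 1) ^ d a ≤ LinSpace.CC (x a) :=
    fun a => label_pow_le (h3 a)
  have hall : ∀ a, (2 ^ LinSpace.ss (Nat.log 2 (x a)) (s a)) ^
      (3 ^ d a * LinSpace.bb (d a) (Nat.log 2 (x a)) ^ d a) ≤ LinSpace.CC (x a) :=
    fun a => two_pow_LL_le (hd0 a) (h3 a) (s a)
  have hsm := fun a => small_pow_le (bb_pos _ _) (hall a)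
  have h2s : LS (fun a => 2 ^ LinSpace.ss (Nat.log 2 (x a)) (s a)) :=
    LS.pow_of_le (f := fun _ => 2) (LS.const 2) hss hC fun a => (hsm a).1
  have h3d : LS (fun a => 3 ^ d a) := LS.pow_of_le (f := fun _ => 3) (LS.const 3) hd hC h3C
  have hbd : LS (fun a => LinSpace.bb (d a) (Nat.log 2 (x a)) ^ d a) := LS.pow_of_le hb hd hC hbC
  have hW : LS (fun a => 2 * (LinSpace.hh (Nat.log 2 (x a)) + 1) + 1) := by fun_prop
  have hWd : LS (fun a => (2 * (LinSpace.hh (Nat.log 2 (x a)) + 1) + 1) ^ d a) :=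
    LS.pow_of_le hW hd hC hWC
  have hp : LS (fun a => LinSpace.pp (d a) (Nat.log 2 (x a)) (s a)) := by
    unfold LinSpace.pp LinSpace.LL
    exact LS.nextPrime (LS.add (LS.mul h3d (LS.mul hbd hss)) (LS.const 2))
  unfold LinSpace.simN
  refine LS.dig h2s ?_ (LS.const 0)
  refine LS.tval (p := fun a => LinSpace.pp (d a) (Nat.log 2 (x a)) (s a)) (D := fun a => 3 ^ d a)
    (L := fun a => LinSpace.bb (d a) (Nat.log 2 (x a)) ^ d a *
      LinSpace.ss (Nat.log 2 (x a)) (s a))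
    (h := fun a => LinSpace.hh (Nat.log 2 (x a)))
    (root := fun a => LinSpace.tab (2 * (LinSpace.hh (Nat.log 2 (x a)) + 1) + 1) (d a) fun _ =>
      LinSpace.hh (Nat.log 2 (x a)) + 1)
    (G := fun a => (2 * (LinSpace.hh (Nat.log 2 (x a)) + 1) + 1) ^ d a)
    (C := fun a => LinSpace.CC (x a))
    (F := fun a => LinSpace.FN (d a) (LinSpace.bb (d a) (Nat.log 2 (x a)))
      (LinSpace.ss (Nat.log 2 (x a)) (s a)) (T a))
    (leaf := fun a => LinSpace.leafN (d a) (LinSpace.bb (d a) (Nat.log 2 (x a)))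
      (LinSpace.ss (Nat.log 2 (x a)) (s a)) (LinSpace.hh (Nat.log 2 (x a)) + 1)
      (2 * (LinSpace.hh (Nat.log 2 (x a)) + 1) + 1) (ini a) (x a) (y a))
    (ch := fun a => LinSpace.chN (d a) (2 * (LinSpace.hh (Nat.log 2 (x a)) + 1) + 1))
    hp h3d (LS.mul hbd hss) hq ?_ hWd hC
    ?_ ?_ ?_ ?_ ?_ ?_ ?_ ?_ ?_ ?_ ?_
  · exact LS.tab (q := fun a => 2 * (LinSpace.hh (Nat.log 2 (x a)) + 1) + 1) (m := d)
      (C := fun a => LinSpace.CC (x a))
      (d := fun a _ => LinSpace.hh (Nat.log 2 (x a)) + 1) (by fun_prop) hW hd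
      hC (fun a _ _ => by omega) hWC
  · exact LS.FNV (d := fun z : α × ℕ => d z.1)
      (b := fun z => LinSpace.bb (d z.1) (Nat.log 2 (x z.1)))
      (s := fun z => LinSpace.ss (Nat.log 2 (x z.1)) (s z.1)) (T := fun z => T z.1)
      (r := fun z => z.2) (C := fun z => LinSpace.CC (x z.1)) (by fun_prop)
      (LS.comp (f := fun z : α × ℕ => z.1) hb (by fun_prop)) (by fun_prop) (by fun_prop)
      (by fun_prop) (by fun_prop) (fun z => bb_pos _ _) (fun z => hbC z.1) (fun z => h3C z.1)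
      (fun z => hall z.1)
  · exact LS.leafNV (d := fun z : α × ℕ => d z.1)
      (b := fun z => LinSpace.bb (d z.1) (Nat.log 2 (x z.1)))
      (s := fun z => LinSpace.ss (Nat.log 2 (x z.1)) (s z.1))
      (H := fun z => LinSpace.hh (Nat.log 2 (x z.1)) + 1)
      (W := fun z => 2 * (LinSpace.hh (Nat.log 2 (x z.1)) + 1) + 1)
      (ini := fun z => ini z.1) (x := fun z => x z.1) (y := fun z => y z.1)
      (u := fun z => z.2) (C := fun z => LinSpace.CC (x z.1)) (by fun_prop)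
      (LS.comp (f := fun z : α × ℕ => z.1) hb (by fun_prop)) (by fun_prop) (by fun_prop)
      (by fun_prop) (by fun_prop) (by fun_prop) (by fun_prop) (by fun_prop) (by fun_prop)
      (fun z => bb_pos _ _) (fun z => hbC z.1) (fun z => (hsm z.1).2.2.1)
  · exact LS.chNV (d := fun z : α × ℕ × ℕ => d z.1)
      (W := fun z => 2 * (LinSpace.hh (Nat.log 2 (x z.1)) + 1) + 1)
      (u := fun z => z.2.1) (i := fun z => z.2.2) (C := fun z => LinSpace.CC (x z.1))
      (by fun_prop) (by fun_prop) (by fun_prop) (by fun_prop) (by fun_prop)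
      (fun z => by omega) (fun z => hWC z.1)
  · intro a u i
    exact chN_le (by omega) u i
  · intro a
    exact (pp_spec _).1
  · intro a
    have := (pp_spec (d := d a) (n := Nat.log 2 (x a)) (s a)).2.1
    omega
  · intro a
    have := (pp_spec (d := d a) (n := Nat.log 2 (x a)) (s a)).2.1
    have h2 : LinSpace.LL (d a) (Nat.log 2 (x a)) (s a) =
      LinSpace.bb (d a) (Nat.log 2 (x a)) ^ d a * LinSpace.ss (Nat.log 2 (x a)) (s a) := rfl
    rw [h2] at this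
    omega
  · intro a r
    exact dig_lt (by positivity) _ _
  · intro a u
    have h1 := tab_lt (q := 2 ^ LinSpace.ss (Nat.log 2 (x a)) (s a))
      (m := LinSpace.bb (d a) (Nat.log 2 (x a)) ^ d a) (d := fun c => LinSpace.dig
      (2 ^ LinSpace.ss (Nat.log 2 (x a)) (s a)) (ini a) (3 * LinSpace.symN (d a) (x a)
      ((LinSpace.hh (Nat.log 2 (x a)) + 1) * LinSpace.bb (d a) (Nat.log 2 (x a))) (fun e =>
        LinSpace.dig (2 * (LinSpace.hh (Nat.log 2 (x a)) + 1) + 1) u e *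
          LinSpace.bb (d a) (Nat.log 2 (x a)) +
          LinSpace.dig (LinSpace.bb (d a) (Nat.log 2 (x a))) c e) +
      LinSpace.symN (d a) (y a) ((LinSpace.hh (Nat.log 2 (x a)) + 1) *
        LinSpace.bb (d a) (Nat.log 2 (x a))) (fun e =>
        LinSpace.dig (2 * (LinSpace.hh (Nat.log 2 (x a)) + 1) + 1) u e *
          LinSpace.bb (d a) (Nat.log 2 (x a)) +
          LinSpace.dig (LinSpace.bb (d a) (Nat.log 2 (x a))) c e)))
      (fun _ _ => dig_lt (by positivity) _ _)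
    rwa [← pow_mul, mul_comm (LinSpace.ss _ _)] at h1
  · intro a
    exact pp_pow_le (hd0 a) (h3 a) (s a)
  · intro a
    exact MM_pow_le (hd0 a) (h3 a) (s a)

theorem simN_eq {d : ℕ} [NeZero d] {s T ini x y : ℕ} (hs : 1 ≤ s) (hs2 : s ≤ mm (Nat.log 2 x)) :
    simN d s T ini x y = ccfg (d := d) s T ini x y (hh (Nat.log 2 x) * bb d (Nat.log 2 x)) 0 := by
  have h1 : ss (Nat.log 2 x) s = s := by
    rw [ss, min_eq_left hs2, max_eq_right hs]
  unfold simN
  rw [h1]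
  have h2 := tval_eq (d := d) (b := bb d (Nat.log 2 x)) (s := s) (H := hh (Nat.log 2 x) + 1)
    (W := 2 * (hh (Nat.log 2 x) + 1) + 1) (ini := ini) (x := x) (y := y) (T := T)
    (h := hh (Nat.log 2 x)) (bb_pos _ _) (by omega) (by omega) (hh (Nat.log 2 x)) le_rfl 0
    (fun e => by simp)
  have h3 : lab d (hh (Nat.log 2 x) + 1) (2 * (hh (Nat.log 2 x) + 1) + 1) (0 : Fin d → ℤ) =
      tab (2 * (hh (Nat.log 2 x) + 1) + 1) d fun _ => hh (Nat.log 2 x) + 1 := by
    unfold lab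
    refine tab_congr fun e he => ?_
    rw [dif_pos he]
    simp only [Pi.zero_apply, zero_add]
    exact Int.toNat_natCast _
  rw [h3] at h2
  rw [h2, bv, dig_tab (fun _ _ => ccfg_lt _ _ _ _ _ _ _) (Nat.pow_pos (bb_pos _ _))]
  congr 1
  funext e
  show (0 : ℤ) * _ + ((dig (bb d (Nat.log 2 x)) 0 e : ℕ) : ℤ) = 0
  simp [dig]

end Pool.Agent.Helper65.LinSpace
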