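import Pool.Agent.Helper65.LinSpace.Defs

/-!
# Counter programs and functions of the second Grzegorczyk class
-/

namespace Pool.Agent.Helper65.LinSpace

/-- Counter programs. `loop i p` is: while `x i ≠ 0`, decrease `x i` by one and run `p`. -/
inductive Prog
  | skip
  | inc (i : ℕ)
  | seq (p q : Prog)
  | loop (i : ℕ) (p : Prog)

/-- `Run B p s s'`: started in the state `s`, the program `p` ends in `s'`, and every value written
into a counter is at most `B`. -/
inductive Run (B : ℕ) : Prog → (ℕ → ℕ) → (ℕ → ℕ) → Prop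
  | skip (s) : Run B .skip s s
  | inc (i s) (h : s i + 1 ≤ B) : Run B (.inc i) s (Function.update s i (s i + 1))
  | seq {p q s₁ s₂ s₃} (h₁ : Run B p s₁ s₂) (h₂ : Run B q s₂ s₃) : Run B (.seq p q) s₁ s₃
  | loop_zero {i p s} (h : s i = 0) : Run B (.loop i p) s s
  | loop_succ {i p s₁ s₂ s₃} (h : s₁ i ≠ 0)
      (h₁ : Run B p (Function.update s₁ i (s₁ i - 1)) s₂) (h₂ : Run B (.loop i p) s₂ s₃) :
      Run B (.loop i p) s₁ s₃

/-- Environments are sequences of numbers; `cons a e` is `a, e 0, e 1, …`. -/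
def cons (a : ℕ) (e : ℕ → ℕ) : ℕ → ℕ
  | 0 => a
  | i + 1 => e i

@[simp] theorem cons_zero (a : ℕ) (e : ℕ → ℕ) : cons a e 0 = a := rfl

@[simp] theorem cons_succ (a : ℕ) (e : ℕ → ℕ) (i : ℕ) : cons a e (i + 1) = e i := rfl

/-- The value of a primitive recursion with `H` evaluated at `i, r, e`. -/
def recVal (G H : (ℕ → ℕ) → ℕ) (e : ℕ → ℕ) : ℕ → ℕ
  | 0 => G e
  | i + 1 => H (cons i (cons (recVal G H e i) e))

/-- Functions of the second Grzegorczyk class, as functions of an environment. -/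
inductive E2 : ((ℕ → ℕ) → ℕ) → Prop
  | var (i : ℕ) : E2 (fun e => e i)
  | zero : E2 (fun _ => 0)
  | succ {F} (hF : E2 F) : E2 (fun e => F e + 1)
  | mul {F G} (hF : E2 F) (hG : E2 G) : E2 (fun e => F e * G e)
  | bind {F G} (hG : E2 G) (hF : E2 F) : E2 (fun e => F (cons (G e) e))
  | ren {F} (σ : ℕ → ℕ) (hF : E2 F) : E2 (fun e => F (fun i => e (σ i)))
  | prec {G H N C} (hG : E2 G) (hH : E2 H) (hN : E2 N) (hC : E2 C)
      (hb : ∀ e, ∀ i ≤ N e, recVal G H e i ≤ C e) : E2 (fun e => recVal G H e (N e))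

/-- The number of a word: `w₀ + 2 w₁ + … + 2^(n-1) w_(n-1) + 2^n`. -/
def num : List Bool → ℕ
  | [] => 1
  | b :: w => b.toNat + 2 * num w

end Pool.Agent.Helper65.LinSpace
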