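import Pool.Agent.Helper65.LinSpace.Tree

/-!
# Tree evaluation in linear space
-/

namespace Pool.Agent.Helper65.LinSpace

open Finset

variable {α β γ : Type} [Ctx α] [Ctx β] [Ctx γ]

@[fun_prop]
theorem LS.subD {M D h τ m : α → ℕ} (hM : LS M) (hD : LS D) (hh : LS h) (hτ : LS τ) (hm : LS m) :
    LS (fun a => subD (M a) (D a) (h a) (τ a) (m a)) := by
  unfold LinSpace.subD
  fun_prop

@[fun_prop]
theorem LS.isC {D s : α → ℕ} (hD : LS D) (hs : LS s) : LS (fun a => isC (D a) (s a)) := by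
  unfold LinSpace.isC
  fun_prop

@[fun_prop]
theorem LS.kidx {D s : α → ℕ} (hD : LS D) (hs : LS s) : LS (fun a => kidx (D a) (s a)) := by
  unfold LinSpace.kidx
  fun_prop

@[fun_prop]
theorem LS.blkN {M D h τ m : α → ℕ} (hM : LS M) (hD : LS D) (hh : LS h) (hτ : LS τ) (hm : LS m) :
    LS (fun a => blkN (M a) (D a) (h a) (τ a) (m a)) := by
  unfold LinSpace.blkN
  refine LS.nrec (G := fun _ => 0) (N := m) (C := D)
    (K := fun a i t => (t + (LinSpace.kidx (D a) (LinSpace.subD (M a) (D a) (h a) (τ a) i) + 1)) %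
      (D a + 1)) (by fun_prop) hm hD (by fun_prop) ?_
  intro a i _
  exact blkN_le _ _ _ _ _

@[fun_prop]
theorem LS.sgnN {M D h τ m : α → ℕ} (hM : LS M) (hD : LS D) (hh : LS h) (hτ : LS τ) (hm : LS m) :
    LS (fun a => sgnN (M a) (D a) (h a) (τ a) (m a)) := by
  unfold LinSpace.sgnN
  fun_prop

@[fun_prop]
theorem LS.stopN {M D h τ : α → ℕ} (hM : LS M) (hD : LS D) (hh : LS h) (hτ : LS τ) :
    LS (fun a => stopN (M a) (D a) (h a) (τ a)) := by
  unfold LinSpace.stopN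
  refine LS.nrec (G := fun _ => 0) (N := h) (C := h)
    (K := fun a i r => LinSpace.ifz (LinSpace.eq01 r i *
      LinSpace.isC (D a) (LinSpace.subD (M a) (D a) (h a) (τ a) i)) r (i + 1))
    (by fun_prop) hh hh (by fun_prop) ?_
  intro a i hi
  exact ((stopN_aux (M a) (D a) (h a) (τ a) i).1).trans hi

theorem LS.nodeN {M D h root τ m G : α → ℕ} {ch : α → ℕ → ℕ → ℕ} (hM : LS M) (hD : LS D)
    (hh : LS h) (hroot : LS root) (hτ : LS τ) (hm : LS m) (hG : LS G)
    (hch : LS (fun q : α × ℕ × ℕ => ch q.1 q.2.1 q.2.2)) (hb : ∀ a u i, ch a u i ≤ u + G a) :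
    LS (fun a => nodeN (M a) (D a) (h a) (root a) (ch a) (τ a) (m a)) := by
  unfold LinSpace.nodeN
  refine LS.nrec (G := root) (N := m) (C := fun a => root a + m a * G a)
    (K := fun a i u => ch a u (LinSpace.kidx (D a) (LinSpace.subD (M a) (D a) (h a) (τ a) i)))
    hroot hm (by fun_prop) ?_ ?_
  · exact LS.comp (g := fun q : α × ℕ × ℕ => ch q.1 q.2.1 q.2.2)
      (f := fun q : α × ℕ × ℕ => (q.1, q.2.2, LinSpace.kidx (D q.1)
        (LinSpace.subD (M q.1) (D q.1) (h q.1) (τ q.1) q.2.1))) hch (by fun_prop)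
  · intro a i hi
    have : ∀ i, LinSpace.nrec (root a) (fun i u => ch a u (LinSpace.kidx (D a)
        (LinSpace.subD (M a) (D a) (h a) (τ a) i))) i ≤ root a + i * G a := by
      intro i
      induction i with
      | zero => simp
      | succ i ih =>
        rw [nrec_succ]
        refine (hb _ _ _).trans ?_
        rw [Nat.succ_mul]
        omega
    refine (this i).trans ?_
    have := Nat.mul_le_mul_right (G a) hi
    omega

@[fun_prop]
theorem LS.invN {p c : α → ℕ} (hp : LS p) (hc : LS c) (hp0 : ∀ a, 0 < p a) :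
    LS (fun a => invN (p a) (c a)) := by
  unfold LinSpace.invN
  exact LS.prodMod (f := fun a _ => c a) (by fun_prop) (by fun_prop) hp hp0

theorem LS.fhN {p D L R t q C : α → ℕ} {F : α → ℕ → ℕ} (hp : LS p) (hD : LS D) (hL : LS L)
    (hR : LS R) (ht : LS t) (hq : LS q) (hC : LS C) (hF : LS (fun z : α × ℕ => F z.1 z.2))
    (hp0 : ∀ a, 0 < p a) (hb : ∀ a, 2 ^ (D a * L a) ≤ C a) :
    LS (fun a => fhN (p a) (D a) (L a) (F a) (R a) (t a) (q a)) := by
  unfold LinSpace.fhN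
  refine LS.sumMod (f := fun a x => LinSpace.dig 2 (F a x) (q a) *
    ((∏ m ∈ range (D a * L a), LinSpace.ifz (LinSpace.dig 2 x m)
      (p a + 1 - LinSpace.dig (p a) (R a) (((t a + 1 + m / L a) % (D a + 1)) * L a + m % L a))
      (LinSpace.dig (p a) (R a) (((t a + 1 + m / L a) % (D a + 1)) * L a + m % L a))) % p a))
    ?_ ?_ hp hp0
  · have h1 : LS (fun z : α × ℕ => (∏ m ∈ range (D z.1 * L z.1), LinSpace.ifz
        (LinSpace.dig 2 z.2 m) (p z.1 + 1 - LinSpace.dig (p z.1) (R z.1)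
          (((t z.1 + 1 + m / L z.1) % (D z.1 + 1)) * L z.1 + m % L z.1))
        (LinSpace.dig (p z.1) (R z.1)
          (((t z.1 + 1 + m / L z.1) % (D z.1 + 1)) * L z.1 + m % L z.1))) % p z.1) := by
      refine LS.prodMod (f := fun (z : α × ℕ) m => LinSpace.ifz
        (LinSpace.dig 2 z.2 m) (p z.1 + 1 - LinSpace.dig (p z.1) (R z.1)
          (((t z.1 + 1 + m / L z.1) % (D z.1 + 1)) * L z.1 + m % L z.1))
        (LinSpace.dig (p z.1) (R z.1)
          (((t z.1 + 1 + m / L z.1) % (D z.1 + 1)) * L z.1 + m % L z.1)))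
        (by fun_prop) (by fun_prop) (by fun_prop) (fun z => hp0 z.1)
    exact LS.mul (LS.dig (by fun_prop) hF (by fun_prop)) h1
  · exact LS.pow_of_le (f := fun _ => 2) (by fun_prop) (by fun_prop) hC hb

/-- The shape of the new digit. -/
theorem LS.ndForm {A₁ A₂ A₃ A₄ A₅ A₆ A₇ A₈ A₉ p L h dd i D c iv : β → ℕ}
    (h₁ : LS A₁) (h₂ : LS A₂) (h₃ : LS A₃) (h₄ : LS A₄) (h₅ : LS A₅) (h₆ : LS A₆) (h₇ : LS A₇)
    (h₈ : LS A₈) (h₉ : LS A₉) (hp : LS p) (hL : LS L) (hh : LS h) (hdd : LS dd) (hi : LS i)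
    (hD : LS D) (hc : LS c) (hiv : LS iv) :
    LS (fun q => LinSpace.ifz (h q - A₁ q)
      (LinSpace.ifz (LinSpace.eq01 (i q / L q) (A₂ q)) (dd q)
        ((dd q + LinSpace.ifz (A₃ q) (p q - 1) 1 * LinSpace.dig 2 (A₄ q) (i q % L q)) % p q))
      (LinSpace.ifz (A₅ q)
        (LinSpace.ifz (A₆ q)
          (LinSpace.ifz (LinSpace.eq01 (i q / L q) (A₇ q)) ((c q * dd q) % p q) (dd q))
          (LinSpace.ifz (LinSpace.eq01 (A₆ q) (D q + 1))
            (LinSpace.ifz (LinSpace.eq01 (i q / L q) (A₇ q)) ((iv q * dd q) % p q) (dd q))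
            (LinSpace.ifz (LinSpace.eq01 (i q / L q) (A₇ q)) (dd q)
              ((dd q + LinSpace.ifz (A₈ q) 1 (p q - 1) * A₉ q) % p q))))
        (dd q))) := by
  fun_prop

theorem LS.ndN {p D L h root τ R i G C : α → ℕ} {F leaf : α → ℕ → ℕ} {ch : α → ℕ → ℕ → ℕ}
    (hp : LS p) (hD : LS D) (hL : LS L) (hh : LS h) (hroot : LS root) (hτ : LS τ) (hR : LS R)
    (hi : LS i) (hG : LS G) (hC : LS C) (hF : LS (fun z : α × ℕ => F z.1 z.2))
    (hleaf : LS (fun z : α × ℕ => leaf z.1 z.2))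
    (hch : LS (fun q : α × ℕ × ℕ => ch q.1 q.2.1 q.2.2)) (hb : ∀ a u i, ch a u i ≤ u + G a)
    (hp0 : ∀ a, 0 < p a) (hb2 : ∀ a, 2 ^ (D a * L a) ≤ C a) :
    LS (fun a => ndN (p a) (D a) (L a) (h a) (root a) (F a) (leaf a) (ch a) (τ a) (R a) (i a)) := by
  have hMM : LS (fun a => MM (p a) (D a)) := by
    unfold MM
    fun_prop
  have hdd : LS (fun a => LinSpace.dig (p a) (R a) (i a)) := by fun_prop
  have hst := LS.stopN hMM hD hh hτ
  have h2 := LS.blkN hMM hD hh hτ hh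
  have h3 := LS.sgnN hMM hD hh hτ hh
  have h4 : LS (fun a => leaf a (LinSpace.nodeN (MM (p a) (D a)) (D a) (h a) (root a) (ch a) (τ a)
      (h a))) :=
    LS.comp (g := fun z : α × ℕ => leaf z.1 z.2) (f := fun a => (a, LinSpace.nodeN
      (MM (p a) (D a)) (D a) (h a) (root a) (ch a) (τ a) (h a))) hleaf
      (LS.prodMk LS.id (LS.nodeN hMM hD hh hroot hτ hh hG hch hb))
  have h5 : LS (fun a => τ a % MM (p a) (D a) ^ (h a - 1 - LinSpace.stopN (MM (p a) (D a)) (D a)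
      (h a) (τ a))) := LS.modPow hMM hτ (by fun_prop)
  have h6 := LS.subD hMM hD hh hτ hst
  have h7 := LS.blkN hMM hD hh hτ hst
  have h8 := LS.sgnN hMM hD hh hτ hst
  have hiL : LS (fun a => i a % L a) := by fun_prop
  have h9 := LS.fhN hp hD hL hR h7 hiL hC hF hp0 hb2
  have hc : LS (fun a => τ a / MM (p a) (D a) ^ (h a - 1 - LinSpace.stopN (MM (p a) (D a)) (D a)
      (h a) (τ a)) % MM (p a) (D a) / (2 * D a + 3) + 1) := by
    have := LS.divPow hMM hτ (i := fun a => h a - 1 - LinSpace.stopN (MM (p a) (D a)) (D a)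
      (h a) (τ a)) (by fun_prop)
    fun_prop
  have hiv := LS.invN hp hc hp0
  exact LS.ndForm hst h2 h3 h4 h5 h6 h7 h8 h9 hp hL hh hdd hi hD hc hiv

theorem LS.stepN {p D L h root τ R G C : α → ℕ} {F leaf : α → ℕ → ℕ} {ch : α → ℕ → ℕ → ℕ}
    (hp : LS p) (hD : LS D) (hL : LS L) (hh : LS h) (hroot : LS root) (hτ : LS τ) (hR : LS R)
    (hG : LS G) (hC : LS C) (hF : LS (fun z : α × ℕ => F z.1 z.2))
    (hleaf : LS (fun z : α × ℕ => leaf z.1 z.2))
    (hch : LS (fun q : α × ℕ × ℕ => ch q.1 q.2.1 q.2.2)) (hb : ∀ a u i, ch a u i ≤ u + G a)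
    (hp0 : ∀ a, 0 < p a) (hb2 : ∀ a, 2 ^ (D a * L a) ≤ C a)
    (hb3 : ∀ a, p a ^ ((D a + 1) * L a) ≤ C a) :
    LS (fun a => stepN (p a) (D a) (L a) (h a) (root a) (F a) (leaf a) (ch a) (τ a) (R a)) := by
  unfold LinSpace.stepN
  refine LS.tab (d := fun a i => LinSpace.ndN (p a) (D a) (L a) (h a) (root a) (F a) (leaf a)
    (ch a) (τ a) (R a) i) ?_ hp (by fun_prop) hC (fun a i _ => ndN_lt (hp0 a) _ _ _ _ _) hb3
  refine LS.ndN (p := fun z : α × ℕ => p z.1) (D := fun z => D z.1) (L := fun z => L z.1)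
    (h := fun z => h z.1) (root := fun z => root z.1) (τ := fun z => τ z.1) (R := fun z => R z.1)
    (i := fun z => z.2) (G := fun z => G z.1) (C := fun z => C z.1) (F := fun z => F z.1)
    (leaf := fun z => leaf z.1) (ch := fun z => ch z.1) (by fun_prop) (by fun_prop) (by fun_prop)
    (by fun_prop) (by fun_prop) (by fun_prop) (by fun_prop) (by fun_prop) (by fun_prop)
    (by fun_prop) ?_ ?_ ?_ (fun z => hb z.1) (fun z => hp0 z.1) (fun z => hb2 z.1)
  · exact LS.comp (g := fun z : α × ℕ => F z.1 z.2) (f := fun z : (α × ℕ) × ℕ => (z.1.1, z.2))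
      hF (by fun_prop)
  · exact LS.comp (g := fun z : α × ℕ => leaf z.1 z.2) (f := fun z : (α × ℕ) × ℕ => (z.1.1, z.2))
      hleaf (by fun_prop)
  · exact LS.comp (g := fun q : α × ℕ × ℕ => ch q.1 q.2.1 q.2.2)
      (f := fun z : (α × ℕ) × ℕ × ℕ => (z.1.1, z.2)) hch (by fun_prop)

/-- **Tree evaluation in linear space.** -/
theorem LS.tval {p D L h root G C : α → ℕ} {F leaf : α → ℕ → ℕ} {ch : α → ℕ → ℕ → ℕ}
    (hp : LS p) (hD : LS D) (hL : LS L) (hh : LS h) (hroot : LS root)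
    (hG : LS G) (hC : LS C) (hF : LS (fun z : α × ℕ => F z.1 z.2))
    (hleaf : LS (fun z : α × ℕ => leaf z.1 z.2))
    (hch : LS (fun q : α × ℕ × ℕ => ch q.1 q.2.1 q.2.2)) (hb : ∀ a u i, ch a u i ≤ u + G a)
    (hprime : ∀ a, (p a).Prime) (hp2 : ∀ a, 2 < p a) (hDL : ∀ a, D a * L a < p a - 1)
    (hF' : ∀ a x, F a x < 2 ^ L a) (hleaf' : ∀ a u, leaf a u < 2 ^ L a)
    (hb3 : ∀ a, p a ^ ((D a + 1) * L a) ≤ C a) (hb4 : ∀ a, MM (p a) (D a) ^ h a ≤ C a) :
    LS (fun a => tval (D a) (L a) (F a) (leaf a) (ch a) (h a) (root a)) := by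
  have hp0 : ∀ a, 0 < p a := fun a => (hprime a).pos
  have hb2 : ∀ a, 2 ^ (D a * L a) ≤ C a := fun a =>
    ((Nat.pow_le_pow_left (hprime a).two_le _).trans
      (Nat.pow_le_pow_right (hp0 a) (Nat.mul_le_mul_right _ (Nat.le_succ _)))).trans (hb3 a)
  have hb5 : ∀ a, 2 ^ L a ≤ C a := fun a =>
    ((Nat.pow_le_pow_left (hprime a).two_le _).trans
      (Nat.pow_le_pow_right (hp0 a) (Nat.le_mul_of_pos_left _ (Nat.succ_pos _)))).trans (hb3 a)
  have hMM : LS (fun a => MM (p a) (D a)) := by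
    unfold MM
    fun_prop
  refine LS.congr (f := fun a => evalN (p a) (D a) (L a) (h a) (root a) (F a) (leaf a) (ch a)) ?_
    fun a => by
      have := Fact.mk (hprime a)
      exact (evalN_eq (hp2 a) (hDL a) (hF' a) (hleaf' a) _ _).symm
  unfold evalN
  have h1 : LS (fun a => LinSpace.nrec 0 (LinSpace.stepN (p a) (D a) (L a) (h a) (root a) (F a)
      (leaf a) (ch a)) (MM (p a) (D a) ^ h a)) := by
    refine LS.nrec (G := fun _ => 0) (N := fun a => MM (p a) (D a) ^ h a) (C := C)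
      (K := fun a => LinSpace.stepN (p a) (D a) (L a) (h a) (root a) (F a) (leaf a) (ch a))
      (by fun_prop) (LS.pow_of_le hMM hh hC hb4) hC ?_ ?_
    · refine LS.stepN (p := fun z : α × ℕ × ℕ => p z.1) (D := fun z => D z.1)
        (L := fun z => L z.1) (h := fun z => h z.1) (root := fun z => root z.1)
        (τ := fun z => z.2.1) (R := fun z => z.2.2) (G := fun z => G z.1) (C := fun z => C z.1)
        (F := fun z => F z.1) (leaf := fun z => leaf z.1) (ch := fun z => ch z.1)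
        (by fun_prop) (by fun_prop) (by fun_prop)
        (by fun_prop) (by fun_prop) (by fun_prop) (by fun_prop) (by fun_prop)
        (by fun_prop) ?_ ?_ ?_ (fun z => hb z.1) (fun z => hp0 z.1) (fun z => hb2 z.1)
        (fun z => hb3 z.1)
      · exact LS.comp (g := fun z : α × ℕ => F z.1 z.2)
          (f := fun z : (α × ℕ × ℕ) × ℕ => (z.1.1, z.2)) hF (by fun_prop)
      · exact LS.comp (g := fun z : α × ℕ => leaf z.1 z.2)
          (f := fun z : (α × ℕ × ℕ) × ℕ => (z.1.1, z.2)) hleaf (by fun_prop)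
      · exact LS.comp (g := fun q : α × ℕ × ℕ => ch q.1 q.2.1 q.2.2)
          (f := fun z : (α × ℕ × ℕ) × ℕ × ℕ => (z.1.1, z.2)) hch (by fun_prop)
    · intro a i _
      rcases i with _ | i
      · exact Nat.zero_le _
      · rw [nrec_succ]
        exact (tab_lt (fun i _ => ndN_lt (hp0 a) _ _ _ _ _)).le.trans (hb3 a)
  refine LS.tab (q := fun _ : α => 2) (m := L) (C := C)
    (d := fun a i => LinSpace.dig (p a) (LinSpace.nrec 0 (LinSpace.stepN (p a)
      (D a) (L a) (h a) (root a) (F a) (leaf a) (ch a)) (MM (p a) (D a) ^ h a)) i % 2) ?_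
      (by fun_prop) hL hC (fun a i _ => Nat.mod_lt _ (by norm_num)) hb5
  have h2 : LS (fun z : α × ℕ => LinSpace.nrec 0 (LinSpace.stepN (p z.1) (D z.1) (L z.1) (h z.1)
      (root z.1) (F z.1) (leaf z.1) (ch z.1)) (MM (p z.1) (D z.1) ^ h z.1)) :=
    LS.comp (f := fun z : α × ℕ => z.1) h1 (by fun_prop)
  exact LS.mod (LS.dig (by fun_prop) h2 (by fun_prop)) (by fun_prop)

end Pool.Agent.Helper65.LinSpace
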